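import Pool.Agent.T3h36.PP.Stm

/-!
# PP, task GAP: the polynomial gap

`core` is the abstract form of the argument (an arbitrary functional `Q` on the 3-graphs on `Fin N`, and
arbitrary numbers `δ`, `τ` with four numerical conditions).
-/

set_option autoImplicit false
open Finset
open Pool.Agent.T2h36 Pool.Agent.T2h36.Uni

namespace Pool.Agent.T3h36.PP

namespace GAP

theorem mk_nonneg {s t : ℝ} (hs : 0 ≤ s) (ht : 0 ≤ t) (z : Fin 3) : 0 ≤ mk s t z := by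
  unfold mk; split_ifs <;> linarith

theorem W_nonneg {P B : Type} [Fintype P] {s t : ℝ} (hs : 0 ≤ s) (ht : 0 ≤ t) {β : B → ℝ}
    (hβ : ∀ p, 0 ≤ β p) (ℓ : P → Fin 3 × B) : 0 ≤ W s t β ℓ :=
  prod_nonneg fun _ _ => mul_nonneg (mk_nonneg hs ht _) (hβ _)

theorem sum_one {B : Type} [Fintype B] (s t : ℝ) (β : B → ℝ) (h : ∑ p, β p = 1) :
    ∑ x : Fin 3 × B, mk s t x.1 * β x.2 = 1 + s + t := by
  rw [Fintype.sum_prod_type]
  simp only [← mul_sum, h, mul_one]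
  rw [Fin.sum_univ_three]
  simp [mk]

theorem sum_W {B : Type} [Fintype B] (N : ℕ) (s t : ℝ) (β : B → ℝ) (h : ∑ p, β p = 1) :
    ∑ ℓ : Fin N → Fin 3 × B, W s t β ℓ = (1 + s + t) ^ N := by
  rw [← sum_one s t β h, Fintype.sum_pow]
  rfl

theorem sum_BW {P B : Type} [Fintype P] [DecidableEq P] [Fintype B] (β : B → ℝ) (h : ∑ p, β p = 1) :
    ∑ b : P → B, BW β b = 1 := by
  have h2 := Finset.prod_univ_sum (fun _ : P => (univ : Finset B)) (fun _ p => β p)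
  rw [Fintype.piFinset_univ] at h2
  unfold BW
  rw [← h2]
  simp [h]

theorem sum_bad {P B : Type} [Fintype P] [DecidableEq P] [Fintype B] (s t : ℝ) (β : B → ℝ)
    (h : ∑ p, β p = 1) :
    ∑ ℓ : P → Fin 3 × B, (if Good (mks ℓ) then 0 else W s t β ℓ) = bads P s t := by
  rw [← (Equiv.arrowProdEquivProdArrow P (fun _ => Fin 3) (fun _ => B)).symm.sum_comp]
  rw [Fintype.sum_prod_type]
  unfold bads
  refine sum_congr rfl fun μ _ => ?_
  have hm : ∀ b : P → B, mks ((Equiv.arrowProdEquivProdArrow P (fun _ => Fin 3) (fun _ => B)).symm (μ, b)) = μ :=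
    fun b => rfl
  have hW : ∀ b : P → B, W s t β ((Equiv.arrowProdEquivProdArrow P (fun _ => Fin 3) (fun _ => B)).symm (μ, b)) =
      MW s t μ * BW β b := by
    intro b
    unfold W MW BW
    rw [← prod_mul_distrib]
    rfl
  by_cases hg : Good μ
  · simp only [hm, hg, if_true]
    simp
  · simp only [hm, hg, if_false, hW]
    rw [← mul_sum, sum_BW β h, mul_one]

theorem edgeDens_nonneg {V : Type} [Fintype V] (H : Finset (Finset V)) : 0 ≤ edgeDens H := by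
  unfold edgeDens; positivity

theorem edgeDens_le {V : Type} [Fintype V] [DecidableEq V] {H : Finset (Finset V)} (h : Is3 H) :
    edgeDens H ≤ 1 := by
  unfold edgeDens
  refine div_le_one_of_le₀ ?_ (by positivity)
  have h1 : H ⊆ powersetCard 3 univ := fun e he => mem_powersetCard.mpr ⟨subset_univ _, h e he⟩
  have h2 := card_le_card h1
  rw [card_powersetCard, card_univ] at h2
  exact_mod_cast h2

theorem pow_le_three {N : ℕ} {y : ℝ} (hy : 0 ≤ y) (hN : y * N ≤ 1) : (1 + y) ^ N ≤ 3 := by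
  have h1 : (1 + y) ^ N ≤ Real.exp y ^ N :=
    pow_le_pow_left₀ (by linarith) (by linarith [Real.add_one_le_exp y]) N
  rw [← Real.exp_nat_mul] at h1
  have h2 : Real.exp (N * y) ≤ Real.exp 1 := Real.exp_le_exp.mpr (by linarith)
  linarith [Real.exp_one_lt_d9]

/-- the argument for an arbitrary functional `Q` -/
theorem core (hc : S_CLIQ) (hd : S_DENS) (he : S_EDGE) (hb : S_BADS) (hg : S_GRAPH)
    (L N m : ℕ) [NeZero L] (hL : 3 ≤ L) (hLN : L ≤ N) (δ τ : ℝ) (hδ : 0 < δ) (hδ1 : δ ≤ 1) (hτ : 0 < τ)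
    (h1 : δ * ((m : ℝ) + 1) ^ 2 * (2 * N) ≤ 1) (h2 : 2 / δ * (3 / 2 * τ) * N ≤ 1) (h4 : 2 * τ * N ≤ 1)
    (h3 : (6 * ((m : ℝ) + 1)) ^ 4 * (6 * ((m : ℝ) + 1) ^ 2) * (3 * (N : ℝ) ^ 4 * (2 / δ) ^ 4 * τ ^ 4 / 4) +
      3 / 4 * (N : ℝ) ^ 4 * τ ^ 4 ≤ τ ^ 3 / 8)
    (Q : Finset (Finset (Fin N)) → ℝ) (lam : ℝ) (hQ0 : 0 ≤ Q ∅)
    (hGRP : ∀ β : ZMod L → ℝ, (∀ p, 0 ≤ β p) → ∑ p, β p = 1 → ∃ ST SR : ℝ → ℝ → ℝ,
      (∀ s' t', 0 ≤ s' → 0 ≤ t' →
        ST s' t' ≤ ∑ ℓ : Fin N → Fin 3 × ZMod L, W s' t' β ℓ * Q (GG rT ℓ)) ∧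
      (∀ s' t', 0 ≤ s' → 0 ≤ t' →
        SR s' t' ≤ ∑ ℓ : Fin N → Fin 3 × ZMod L, W s' t' β ℓ * Q (GG rR ℓ)) ∧
      ∀ (δ s t : ℝ), 0 < δ → δ ≤ 1 → 0 ≤ s → 0 ≤ t →
        -((6 * ((m : ℝ) + 1)) ^ 4 * nodes m δ (fun s' t' => ST s' t' + SR s' t') *
          bads (Fin N) (2 / δ * s) (2 / δ * t)) ≤
        ∑ ℓ : Fin N → Fin 3 × ZMod L, if Good (mks ℓ) then W s t β ℓ * Q (GG rQ ℓ) else 0)
    (H : ∀ G : Finset (Finset (Fin N)), Is3 G → CliqueFree3 (L + 1) G → edgeDens G + Q G ≤ lam) :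
    1 - 4 / (L : ℝ) ^ 2 + τ ^ 3 / 12 ≤ lam := by
  classical
  have hN3 : 3 ≤ N := le_trans hL hLN
  have hN0 : (0 : ℝ) < N := by exact_mod_cast (by omega : 0 < N)
  have hLr : (3 : ℝ) ≤ L := by exact_mod_cast hL
  have hL0 : (0 : ℝ) < L := by linarith
  have hLNr : (L : ℝ) ≤ N := by exact_mod_cast hLN
  have hL4 : 0 < 4 / (L : ℝ) ^ 2 := by positivity
  have hτL : τ ≤ 1 / L := by
    rw [le_div_iff₀ hL0]
    have : τ * L ≤ τ * N := mul_le_mul_of_nonneg_left hLNr hτ.le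
    nlinarith
  -- `lam` is nonnegative, and may be assumed to be at most 1
  have hlam0 : 0 ≤ lam := by
    have h5 := H ∅ (fun e he => absurd he (notMem_empty e)) (by
      intro S hS
      obtain ⟨T, hT, hT3⟩ := exists_subset_card_eq (show 3 ≤ S.card by omega)
      exact ⟨T, hT, hT3, notMem_empty T⟩)
    have h6 := edgeDens_nonneg (∅ : Finset (Finset (Fin N)))
    linarith
  have hτ1 : τ ^ 3 / 12 ≤ 4 / (L : ℝ) ^ 2 := by
    have hτ' : τ ≤ 1 := by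
      have : (3 : ℝ) ≤ N := by linarith
      nlinarith
    have h7 : τ ^ 2 ≤ (1 / (L : ℝ)) ^ 2 := pow_le_pow_left₀ hτ.le hτL 2
    have h8 : τ ^ 3 ≤ τ ^ 2 := by nlinarith [sq_nonneg τ]
    have h9 : (1 / (L : ℝ)) ^ 2 = 1 / (L : ℝ) ^ 2 := by rw [div_pow, one_pow]
    have h10 : 4 / (L : ℝ) ^ 2 = 4 * (1 / (L : ℝ) ^ 2) := by ring
    rw [h10, ← h9]
    nlinarith [sq_nonneg (1 / (L : ℝ))]
  rcases le_total 1 lam with hl | hl
  · linarith
  -- the weights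
  set t : ℝ := τ with ht
  set s : ℝ := τ / 2 with hs
  have hs0 : 0 ≤ s := by rw [hs]; linarith
  have ht0 : 0 ≤ t := by rw [ht]; linarith
  obtain ⟨hβ0, hβ1, hdens⟩ := hd L hL s t hs0 ht0 (by rw [hs]; linarith) (by rw [ht]; exact hτL)
  set β := bet L s t with hβ
  obtain ⟨ST, SR, hST, hSR, hfin⟩ := hGRP β hβ0 hβ1
  -- values at the nodes
  have hval : ∀ s' t' : ℝ, 0 ≤ s' → 0 ≤ t' → s' + t' ≤ 1 / N → ST s' t' ≤ 3 ∧ SR s' t' ≤ 3 := by
    intro s' t' h5 h6 h7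
    have h8 : (1 + s' + t') ^ N ≤ 3 := by
      rw [add_assoc]
      refine pow_le_three (by linarith) ?_
      have := mul_le_mul_of_nonneg_right h7 hN0.le
      rwa [one_div, inv_mul_cancel₀ hN0.ne'] at this
    have key : ∀ R : Fin 3 × ZMod L → Fin 3 × ZMod L → Fin 3 × ZMod L → Prop,
        (∀ ℓ : Fin N → Fin 3 × ZMod L, CliqueFree3 (L + 1) (GG R ℓ)) →
        ∑ ℓ : Fin N → Fin 3 × ZMod L, W s' t' β ℓ * Q (GG R ℓ) ≤ 3 := by
      intro R hR
      calc ∑ ℓ : Fin N → Fin 3 × ZMod L, W s' t' β ℓ * Q (GG R ℓ)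
          ≤ ∑ ℓ : Fin N → Fin 3 × ZMod L, W s' t' β ℓ * 1 := by
            refine sum_le_sum fun ℓ _ => mul_le_mul_of_nonneg_left ?_ (W_nonneg h5 h6 hβ0 ℓ)
            have h9 := H (GG R ℓ) (hg.1 _ _ R ℓ) (hR ℓ)
            have h10 := edgeDens_nonneg (GG R ℓ)
            linarith
        _ = (1 + s' + t') ^ N := by simp only [mul_one]; exact sum_W N s' t' β hβ1
        _ ≤ 3 := h8
    exact ⟨le_trans (hST s' t' h5 h6) (key _ fun ℓ => (hc L hL _ ℓ).1),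
      le_trans (hSR s' t' h5 h6) (key _ fun ℓ => (hc L hL _ ℓ).2)⟩
  have hnodes : nodes m δ (fun s' t' => ST s' t' + SR s' t') ≤ 6 * ((m : ℝ) + 1) ^ 2 := by
    unfold nodes
    have hnode : ∀ i ∈ range (m + 1), 0 ≤ δ * ((i : ℝ) + 1) ^ 2 ∧ δ * ((i : ℝ) + 1) ^ 2 ≤ 1 / (2 * N) := by
      intro i hi
      refine ⟨by positivity, ?_⟩
      have h5 : (i : ℝ) + 1 ≤ (m : ℝ) + 1 := by
        have := mem_range.mp hi
        exact_mod_cast this
      have h6 : δ * ((i : ℝ) + 1) ^ 2 ≤ δ * ((m : ℝ) + 1) ^ 2 :=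
        mul_le_mul_of_nonneg_left (pow_le_pow_left₀ (by positivity) h5 2) hδ.le
      rw [le_div_iff₀ (by positivity)]
      exact le_trans (mul_le_mul_of_nonneg_right h6 (by positivity)) h1
    calc ∑ i ∈ range (m + 1), ∑ i' ∈ range (m + 1),
          (ST (δ * ((i : ℝ) + 1) ^ 2) (δ * ((i' : ℝ) + 1) ^ 2) +
            SR (δ * ((i : ℝ) + 1) ^ 2) (δ * ((i' : ℝ) + 1) ^ 2))
        ≤ ∑ _i ∈ range (m + 1), ∑ _i' ∈ range (m + 1), (6 : ℝ) := by
          refine sum_le_sum fun i hi => sum_le_sum fun i' hi' => ?_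
          obtain ⟨a1, a2⟩ := hnode i hi
          obtain ⟨b1, b2⟩ := hnode i' hi'
          have h5 : (1 : ℝ) / (2 * N) + 1 / (2 * N) = 1 / N := by field_simp; norm_num
          obtain ⟨c1, c2⟩ := hval _ _ a1 b1 (by linarith)
          linarith
      _ = 6 * ((m : ℝ) + 1) ^ 2 := by
          simp only [sum_const, card_range, nsmul_eq_mul]
          push_cast; ring
  -- the bad labels
  have hbad1 : bads (Fin N) (2 / δ * s) (2 / δ * t) ≤ 3 * (N : ℝ) ^ 4 * (2 / δ) ^ 4 * τ ^ 4 / 4 := by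
    have h5 : 0 ≤ 2 / δ * s := by positivity
    have h6 : 0 ≤ 2 / δ * t := by positivity
    have h7 := hb (Fin N) (2 / δ * s) (2 / δ * t) h5 h6
    rw [Fintype.card_fin] at h7
    have h8 : (1 + 2 / δ * s + 2 / δ * t) ^ N ≤ 3 := by
      rw [add_assoc]
      refine pow_le_three (by linarith) ?_
      have : 2 / δ * s + 2 / δ * t = 2 / δ * (3 / 2 * τ) := by rw [hs, ht]; ring
      rw [this]; exact h2
    have h9 : (N : ℝ) ^ 4 * (2 / δ * s) ^ 2 * (2 / δ * t) ^ 2 * (1 + 2 / δ * s + 2 / δ * t) ^ N ≤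
        (N : ℝ) ^ 4 * (2 / δ * s) ^ 2 * (2 / δ * t) ^ 2 * 3 :=
      mul_le_mul_of_nonneg_left h8 (by positivity)
    have h10 : (N : ℝ) ^ 4 * (2 / δ * s) ^ 2 * (2 / δ * t) ^ 2 * 3 =
        3 * (N : ℝ) ^ 4 * (2 / δ) ^ 4 * τ ^ 4 / 4 := by rw [hs, ht]; ring
    linarith
  have hX3 : (1 + s + t) ^ N ≤ 3 := by
    rw [add_assoc]
    refine pow_le_three (by linarith) ?_
    rw [hs, ht]; nlinarith
  have hbad2 : bads (Fin N) s t ≤ 3 / 4 * (N : ℝ) ^ 4 * τ ^ 4 := by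
    have h7 := hb (Fin N) s t hs0 ht0
    rw [Fintype.card_fin] at h7
    have h9 : (N : ℝ) ^ 4 * s ^ 2 * t ^ 2 * (1 + s + t) ^ N ≤ (N : ℝ) ^ 4 * s ^ 2 * t ^ 2 * 3 :=
      mul_le_mul_of_nonneg_left hX3 (by positivity)
    have h10 : (N : ℝ) ^ 4 * s ^ 2 * t ^ 2 * 3 = 3 / 4 * (N : ℝ) ^ 4 * τ ^ 4 := by rw [hs, ht]; ring
    linarith
  have hbads0 : ∀ S T : ℝ, 0 ≤ S → 0 ≤ T → 0 ≤ bads (Fin N) S T := by
    intro S T hS hT
    unfold bads
    refine sum_nonneg fun μ _ => ?_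
    split_ifs
    · exact le_rfl
    · exact prod_nonneg fun _ _ => mk_nonneg hS hT _
  have hneg : -((6 * ((m : ℝ) + 1)) ^ 4 * (6 * ((m : ℝ) + 1) ^ 2) *
      (3 * (N : ℝ) ^ 4 * (2 / δ) ^ 4 * τ ^ 4 / 4)) ≤
      ∑ ℓ : Fin N → Fin 3 × ZMod L, if Good (mks ℓ) then W s t β ℓ * Q (GG rQ ℓ) else 0 := by
    refine le_trans ?_ (hfin δ s t hδ hδ1 hs0 ht0)
    refine neg_le_neg ?_
    have h5 : 0 ≤ bads (Fin N) (2 / δ * s) (2 / δ * t) := hbads0 _ _ (by positivity) (by positivity)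
    have h6 : (6 * ((m : ℝ) + 1)) ^ 4 * nodes m δ (fun s' t' => ST s' t' + SR s' t') ≤
        (6 * ((m : ℝ) + 1)) ^ 4 * (6 * ((m : ℝ) + 1) ^ 2) := mul_le_mul_of_nonneg_left hnodes (by positivity)
    exact le_trans (mul_le_mul_of_nonneg_right h6 h5) (mul_le_mul_of_nonneg_left hbad1 (by positivity))
  -- good labels
  have hgoodfree : ∀ ℓ : Fin N → Fin 3 × ZMod L, Good (mks ℓ) → CliqueFree3 (L + 1) (GG rQ ℓ) := by
    intro ℓ hl
    rcases hl with h5 | h5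
    · rw [hg.2.2.2.1 L _ ℓ h5]; exact (hc L hL _ ℓ).1
    · rw [hg.2.2.2.2 L _ ℓ h5]; exact (hc L hL _ ℓ).2
  have hup : ∑ ℓ : Fin N → Fin 3 × ZMod L, (if Good (mks ℓ) then W s t β ℓ * edgeDens (GG rQ ℓ) else 0) +
      ∑ ℓ : Fin N → Fin 3 × ZMod L, (if Good (mks ℓ) then W s t β ℓ * Q (GG rQ ℓ) else 0) ≤
      lam * (1 + s + t) ^ N := by
    rw [← sum_W N s t β hβ1, mul_sum, ← sum_add_distrib]
    refine sum_le_sum fun ℓ _ => ?_
    have hw := W_nonneg hs0 ht0 hβ0 ℓ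
    split_ifs with h5
    · rw [← mul_add, mul_comm lam]
      exact mul_le_mul_of_nonneg_left (H _ (hg.1 _ _ rQ ℓ) (hgoodfree ℓ h5)) hw
    · rw [add_zero]; positivity
  have hedge : ∑ ℓ : Fin N → Fin 3 × ZMod L, W s t β ℓ * edgeDens (GG rQ ℓ) - bads (Fin N) s t ≤
      ∑ ℓ : Fin N → Fin 3 × ZMod L, (if Good (mks ℓ) then W s t β ℓ * edgeDens (GG rQ ℓ) else 0) := by
    rw [← sum_bad s t β hβ1, ← sum_sub_distrib]
    refine sum_le_sum fun ℓ _ => ?_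
    have hw := W_nonneg hs0 ht0 hβ0 ℓ
    split_ifs with h5
    · rw [sub_zero]
    · have := mul_le_mul_of_nonneg_left (edgeDens_le (hg.1 _ _ (@rQ L) ℓ)) hw
      linarith
  have hall := he (Fin N) (ZMod L) (@rQ L) β s t hβ1 (hg.2.2.1 L hL).2.1 (by rw [Fintype.card_fin]; exact hN3)
  rw [Fintype.card_fin] at hall
  have hdens' : ∑ a : Fin 3 × ZMod L, ∑ b : Fin 3 × ZMod L, ∑ c : Fin 3 × ZMod L,
      (mk s t a.1 * β a.2) * (mk s t b.1 * β b.2) * (mk s t c.1 * β c.2) * (if rQ a b c then 1 else 0) =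
      (1 - 4 / (L : ℝ) ^ 2) * (1 + s + t) ^ 3 + 3 * s ^ 2 * (t - s) := by
    rw [← hdens]
  have hge1 : (1 : ℝ) ≤ (1 + s + t) ^ (N - 3) := one_le_pow₀ (by linarith)
  have hpow : (1 + s + t) ^ (N - 3) * (1 + s + t) ^ 3 = (1 + s + t) ^ N := by
    rw [← pow_add]; congr 1; omega
  have hlow : (1 - 4 / (L : ℝ) ^ 2) * (1 + s + t) ^ N + 3 / 8 * τ ^ 3 ≤
      ∑ ℓ : Fin N → Fin 3 × ZMod L, W s t β ℓ * edgeDens (GG rQ ℓ) := by
    have h5 : ∑ ℓ : Fin N → Fin 3 × ZMod L, W s t β ℓ * edgeDens (GG rQ ℓ) =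
        (1 + s + t) ^ (N - 3) * ((1 - 4 / (L : ℝ) ^ 2) * (1 + s + t) ^ 3 + 3 * s ^ 2 * (t - s)) := by
      rw [← hdens']
      convert hall using 2
    rw [h5, mul_add]
    have h6 : (1 + s + t) ^ (N - 3) * ((1 - 4 / (L : ℝ) ^ 2) * (1 + s + t) ^ 3) =
        (1 - 4 / (L : ℝ) ^ 2) * (1 + s + t) ^ N := by rw [← hpow]; ring
    have h7 : 3 * s ^ 2 * (t - s) = 3 / 8 * τ ^ 3 := by rw [hs, ht]; ring
    rw [h6, h7]
    have h8 : 1 * (3 / 8 * τ ^ 3) ≤ (1 + s + t) ^ (N - 3) * (3 / 8 * τ ^ 3) :=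
      mul_le_mul_of_nonneg_right hge1 (by positivity)
    linarith
  have hX1 : (1 : ℝ) ≤ (1 + s + t) ^ N := one_le_pow₀ (by linarith)
  have hτ3 : 0 < τ ^ 3 := by positivity
  have hsum : (1 - 4 / (L : ℝ) ^ 2) * (1 + s + t) ^ N + τ ^ 3 / 4 ≤ lam * (1 + s + t) ^ N := by
    linarith
  set X := (1 + s + t) ^ N with hX
  have h20 : τ ^ 3 / 4 ≤ (lam - (1 - 4 / (L : ℝ) ^ 2)) * X := by linarith
  have h21 : 0 < lam - (1 - 4 / (L : ℝ) ^ 2) := by
    by_contra hcon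
    push Not at hcon
    have : (lam - (1 - 4 / (L : ℝ) ^ 2)) * X ≤ 0 := mul_nonpos_of_nonpos_of_nonneg hcon (by linarith)
    linarith
  have h22 : (lam - (1 - 4 / (L : ℝ) ^ 2)) * X ≤ (lam - (1 - 4 / (L : ℝ) ^ 2)) * 3 :=
    mul_le_mul_of_nonneg_left hX3 h21.le
  linarith

theorem pull_empty {A V : Type} [Fintype A] [DecidableEq V] (θ : A ↪ V) : pull θ (∅ : Finset (Finset V)) = ∅ := by
  unfold pull; simp

theorem pull_full {A V : Type} [Fintype A] [Fintype V] [DecidableEq V] (θ : A ↪ V) :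
    pull θ (powersetCard 3 (univ : Finset V)) = powersetCard 3 (univ : Finset A) := by
  unfold pull
  ext e
  simp [mem_powersetCard]

theorem edgeDens_full {V : Type} [Fintype V] (h : 3 ≤ Fintype.card V) :
    edgeDens (powersetCard 3 (univ : Finset V)) = 1 := by
  unfold edgeDens
  rw [card_powersetCard, card_univ]
  have : (0 : ℝ) < (((Fintype.card V).choose 3 : ℕ) : ℝ) := by exact_mod_cast Nat.choose_pos h
  exact div_self this.ne'

end GAP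

theorem t_GAP (hr : S_GRP) (hc : S_CLIQ) (hd : S_DENS) (he : S_EDGE) (hb : S_BADS) (hg : S_GRAPH) :
    S_GAP := by
  intro κ hκ k m hm hN3 r f hf c hc0 lam H
  obtain ⟨L, rfl⟩ : ∃ L, κ = L + 1 := ⟨κ - 1, by omega⟩
  have hL : 3 ≤ L := by omega
  have : NeZero L := ⟨by omega⟩
  have hLc : (((L + 1 : ℕ) : ℝ) - 1) = L := by push_cast; ring
  rw [hLc]
  have hLr : (3 : ℝ) ≤ L := by exact_mod_cast hL
  have hNr : (3 : ℝ) ≤ ((k + 2 * m : ℕ) : ℝ) := by exact_mod_cast hN3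
  obtain ⟨x, hx⟩ : ∃ x : ℝ, x = 2 * ((k + 2 * m : ℕ) : ℝ) := ⟨_, rfl⟩
  have hx6 : 6 ≤ x := by rw [hx]; linarith
  have hx0 : 0 < x := by linarith
  rw [← hx]
  have hfin : ∀ y : ℝ, 1 / x ^ 71 ≤ y → 1 / ((L : ℝ) ^ 2 * x ^ 71) ≤ y := by
    intro y hy
    refine le_trans ?_ hy
    refine one_div_le_one_div_of_le (by positivity) ?_
    have : (1 : ℝ) ≤ (L : ℝ) ^ 2 := one_le_pow₀ (by linarith)
    nlinarith [pow_pos hx0 71]
  rcases lt_or_ge (k + 2 * m) L with hNL | hLN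
  · -- the complete 3-graph
    have hfree : CliqueFree3 (L + 1) (powersetCard 3 (univ : Finset (Fin (k + 2 * m)))) := by
      intro S hS
      have := card_le_univ S
      rw [Fintype.card_fin] at this
      omega
    have h5 := H (powersetCard 3 univ) (fun e he => (mem_powersetCard.mp he).2) hfree
    rw [GAP.edgeDens_full (by rw [Fintype.card_fin]; exact hN3)] at h5
    have h6 : 0 ≤ ∑ j : Fin r, avg (fun G' : Finset (Finset (Fin k ⊕ (Fin m ⊕ Fin m))) =>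
        ∑ J, c J * (f j (pull (left k m) G') * f j (pull (aJ k m J) G')))
        (powersetCard 3 (univ : Finset (Fin (k + 2 * m)))) := by
      refine sum_nonneg fun j _ => ?_
      unfold avg
      refine div_nonneg (sum_nonneg fun θ _ => sum_nonneg fun J _ => ?_) (by positivity)
      rw [GAP.pull_full, GAP.pull_full, GAP.pull_full]
      exact mul_nonneg (hc0 J) (mul_self_nonneg _)
    have h7 : 1 / ((L : ℝ) ^ 2 * x ^ 71) ≤ 4 / (L : ℝ) ^ 2 := by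
      rw [div_le_div_iff₀ (by positivity) (by positivity)]
      have : (1 : ℝ) ≤ x ^ 71 := one_le_pow₀ (by linarith)
      nlinarith [sq_nonneg (L : ℝ)]
    linarith
  · have hmN : ((m : ℝ) + 1) ≤ x / 2 := by
      have h5 : m + 1 ≤ k + 2 * m := by omega
      have h6 : ((m : ℝ) + 1) ≤ ((k + 2 * m : ℕ) : ℝ) := by exact_mod_cast h5
      rw [hx]; linarith
    have hN : ((k + 2 * m : ℕ) : ℝ) = x / 2 := by rw [hx]; ring
    have hm0 : (0 : ℝ) ≤ (m : ℝ) + 1 := by positivity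
    have hδ : (2 : ℝ) / (4 / x ^ 3) = x ^ 3 / 2 := by field_simp; norm_num
    have hcore := GAP.core hc hd he hb hg L (k + 2 * m) m hL hLN (4 / x ^ 3) (1 / x ^ 23)
      (by positivity)
      (by
        rw [div_le_one (by positivity)]
        nlinarith [pow_le_pow_left₀ (by norm_num) hx6 3])
      (by positivity)
      (by
        rw [hN]
        have h5 : ((m : ℝ) + 1) ^ 2 ≤ (x / 2) ^ 2 := pow_le_pow_left₀ hm0 hmN 2
        calc 4 / x ^ 3 * ((m : ℝ) + 1) ^ 2 * (2 * (x / 2)) ≤ 4 / x ^ 3 * (x / 2) ^ 2 * (2 * (x / 2)) := by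
              gcongr
          _ = 1 := by field_simp; norm_num)
      (by
        rw [hN, hδ]
        have h5 : x ^ 3 / 2 * (3 / 2 * (1 / x ^ 23)) * (x / 2) = 3 / 8 / x ^ 19 := by field_simp; norm_num
        rw [h5, div_le_one (by positivity)]
        have : (1 : ℝ) ≤ x ^ 19 := one_le_pow₀ (by linarith)
        linarith)
      (by
        rw [hN]
        have h5 : 2 * (1 / x ^ 23) * (x / 2) = 1 / x ^ 22 := by field_simp
        rw [h5, div_le_one (by positivity)]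
        exact one_le_pow₀ (by linarith))
      (by
        rw [hN, hδ]
        have h5 : (6 * ((m : ℝ) + 1)) ^ 4 ≤ (6 * (x / 2)) ^ 4 := pow_le_pow_left₀ (by positivity) (by linarith) 4
        have h6 : 6 * ((m : ℝ) + 1) ^ 2 ≤ 6 * (x / 2) ^ 2 := by
          have := pow_le_pow_left₀ hm0 hmN 2
          linarith
        have h7 : (6 * ((m : ℝ) + 1)) ^ 4 * (6 * ((m : ℝ) + 1) ^ 2) ≤ (6 * (x / 2)) ^ 4 * (6 * (x / 2) ^ 2) :=
          mul_le_mul h5 h6 (by positivity) (by positivity)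
        have h8 : (6 * ((m : ℝ) + 1)) ^ 4 * (6 * ((m : ℝ) + 1) ^ 2) *
            (3 * (x / 2) ^ 4 * (x ^ 3 / 2) ^ 4 * (1 / x ^ 23) ^ 4 / 4) ≤
            (6 * (x / 2)) ^ 4 * (6 * (x / 2) ^ 2) * (3 * (x / 2) ^ 4 * (x ^ 3 / 2) ^ 4 * (1 / x ^ 23) ^ 4 / 4) :=
          mul_le_mul_of_nonneg_right h7 (by positivity)
        have h9 : (6 * (x / 2)) ^ 4 * (6 * (x / 2) ^ 2) *
            (3 * (x / 2) ^ 4 * (x ^ 3 / 2) ^ 4 * (1 / x ^ 23) ^ 4 / 4) = 729 / 2048 * (1 / x ^ 70) := by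
          field_simp; norm_num
        have h10 : 3 / 4 * (x / 2) ^ 4 * (1 / x ^ 23) ^ 4 = 3 / 64 * (1 / x ^ 88) := by
          field_simp; norm_num
        have h11 : (1 / x ^ 23) ^ 3 / 8 = x / 8 * (1 / x ^ 70) := by field_simp
        have h12 : 1 / x ^ 88 ≤ 1 / x ^ 70 :=
          one_div_le_one_div_of_le (by positivity) (pow_le_pow_right₀ (by linarith) (by norm_num))
        have h13 : 0 < 1 / x ^ 70 := by positivity
        rw [h10, h11]
        have h14 : 6 / 8 * (1 / x ^ 70) ≤ x / 8 * (1 / x ^ 70) :=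
          mul_le_mul_of_nonneg_right (by linarith) h13.le
        linarith)
      (fun G => ∑ j : Fin r, avg (fun G' : Finset (Finset (Fin k ⊕ (Fin m ⊕ Fin m))) =>
        ∑ J, c J * (f j (pull (left k m) G') * f j (pull (aJ k m J) G'))) G) lam
      (by
        refine sum_nonneg fun j _ => ?_
        unfold avg
        refine div_nonneg (sum_nonneg fun θ _ => sum_nonneg fun J _ => ?_) (by positivity)
        rw [GAP.pull_empty, GAP.pull_empty, GAP.pull_empty]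
        exact mul_nonneg (hc0 J) (mul_self_nonneg _))
      (fun β hβ0 hβ1 => hr L hL k m r f hf c hc0 β hβ0 hβ1) H
    have h30 : 1 / x ^ 71 ≤ (1 / x ^ 23) ^ 3 / 12 := by
      have : (1 / x ^ 23) ^ 3 / 12 = x ^ 2 / 12 * (1 / x ^ 71) := by field_simp
      rw [this]
      have h31 : 0 < 1 / x ^ 71 := by positivity
      have h32 : (1 : ℝ) ≤ x ^ 2 / 12 := by nlinarith
      nlinarith
    have := hfin _ h30
    linarith

end Pool.Agent.T3h36.PP
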