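import Pool.Agent.T3h36.PP.T_UGP1
import Pool.Agent.T3h36.PP.T_GAP

set_option autoImplicit false
open Finset
open Pool.Agent.T2h36 Pool.Agent.T2h36.Uni

namespace Pool.Agent.T3h36.PP

/-- the polynomial uniform gap for flag algebra certificates with squares of all kinds -/
theorem t_UGP (hp : S_PAIR) (hg : S_GRAPH) (hs : S_SAMP) (hc : S_CLIQ) (hd : S_DENS) (he : S_EDGE)
    (hb : S_BADS) : S_UGP := by
  intro κ hκ N hN r f lam H
  obtain ⟨L, rfl⟩ : ∃ L, κ = L + 1 := ⟨κ - 1, by omega⟩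
  have hL : 3 ≤ L := by omega
  have : NeZero L := ⟨by omega⟩
  have hL0 : (3 : ℝ) ≤ L := by exact_mod_cast hL
  obtain ⟨x, hx⟩ : ∃ x : ℝ, x = 2 * (N : ℝ) := ⟨_, rfl⟩
  have hN3 : (3 : ℝ) ≤ N := by exact_mod_cast hN
  have hx6 : (6 : ℝ) ≤ x := by rw [hx]; linarith
  have hx0 : (0 : ℝ) < x := by linarith
  have hLc : (((L + 1 : ℕ) : ℝ) - 1) = L := by push_cast; ring
  rw [hLc, ← hx]
  have hLsq : (1 : ℝ) ≤ (L : ℝ) ^ 2 := one_le_pow₀ (by linarith)
  rcases lt_or_ge N L with hNL | hLN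
  · have h1 := UGP.big N r hN (L + 1) (by omega) f lam H
    have h2 : 1 / ((L : ℝ) ^ 2 * x ^ 80) ≤ 4 / (L : ℝ) ^ 2 := by
      rw [div_le_div_iff₀ (by positivity) (by positivity)]
      have : (1 : ℝ) ≤ x ^ 80 := one_le_pow₀ (by linarith)
      nlinarith [sq_nonneg (L : ℝ)]
    linarith
  · have hN2 : (N : ℝ) = x / 2 := by rw [hx]; ring
    have hm : ((N : ℝ) + 1) ≤ 2 / 3 * x := by rw [hN2]; linarith
    have hm0 : (0 : ℝ) ≤ (N : ℝ) + 1 := by positivity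
    have hδ : (2 : ℝ) / (2 / x ^ 3) = x ^ 3 := by field_simp
    have hcore := GAP.core hc hd he hb hg L N N hL hLN (2 / x ^ 3) (1 / x ^ 26)
      (by positivity)
      (by
        rw [div_le_one (by positivity)]
        nlinarith [pow_le_pow_left₀ (by norm_num) hx6 3])
      (by positivity)
      (by
        have h5 : ((N : ℝ) + 1) ^ 2 ≤ (2 / 3 * x) ^ 2 := pow_le_pow_left₀ hm0 hm 2
        calc 2 / x ^ 3 * ((N : ℝ) + 1) ^ 2 * (2 * (N : ℝ)) ≤ 2 / x ^ 3 * (2 / 3 * x) ^ 2 * (2 * (N : ℝ)) := by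
              gcongr
          _ = 2 / x ^ 3 * (2 / 3 * x) ^ 2 * x := by rw [← hx]
          _ = 8 / 9 := by field_simp; norm_num
          _ ≤ 1 := by norm_num)
      (by
        rw [hN2, hδ]
        have h5 : x ^ 3 * (3 / 2 * (1 / x ^ 26)) * (x / 2) = 3 / 4 / x ^ 22 := by field_simp; norm_num
        rw [h5, div_le_one (by positivity)]
        have : (1 : ℝ) ≤ x ^ 22 := one_le_pow₀ (by linarith)
        linarith)
      (by
        rw [hN2]
        have h5 : 2 * (1 / x ^ 26) * (x / 2) = 1 / x ^ 25 := by field_simp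
        rw [h5, div_le_one (by positivity)]
        exact one_le_pow₀ (by linarith))
      (by
        have h5 : (6 * ((N : ℝ) + 1)) ^ 4 ≤ (6 * (2 / 3 * x)) ^ 4 :=
          pow_le_pow_left₀ (by positivity) (by linarith) 4
        have h6 : 6 * ((N : ℝ) + 1) ^ 2 ≤ 6 * (2 / 3 * x) ^ 2 := by
          have := pow_le_pow_left₀ hm0 hm 2
          linarith
        have h7 : (6 * ((N : ℝ) + 1)) ^ 4 * (6 * ((N : ℝ) + 1) ^ 2) ≤
            (6 * (2 / 3 * x)) ^ 4 * (6 * (2 / 3 * x) ^ 2) :=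
          mul_le_mul h5 h6 (by positivity) (by positivity)
        have h8 : (6 * ((N : ℝ) + 1)) ^ 4 * (6 * ((N : ℝ) + 1) ^ 2) *
            (3 * (x / 2) ^ 4 * (x ^ 3) ^ 4 * (1 / x ^ 26) ^ 4 / 4) ≤
            (6 * (2 / 3 * x)) ^ 4 * (6 * (2 / 3 * x) ^ 2) *
            (3 * (x / 2) ^ 4 * (x ^ 3) ^ 4 * (1 / x ^ 26) ^ 4 / 4) :=
          mul_le_mul_of_nonneg_right h7 (by positivity)
        have h9 : (6 * (2 / 3 * x)) ^ 4 * (6 * (2 / 3 * x) ^ 2) *
            (3 * (x / 2) ^ 4 * (x ^ 3) ^ 4 * (1 / x ^ 26) ^ 4 / 4) = 32 * (1 / x ^ 82) := by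
          field_simp; norm_num
        have h10 : 3 / 4 * (x / 2) ^ 4 * (1 / x ^ 26) ^ 4 = 3 / 64 * (1 / x ^ 100) := by
          field_simp; norm_num
        have h11 : (1 / x ^ 26) ^ 3 / 8 = x ^ 4 / 8 * (1 / x ^ 82) := by field_simp
        have h12 : 1 / x ^ 100 ≤ 1 / x ^ 82 :=
          one_div_le_one_div_of_le (by positivity) (pow_le_pow_right₀ (by linarith) (by norm_num))
        have h13 : 0 < 1 / x ^ 82 := by positivity
        have h15 : (6 : ℝ) ^ 4 ≤ x ^ 4 := pow_le_pow_left₀ (by norm_num) hx6 4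
        have h14 : (162 : ℝ) * (1 / x ^ 82) ≤ x ^ 4 / 8 * (1 / x ^ 82) :=
          mul_le_mul_of_nonneg_right (by norm_num at h15; linarith) h13.le
        rw [hδ, h11]
        have h16 : (6 * ((N : ℝ) + 1)) ^ 4 * (6 * ((N : ℝ) + 1) ^ 2) *
            (3 * (N : ℝ) ^ 4 * (x ^ 3) ^ 4 * (1 / x ^ 26) ^ 4 / 4) ≤ 32 * (1 / x ^ 82) := by
          calc (6 * ((N : ℝ) + 1)) ^ 4 * (6 * ((N : ℝ) + 1) ^ 2) *
              (3 * (N : ℝ) ^ 4 * (x ^ 3) ^ 4 * (1 / x ^ 26) ^ 4 / 4)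
              = (6 * ((N : ℝ) + 1)) ^ 4 * (6 * ((N : ℝ) + 1) ^ 2) *
              (3 * (x / 2) ^ 4 * (x ^ 3) ^ 4 * (1 / x ^ 26) ^ 4 / 4) := by
                rw [show (N : ℝ) ^ 4 = (x / 2) ^ 4 by rw [hN2]]
            _ ≤ _ := h8
            _ = _ := h9
        have h17 : 3 / 4 * (N : ℝ) ^ 4 * (1 / x ^ 26) ^ 4 = 3 / 64 * (1 / x ^ 100) := by
          rw [show (N : ℝ) ^ 4 = (x / 2) ^ 4 by rw [hN2]]
          exact h10
        rw [h17]
        linarith)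
      (sos N r f) lam (UGP.sos_empty N r f)
      (fun β hβ0 hβ1 => UGP.cert_sos hp hg hs N r f β hβ0 hβ1) H
    have h30 : 1 / ((L : ℝ) ^ 2 * x ^ 80) ≤ (1 / x ^ 26) ^ 3 / 12 := by
      have h31 : (1 / x ^ 26) ^ 3 / 12 = x ^ 2 / 12 * (1 / x ^ 80) := by field_simp
      have h32 : 1 / ((L : ℝ) ^ 2 * x ^ 80) ≤ 1 / x ^ 80 :=
        one_div_le_one_div_of_le (by positivity) (by nlinarith [pow_pos hx0 80])
      have h33 : 0 < 1 / x ^ 80 := by positivity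
      have h34 : (1 : ℝ) ≤ x ^ 2 / 12 := by nlinarith
      rw [h31]
      nlinarith
    linarith

end Pool.Agent.T3h36.PP
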