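import Pool.Agent.T3h36.PP.Stm

/-!
# Project PP: (BADS), union bound for bad mark patterns
-/

set_option autoImplicit false
open Finset

namespace Pool.Agent.T3h36.PP

/-- the weight of a mark at the position `v`, if the marks at four positions are prescribed -/
def gq {P : Type} [DecidableEq P] (S T : ℝ) (a b c d : P) (v : P) (z : Fin 3) : ℝ :=
  if v = a ∨ v = b then (if z = 1 then S else 0)
  else if v = c ∨ v = d then (if z = 2 then T else 0) else mk S T z

lemma mk_nonneg {S T : ℝ} (hS : 0 ≤ S) (hT : 0 ≤ T) (z : Fin 3) : 0 ≤ mk S T z := by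
  unfold mk
  split_ifs <;> linarith

lemma gq_nonneg {P : Type} [DecidableEq P] {S T : ℝ} (hS : 0 ≤ S) (hT : 0 ≤ T) (a b c d : P)
    (v : P) (z : Fin 3) : 0 ≤ gq S T a b c d v z := by
  unfold gq
  split_ifs
  · exact hS
  · exact le_refl _
  · exact hT
  · exact le_refl _
  · exact mk_nonneg hS hT z

lemma sum_mk (S T : ℝ) : ∑ z : Fin 3, mk S T z = 1 + S + T := by
  rw [Fin.sum_univ_three]
  unfold mk
  simp

/-- the quadruples of different positions -/
def quads (P : Type) [Fintype P] [DecidableEq P] : Finset (P × P × P × P) :=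
  univ.filter fun q => q.1 ≠ q.2.1 ∧ q.2.2.1 ≠ q.2.2.2 ∧ q.1 ≠ q.2.2.1 ∧ q.1 ≠ q.2.2.2 ∧
    q.2.1 ≠ q.2.2.1 ∧ q.2.1 ≠ q.2.2.2

lemma sum_gq_le {P : Type} [Fintype P] [DecidableEq P] {S T : ℝ} (hS : 0 ≤ S) (hT : 0 ≤ T)
    (a b c d : P) (h1 : a ≠ b) (h2 : c ≠ d) (h3 : a ≠ c) (h4 : a ≠ d) (h5 : b ≠ c) (h6 : b ≠ d) :
    ∑ μ : P → Fin 3, ∏ v, gq S T a b c d v (μ v) ≤ S ^ 2 * T ^ 2 * (1 + S + T) ^ Fintype.card P := by
  have e1 : ∑ μ : P → Fin 3, ∏ v, gq S T a b c d v (μ v) = ∏ v : P, ∑ z : Fin 3, gq S T a b c d v z := by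
    rw [Finset.prod_univ_sum, Fintype.piFinset_univ]
  rw [e1]
  have h0 : ∀ v : P, ∑ z : Fin 3, gq S T a b c d v z ≤
      ((if v = a then S else 1) * (if v = b then S else 1) * ((if v = c then T else 1) *
        (if v = d then T else 1))) * (1 + S + T) := by
    intro v
    by_cases ha : v = a
    · subst ha
      simp only [gq, true_or, if_true, if_neg h1, if_neg h3, if_neg h4]
      simp
      nlinarith
    · by_cases hb : v = b
      · subst hb
        simp only [gq, or_true, if_true, if_neg ha, if_neg h5, if_neg h6]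
        simp
        nlinarith
      · by_cases hc : v = c
        · subst hc
          simp only [gq, ha, hb, or_self, if_false, true_or, if_true, if_neg h2]
          simp
          nlinarith
        · by_cases hd : v = d
          · subst hd
            simp only [gq, ha, hb, hc, or_self, if_false, or_true, if_true]
            simp
            nlinarith
          · simp only [gq, if_neg ha, if_neg hb, if_neg hc, if_neg hd, or_self, if_false, ha, hb, hc, hd]
            rw [sum_mk]
            simp
  refine (Finset.prod_le_prod (fun v _ => Finset.sum_nonneg fun z _ => gq_nonneg hS hT a b c d v z)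
    (fun v _ => h0 v)).trans ?_
  rw [Finset.prod_mul_distrib, Finset.prod_mul_distrib, Finset.prod_mul_distrib,
    Finset.prod_mul_distrib, Finset.prod_ite_eq' , Finset.prod_ite_eq', Finset.prod_ite_eq',
    Finset.prod_ite_eq', Finset.prod_const, Finset.card_univ]
  simp only [Finset.mem_univ, if_true]
  apply le_of_eq
  ring

theorem t_BADS : S_BADS := by
  intro P _ _ S T hS hT
  unfold bads
  have hterm : ∀ μ : P → Fin 3, (if Good μ then 0 else MW S T μ) ≤
      ∑ q ∈ quads P, ∏ v, gq S T q.1 q.2.1 q.2.2.1 q.2.2.2 v (μ v) := by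
    intro μ
    have hn : ∀ q ∈ quads P, 0 ≤ ∏ v, gq S T q.1 q.2.1 q.2.2.1 q.2.2.2 v (μ v) :=
      fun q _ => Finset.prod_nonneg fun v _ => gq_nonneg hS hT _ _ _ _ _ _
    split_ifs with hG
    · exact Finset.sum_nonneg hn
    · unfold Good at hG
      push Not at hG
      obtain ⟨g1, g2⟩ := hG
      unfold nm at g1 g2
      obtain ⟨a, ha, b, hb, hab⟩ := Finset.one_lt_card.mp g1
      obtain ⟨c, hc, d, hd, hcd⟩ := Finset.one_lt_card.mp g2
      simp only [Finset.mem_filter, Finset.mem_univ, true_and] at ha hb hc hd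
      have k1 : a ≠ c := by rintro rfl; rw [ha] at hc; exact absurd hc (by decide)
      have k2 : a ≠ d := by rintro rfl; rw [ha] at hd; exact absurd hd (by decide)
      have k3 : b ≠ c := by rintro rfl; rw [hb] at hc; exact absurd hc (by decide)
      have k4 : b ≠ d := by rintro rfl; rw [hb] at hd; exact absurd hd (by decide)
      have hmem : (a, b, c, d) ∈ quads P := by
        unfold quads
        simp only [Finset.mem_filter, Finset.mem_univ, true_and]
        exact ⟨hab, hcd, k1, k2, k3, k4⟩
      have h1 := Finset.single_le_sum hn hmem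
      refine le_trans (le_of_eq ?_) h1
      unfold MW
      apply Finset.prod_congr rfl
      intro v _
      simp only [gq]
      split_ifs with h1 h2 h3 h4
      · rcases h1 with rfl | rfl <;> simp [mk, h2]
      · rcases h1 with rfl | rfl
        · exact absurd ha h2
        · exact absurd hb h2
      · rcases h3 with rfl | rfl <;> simp [mk, h4]
      · rcases h3 with rfl | rfl
        · exact absurd hc h4
        · exact absurd hd h4
      · rfl
  refine (Finset.sum_le_sum fun μ _ => hterm μ).trans ?_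
  rw [Finset.sum_comm]
  have h2 : ∀ q ∈ quads P, ∑ μ : P → Fin 3, ∏ v, gq S T q.1 q.2.1 q.2.2.1 q.2.2.2 v (μ v) ≤
      S ^ 2 * T ^ 2 * (1 + S + T) ^ Fintype.card P := by
    intro q hq
    unfold quads at hq
    simp only [Finset.mem_filter, Finset.mem_univ, true_and] at hq
    obtain ⟨h1, h2, h3, h4, h5, h6⟩ := hq
    exact sum_gq_le hS hT _ _ _ _ h1 h2 h3 h4 h5 h6
  refine (Finset.sum_le_card_nsmul _ _ _ h2).trans ?_
  rw [nsmul_eq_mul]
  have h3 : ((quads P).card : ℝ) ≤ (Fintype.card P : ℝ) ^ 4 := by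
    have : (quads P).card ≤ Fintype.card (P × P × P × P) := Finset.card_le_univ _
    rw [Fintype.card_prod, Fintype.card_prod, Fintype.card_prod] at this
    calc ((quads P).card : ℝ) ≤ ((Fintype.card P * (Fintype.card P * (Fintype.card P * Fintype.card P)) : ℕ) : ℝ) := by
          exact_mod_cast this
      _ = (Fintype.card P : ℝ) ^ 4 := by push_cast; ring
  have h4 : 0 ≤ S ^ 2 * T ^ 2 * (1 + S + T) ^ Fintype.card P := by positivity
  calc ((quads P).card : ℝ) * (S ^ 2 * T ^ 2 * (1 + S + T) ^ Fintype.card P)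
      ≤ (Fintype.card P : ℝ) ^ 4 * (S ^ 2 * T ^ 2 * (1 + S + T) ^ Fintype.card P) :=
        mul_le_mul_of_nonneg_right h3 h4
    _ = _ := by ring

end Pool.Agent.T3h36.PP
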