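import Pool.Agent.T3h36.PP.Stm

set_option autoImplicit false
open Finset
open Pool.Agent.T2h36 Pool.Agent.T2h36.Uni

namespace Pool.Agent.T3h36.PP

/-- averages do not change under permutations of the sample vertices -/
theorem CAN.avg_perm {A V : Type} [Fintype A] [DecidableEq A] [Fintype V] [DecidableEq V]
    (π : Equiv.Perm A) (g : Finset (Finset A) → ℝ) (H : Finset (Finset V)) :
    avg (fun G => g (pull π.toEmbedding G)) H = avg g H := by
  unfold avg
  congr 1
  refine Finset.sum_bij' (fun θ _ => π.toEmbedding.trans θ) (fun θ _ => π.symm.toEmbedding.trans θ)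
    (fun _ _ => mem_univ _) (fun _ _ => mem_univ _) ?_ ?_ ?_
  · intro θ _
    ext x
    simp
  · intro θ _
    ext x
    simp
  · intro θ _
    show g (pull π.toEmbedding (pull θ H)) = _
    rw [pull_pull]

theorem t_CAN : S_CAN := by
  classical
  intro k m a ha
  let J : Finset (Fin m) := univ.filter fun i => ∃ i', a (Sum.inr i') = Sum.inr (Sum.inl i)
  refine ⟨J, fun f hf V _ _ H => ?_⟩
  have hJ : ∀ i, i ∈ J ↔ ∃ i', a (Sum.inr i') = Sum.inr (Sum.inl i) := by
    intro i
    simp [J]
  choose h hh using fun i : {i // i ∈ J} => (hJ i.1).1 i.2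
  have hinj : Function.Injective h := by
    intro i j hij
    have h1 := hh i
    rw [hij, hh j] at h1
    have h2 : (j : Fin m) = i := by simpa using h1
    exact Subtype.ext h2.symm
  obtain ⟨σ, hσ⟩ := exists_perm (⟨fun i : {i // i ∈ J} => (i : Fin m), Subtype.val_injective⟩ :
    {i // i ∈ J} ↪ Fin m) ⟨h, hinj⟩
  have hσ' : ∀ i ∈ J, a (Sum.inr (σ i)) = Sum.inr (Sum.inl i) := by
    intro i hi
    have h1 := hσ ⟨i, hi⟩
    simp only [Function.Embedding.coeFn_mk] at h1
    rw [h1, hh]
  -- the two embeddings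
  let E0 : (Fin k ⊕ Fin m) ⊕ {i // i ∉ J} → Fin k ⊕ (Fin m ⊕ Fin m) :=
    Sum.elim (left k m) (fun i => Sum.inr (Sum.inr i.1))
  let E1 : (Fin k ⊕ Fin m) ⊕ {i // i ∉ J} → Fin k ⊕ (Fin m ⊕ Fin m) :=
    Sum.elim (left k m) (fun i => a (Sum.inr (σ i.1)))
  have l1 : ∀ j, left k m (Sum.inl j) = Sum.inl j := fun j => rfl
  have l2 : ∀ j, left k m (Sum.inr j) = Sum.inr (Sum.inl j) := fun j => rfl
  have n0 : ∀ x (i : Fin m), left k m x ≠ Sum.inr (Sum.inr i) := by
    intro x i
    rcases x with x | x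
    · rw [l1]; simp
    · rw [l2]; simp
  have n1 : ∀ x (i : {i // i ∉ J}), left k m x ≠ a (Sum.inr (σ i.1)) := by
    intro x i h1
    rcases x with x | x
    · rw [l1, ← ha] at h1
      simpa using a.injective h1
    · rw [l2] at h1
      have hx : x ∈ J := (hJ x).2 ⟨_, h1.symm⟩
      rw [← hσ' x hx] at h1
      have h2 : x = i.1 := by simpa using a.injective h1
      exact i.2 (h2 ▸ hx)
  have i0 : Function.Injective E0 := by
    intro u v h1
    rcases u with u | u <;> rcases v with v | v <;> simp only [E0, Sum.elim_inl, Sum.elim_inr] at h1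
    · rw [(left k m).injective h1]
    · exact absurd h1 (n0 _ _)
    · exact absurd h1.symm (n0 _ _)
    · have h2 : u.1 = v.1 := by simpa using h1
      rw [Subtype.ext h2]
  have i1 : Function.Injective E1 := by
    intro u v h1
    rcases u with u | u <;> rcases v with v | v <;> simp only [E1, Sum.elim_inl, Sum.elim_inr] at h1
    · rw [(left k m).injective h1]
    · exact absurd h1 (n1 _ _)
    · exact absurd h1.symm (n1 _ _)
    · have h2 : u.1 = v.1 := by simpa using a.injective h1
      rw [Subtype.ext h2]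
  obtain ⟨π, hπ⟩ := exists_perm (⟨E0, i0⟩ : _ ↪ Fin k ⊕ (Fin m ⊕ Fin m)) ⟨E1, i1⟩
  have p1 : ∀ x, π (left k m x) = left k m x := fun x => hπ (Sum.inl x)
  have p2 : ∀ i, i ∉ J → π (Sum.inr (Sum.inr i)) = a (Sum.inr (σ i)) := fun i hi =>
    hπ (Sum.inr ⟨i, hi⟩)
  have e1 : (left k m).trans π.toEmbedding = left k m := by
    ext1 x
    simp [p1]
  have e2 : (aJ k m J).trans π.toEmbedding = (freePerm k σ).trans a := by
    ext1 x
    rcases x with x | x
    · show π (Sum.inl x) = a (Sum.inl x)
      rw [ha, ← l1, p1]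
    · show π (if x ∈ J then Sum.inr (Sum.inl x) else Sum.inr (Sum.inr x)) = a (Sum.inr (σ x))
      by_cases hx : x ∈ J
      · rw [if_pos hx, hσ' x hx, ← l2, p1]
      · rw [if_neg hx, p2 x hx]
  have key : ∀ G : Finset (Finset (Fin k ⊕ (Fin m ⊕ Fin m))),
      f (pull (left k m) G) * f (pull a G) =
      f (pull (left k m) (pull π.toEmbedding G)) * f (pull (aJ k m J) (pull π.toEmbedding G)) := by
    intro G
    rw [pull_pull, pull_pull, e1, e2, ← pull_pull, hf]
  have h5 := CAN.avg_perm (V := V) π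
    (fun G' => f (pull (left k m) G') * f (pull (aJ k m J) G')) H
  rw [← h5]
  congr 1
  funext G
  exact key G

end Pool.Agent.T3h36.PP
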