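import Pool.Agent.T3h36.PP.Stm

/-! Project PP, (CLIQ): the cyclic construction and the reduced modified construction have no cliques of `L + 1` vertices. -/

set_option autoImplicit false
set_option linter.unusedSectionVars false
open Finset
open Pool.Agent.T2h36 Pool.Agent.T2h36.Uni

namespace Pool.Agent.T3h36.PP

namespace CLQ

theorem z10 {L : ℕ} (hL : 3 ≤ L) : (1 : ZMod L) ≠ 0 := by
  intro h
  have h1 : ((1 : ℕ) : ZMod L) = 0 := by simpa using h
  rw [ZMod.natCast_eq_zero_iff] at h1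
  have := Nat.le_of_dvd one_pos h1
  omega

theorem z20 {L : ℕ} (hL : 3 ≤ L) : (2 : ZMod L) ≠ 0 := by
  intro h
  have h1 : ((2 : ℕ) : ZMod L) = 0 := by simpa using h
  rw [ZMod.natCast_eq_zero_iff] at h1
  have := Nat.le_of_dvd two_pos h1
  omega

theorem n1 {L : ℕ} (hL : 3 ≤ L) (i : ZMod L) : i + 1 ≠ i := fun h => z10 hL (by simpa using h)

/-- the cyclic counting argument -/
theorem cyc {L : ℕ} [NeZero L] (p : ZMod L → ℕ) (F1 : ∀ i, p i ≤ 3)
    (F2 : ∀ i, p i = 3 → p (i + 1) = 0 ∧ p (i + 2) = 0)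
    (F3 : ∀ i, p i = 2 → p (i + 1) = 0 ∨ (p (i + 1) ≤ 1 ∧ p (i + 2) = 0)) : ∑ i, p i ≤ L := by
  set D : ZMod L → ℕ := fun i => if p i = 3 then 2 else if p i = 2 then 1 else
    if p i = 1 then (if p (i - 1) = 2 then 1 else 0) else (if p (i - 1) = 3 then 1 else 0) with hD
  have key : ∀ i, p i + D (i - 1) ≤ 1 + D i := by
    intro i
    have a1 := F1 i
    have a2 := F1 (i - 1)
    have a3 := F2 (i - 1)
    have a4 := F3 (i - 1)
    have a5 := F2 (i - 1 - 1)
    have a6 := F3 (i - 1 - 1)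
    have e1 : i - 1 + 1 = i := by ring
    have e2 : i - 1 - 1 + 1 = i - 1 := by ring
    have e3 : i - 1 - 1 + 2 = i := by ring
    rw [e1] at a3 a4
    rw [e2, e3] at a5 a6
    simp only [hD]
    split_ifs <;> omega
  have h1 : ∑ i, (p i + D (i - 1)) ≤ ∑ i, (1 + D i) := Finset.sum_le_sum fun i _ => key i
  rw [Finset.sum_add_distrib, Finset.sum_add_distrib, Finset.sum_const, card_univ, ZMod.card, smul_eq_mul,
    mul_one] at h1
  have h2 : ∑ i : ZMod L, D (i - 1) = ∑ i : ZMod L, D i :=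
    Equiv.sum_comp (Equiv.subRight (1 : ZMod L)) D
  omega

section
variable {L : ℕ} {V : Type} [DecidableEq V]

theorem le_two (W : Finset V) (G : V → ZMod L) (i : ZMod L)
    (h : ∀ a ∈ W, ∀ b ∈ W, ∀ c ∈ W, a ≠ b → a ≠ c → b ≠ c → G a = i → G b = i → G c = i → False) :
    (W.filter fun v => G v = i).card ≤ 2 := by
  by_contra hc
  push Not at hc
  obtain ⟨a, ha, b, hb, c, hc', hab, hac, hbc⟩ := Finset.two_lt_card.mp hc
  rw [mem_filter] at ha hb hc'
  exact h a ha.1 b hb.1 c hc'.1 hab hac hbc ha.2 hb.2 hc'.2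

theorem next_zero (hL : 3 ≤ L) (W : Finset V) (G : V → ZMod L) (i : ZMod L)
    (h : ∀ a ∈ W, ∀ b ∈ W, ∀ c ∈ W, a ≠ b → a ≠ c → b ≠ c → G a = i → G b = i → G c = i + 1 → False)
    (h2 : 2 ≤ (W.filter fun v => G v = i).card) : (W.filter fun v => G v = i + 1).card = 0 := by
  by_contra hne
  obtain ⟨c, hc⟩ := Finset.card_pos.mp (Nat.pos_of_ne_zero hne)
  obtain ⟨a, ha, b, hb, hab⟩ := Finset.one_lt_card.mp h2
  rw [mem_filter] at ha hb hc
  have h1 : ∀ x, G x = i → x ≠ c := fun x hx e => n1 hL i (by rw [← hc.2, ← e, hx])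
  exact h a ha.1 b hb.1 c hc.1 hab (h1 a ha.2) (h1 b hb.2) ha.2 hb.2 hc.2

/-- the cyclic construction has no clique of `L + 1` vertices -/
theorem base (hL : 3 ≤ L) (W : Finset V) (ℓ : V → Fin 3 × ZMod L)
    (h : ∀ a ∈ W, ∀ b ∈ W, ∀ c ∈ W, a ≠ b → a ≠ c → b ≠ c → rT (ℓ a) (ℓ b) (ℓ c)) : W.card ≤ L := by
  have : NeZero L := ⟨by omega⟩
  have F1 : ∀ i, (W.filter fun v => part (ℓ v) = i).card ≤ 2 := by
    intro i
    refine le_two W (fun v => part (ℓ v)) i fun a ha b hb c hc hab hac hbc ea eb ec => ?_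
    exact h a ha b hb c hc hab hac hbc (Or.inl ⟨ea.trans eb.symm, eb.trans ec.symm⟩)
  have F2 : ∀ i, 2 ≤ (W.filter fun v => part (ℓ v) = i).card →
      (W.filter fun v => part (ℓ v) = i + 1).card = 0 := by
    intro i
    refine next_zero hL W (fun v => part (ℓ v)) i fun a ha b hb c hc hab hac hbc ea eb ec => ?_
    exact h a ha b hb c hc hab hac hbc (Or.inr (Or.inl ⟨ea.trans eb.symm, by
      show part (ℓ c) = part (ℓ a) + 1
      rw [show part (ℓ a) = i from ea]
      exact ec⟩))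
  have hsum : W.card = ∑ i, (W.filter fun v => part (ℓ v) = i).card :=
    Finset.card_eq_sum_card_fiberwise (fun x _ => mem_univ _)
  rw [hsum]
  refine cyc _ (fun i => (F1 i).trans (by norm_num)) (fun i hi => ?_) (fun i hi => ?_)
  · have := F1 i
    omega
  · exact Or.inl (F2 i (by omega))

/-- the reduced modified construction has no clique of `L + 1` vertices -/
theorem modi (hL : 3 ≤ L) (W : Finset V) (ℓ : V → Fin 3 × ZMod L)
    (h : ∀ a ∈ W, ∀ b ∈ W, ∀ c ∈ W, a ≠ b → a ≠ c → b ≠ c → rR (ℓ a) (ℓ b) (ℓ c)) : W.card ≤ L := by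
  have : NeZero L := ⟨by omega⟩
  by_contra hcard
  push Not at hcard
  -- at most one vertex marked 2
  have hm2 : ∀ a ∈ W, ∀ b ∈ W, a ≠ b → (ℓ a).1 = 2 → (ℓ b).1 = 2 → False := by
    intro a ha b hb hab ea eb
    have h1 : 0 < ((W.erase a).erase b).card := by
      rw [card_erase_of_mem (mem_erase.2 ⟨hab.symm, hb⟩), card_erase_of_mem ha]
      omega
    obtain ⟨c, hc⟩ := Finset.card_pos.mp h1
    rw [mem_erase, mem_erase] at hc
    exact (h a ha b hb c hc.2.2 hab hc.2.1.symm hc.1.symm).2.1 ⟨ea, eb⟩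
  -- triples with at most one vertex marked 1
  have hT : ∀ a ∈ W, ∀ b ∈ W, ∀ c ∈ W, a ≠ b → a ≠ c → b ≠ c →
      ¬ ((ℓ a).1 = 1 ∧ (ℓ b).1 = 1) → ¬ ((ℓ a).1 = 1 ∧ (ℓ c).1 = 1) →
      ¬ ((ℓ b).1 = 1 ∧ (ℓ c).1 = 1) → rT (ℓ a) (ℓ b) (ℓ c) := by
    intro a ha b hb c hc hab hac hbc k1 k2 k3
    rcases (h a ha b hb c hc hab hac hbc).1 with g | g | g | g
    · exact absurd ⟨g.1, g.2.1⟩ k1
    · exact absurd ⟨g.1, g.2.1⟩ k2
    · exact absurd ⟨g.1, g.2.1⟩ k3
    · exact g.2.2.2
  by_cases h1 : ∃ u ∈ W, ∃ v ∈ W, u ≠ v ∧ (ℓ u).1 = 1 ∧ (ℓ v).1 = 1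
  swap
  · push Not at h1
    refine absurd (base hL W ℓ fun a ha b hb c hc hab hac hbc => ?_) (by omega)
    exact hT a ha b hb c hc hab hac hbc (fun k => h1 a ha b hb hab k.1 k.2)
      (fun k => h1 a ha c hc hac k.1 k.2) (fun k => h1 b hb c hc hbc k.1 k.2)
  obtain ⟨u, hu, v, hv, huv, eu, ev⟩ := h1
  have hthr : ∀ w ∈ W, w ≠ u → w ≠ v → thr (ℓ w) := by
    intro w hw hwu hwv
    rcases (h u hu v hv w hw huv hwu.symm hwv.symm).1 with g | g | g | g
    · exact g.2.2
    · exact absurd ev g.2.2.1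
    · exact absurd eu g.2.2.1
    · exact absurd ⟨eu, ev⟩ g.1
  have hpu : ∀ w : V, (ℓ w).1 = 1 → part (ℓ w) = 0 := by
    intro w hw
    unfold part
    rw [if_neg (by rw [hw]; decide), if_pos hw]
  have h1uv : ∀ w ∈ W, (ℓ w).1 = 1 → w = u ∨ w = v := by
    intro w hw e
    by_contra hne
    push Not at hne
    exact (hthr w hw hne.1 hne.2).1 e
  -- no part 2
  have P2 : (W.filter fun v => part (ℓ v) = 2).card = 0 := by
    rw [Finset.card_eq_zero, Finset.filter_eq_empty_iff]
    intro w hw e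
    by_cases hwu : w = u
    · rw [hwu, hpu u eu] at e
      exact z20 hL e.symm
    by_cases hwv : w = v
    · rw [hwv, hpu v ev] at e
      exact z20 hL e.symm
    exact (hthr w hw hwu hwv).2.1 e
  have hne1 : ∀ w : V, part (ℓ w) ≠ 0 → (ℓ w).1 ≠ 1 := fun w hw e => hw (hpu w e)
  -- part 1
  have P1 : (W.filter fun v => part (ℓ v) = 1).card ≤ 1 := by
    by_contra hc
    push Not at hc
    obtain ⟨a, ha, b, hb, hab⟩ := Finset.one_lt_card.mp hc
    rw [mem_filter] at ha hb
    have k : ∀ w ∈ W, part (ℓ w) = 1 → (ℓ w).1 = 2 := by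
      intro w hw e
      have k1 := hne1 w (by rw [e]; exact z10 hL)
      exact (hthr w hw (fun e' => k1 (by rw [e', eu])) (fun e' => k1 (by rw [e', ev]))).2.2 e
    exact hm2 a ha.1 b hb.1 hab (k a ha.1 ha.2) (k b hb.1 hb.2)
  -- other parts
  have F1 : ∀ i, i ≠ 0 → (W.filter fun v => part (ℓ v) = i).card ≤ 2 := by
    intro i hi
    refine le_two W (fun v => part (ℓ v)) i fun a ha b hb c hc hab hac hbc ea eb ec => ?_
    have na := hne1 a (by rw [show part (ℓ a) = i from ea]; exact hi)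
    have nb := hne1 b (by rw [show part (ℓ b) = i from eb]; exact hi)
    exact hT a ha b hb c hc hab hac hbc (fun k => na k.1) (fun k => na k.1) (fun k => nb k.1)
      (Or.inl ⟨ea.trans eb.symm, eb.trans ec.symm⟩)
  have F2 : ∀ i, i ≠ 0 → 2 ≤ (W.filter fun v => part (ℓ v) = i).card →
      (W.filter fun v => part (ℓ v) = i + 1).card = 0 := by
    intro i hi
    refine next_zero hL W (fun v => part (ℓ v)) i fun a ha b hb c hc hab hac hbc ea eb ec => ?_
    have na := hne1 a (by rw [show part (ℓ a) = i from ea]; exact hi)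
    have nb := hne1 b (by rw [show part (ℓ b) = i from eb]; exact hi)
    exact hT a ha b hb c hc hab hac hbc (fun k => na k.1) (fun k => na k.1) (fun k => nb k.1)
      (Or.inr (Or.inl ⟨ea.trans eb.symm, by
        show part (ℓ c) = part (ℓ a) + 1
        rw [show part (ℓ a) = i from ea]
        exact ec⟩))
  -- part 0
  have hu0 : u ∈ W.filter fun v => part (ℓ v) = 0 := mem_filter.2 ⟨hu, hpu u eu⟩
  have hv0 : v ∈ W.filter fun v => part (ℓ v) = 0 := mem_filter.2 ⟨hv, hpu v ev⟩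
  have hE : (((W.filter fun v => part (ℓ v) = 0).erase u).erase v).card + 2 =
      (W.filter fun v => part (ℓ v) = 0).card := by
    have k1 := card_erase_of_mem hu0
    have k2 := card_erase_of_mem (mem_erase.2 ⟨huv.symm, hv0⟩)
    have k3 : 0 < ((W.filter fun v => part (ℓ v) = 0).erase u).card :=
      Finset.card_pos.2 ⟨v, mem_erase.2 ⟨huv.symm, hv0⟩⟩
    omega
  have F0 : (W.filter fun v => part (ℓ v) = 0).card ≤ 3 := by
    by_contra hc
    push Not at hc
    obtain ⟨a, ha, b, hb, hab⟩ := Finset.one_lt_card.mp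
      (show 1 < (((W.filter fun v => part (ℓ v) = 0).erase u).erase v).card by omega)
    rw [mem_erase, mem_erase, mem_filter] at ha hb
    have na := (hthr a ha.2.2.1 ha.2.1 ha.1).1
    have nb := (hthr b hb.2.2.1 hb.2.1 hb.1).1
    exact hT u hu a ha.2.2.1 b hb.2.2.1 ha.2.1.symm hb.2.1.symm hab (fun k => na k.2)
      (fun k => nb k.2) (fun k => na k.1)
      (Or.inl ⟨(hpu u eu).trans ha.2.2.2.symm, ha.2.2.2.trans hb.2.2.2.symm⟩)
  have F01 : (W.filter fun v => part (ℓ v) = 0).card = 3 →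
      (W.filter fun v => part (ℓ v) = 1).card = 0 := by
    intro h3
    by_contra hne
    obtain ⟨c, hc⟩ := Finset.card_pos.mp (Nat.pos_of_ne_zero hne)
    obtain ⟨a, ha⟩ := Finset.card_pos.mp
      (show 0 < (((W.filter fun v => part (ℓ v) = 0).erase u).erase v).card by omega)
    rw [mem_erase, mem_erase, mem_filter] at ha
    rw [mem_filter] at hc
    have na := (hthr a ha.2.2.1 ha.2.1 ha.1).1
    have nc := hne1 c (by rw [hc.2]; exact z10 hL)
    have huc : u ≠ c := fun e => nc (by rw [← e, eu])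
    have hac : a ≠ c := fun e => z10 hL (by rw [← hc.2, ← e, ha.2.2.2])
    exact hT u hu a ha.2.2.1 c hc.1 ha.2.1.symm huc hac (fun k => na k.2)
      (fun k => nc k.2) (fun k => na k.1)
      (Or.inr (Or.inl ⟨(hpu u eu).trans ha.2.2.2.symm, by rw [hpu u eu, hc.2, zero_add]⟩))
  have hsum : W.card = ∑ i, (W.filter fun v => part (ℓ v) = i).card :=
    Finset.card_eq_sum_card_fiberwise (fun x _ => mem_univ _)
  have hfin : ∑ i, (W.filter fun v => part (ℓ v) = i).card ≤ L := by
    refine cyc _ (fun i => ?_) (fun i hi => ?_) (fun i hi => ?_)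
    · by_cases h0 : i = 0
      · rw [h0]
        exact F0
      · exact (F1 i h0).trans (by norm_num)
    · by_cases h0 : i = 0
      · subst h0
        rw [zero_add, zero_add]
        exact ⟨F01 hi, P2⟩
      · have := F1 i h0
        omega
    · by_cases h0 : i = 0
      · subst h0
        rw [zero_add, zero_add]
        exact Or.inr ⟨P1, P2⟩
      · exact Or.inl (F2 i h0 (by omega))
  omega

end

/-- membership of triples -/
theorem mem_triple {V A : Type} [Fintype V] [DecidableEq V] {R : A → A → A → Prop} (hR : Sym3 R)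
    (ℓ : V → A) {a b c : V} (h : ({a, b, c} : Finset V) ∈ GG R ℓ) (hab : a ≠ b) (hac : a ≠ c)
    (hbc : b ≠ c) : R (ℓ a) (ℓ b) (ℓ c) := by
  simp only [GG, mem_filter, mem_univ, true_and] at h
  obtain ⟨x, y, z, hxy, hxz, hyz, he, hRx⟩ := h
  have s1 : ∀ {p q r : A}, R p q r → R q p r := fun {p q r} k => (hR p q r).1 k
  have s2 : ∀ {p q r : A}, R p q r → R p r q := fun {p q r} k => (hR p q r).2 k
  have ha : a = x ∨ a = y ∨ a = z := by
    have : a ∈ ({x, y, z} : Finset V) := he ▸ (by simp)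
    simpa using this
  have hb : b = x ∨ b = y ∨ b = z := by
    have : b ∈ ({x, y, z} : Finset V) := he ▸ (by simp)
    simpa using this
  have hc : c = x ∨ c = y ∨ c = z := by
    have : c ∈ ({x, y, z} : Finset V) := he ▸ (by simp)
    simpa using this
  rcases ha with rfl | rfl | rfl <;> rcases hb with rfl | rfl | rfl <;>
    rcases hc with rfl | rfl | rfl <;>
    first
    | exact absurd rfl hab
    | exact absurd rfl hac
    | exact absurd rfl hbc
    | exact hRx
    | exact s2 hRx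
    | exact s1 hRx
    | exact s2 (s1 hRx)
    | exact s1 (s2 hRx)
    | exact s1 (s2 (s1 hRx))

end CLQ

theorem t_CLIQ (hg : S_GRAPH) : S_CLIQ := by
  intro L hL V _ _ ℓ
  have hs := hg.2.2.1 L hL
  constructor
  · intro S hS
    by_contra hcon
    push Not at hcon
    have h1 := CLQ.base hL S ℓ fun a ha b hb c hc hab hac hbc =>
      CLQ.mem_triple hs.1 ℓ (hcon _ (by
        intro x hx
        simp only [mem_insert, mem_singleton] at hx
        rcases hx with rfl | rfl | rfl <;> assumption)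
        (Finset.card_eq_three.mpr ⟨a, b, c, hab, hac, hbc, rfl⟩)) hab hac hbc
    omega
  · intro S hS
    by_contra hcon
    push Not at hcon
    have h1 := CLQ.modi hL S ℓ fun a ha b hb c hc hab hac hbc =>
      CLQ.mem_triple hs.2.2 ℓ (hcon _ (by
        intro x hx
        simp only [mem_insert, mem_singleton] at hx
        rcases hx with rfl | rfl | rfl <;> assumption)
        (Finset.card_eq_three.mpr ⟨a, b, c, hab, hac, hbc, rfl⟩)) hab hac hbc
    omega

end Pool.Agent.T3h36.PP
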