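import Pool.Agent.T3h36.PP.Stm

/-!
# Project PP: (CROSS), bad mark patterns and Cauchy-Schwarz
-/

set_option autoImplicit false
set_option linter.unusedSectionVars false
open Finset

namespace Pool.Agent.T3h36.PP.CrossAux

section aux
variable {P P' B : Type} [Fintype P] [DecidableEq P] [Fintype P'] [DecidableEq P'] [Fintype B]

lemma sum_labels (f : (P → Fin 3 × B) → ℝ) :
    ∑ ℓ : P → Fin 3 × B, f ℓ = ∑ μ : P → Fin 3, ∑ b : P → B, f (fun v => (μ v, b v)) := by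
  have h : ∑ μ : P → Fin 3, ∑ b : P → B, f (fun v => (μ v, b v)) =
      ∑ x : (P → Fin 3) × (P → B), f (fun v => (x.1 v, x.2 v)) :=
    (Fintype.sum_prod_type (fun x : (P → Fin 3) × (P → B) => f (fun v => (x.1 v, x.2 v)))).symm
  rw [h]
  exact Fintype.sum_equiv (Equiv.arrowProdEquivProdArrow P (fun _ => Fin 3) (fun _ => B)) _ _
    (fun ℓ => rfl)

lemma sum_arrow {Z : Type} [Fintype Z] [DecidableEq Z] (f : (P ⊕ P' → Z) → ℝ) :
    ∑ μ : P ⊕ P' → Z, f μ = ∑ a : P → Z, ∑ b : P' → Z, f (Sum.elim a b) := by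
  have h : ∑ a : P → Z, ∑ b : P' → Z, f (Sum.elim a b) =
      ∑ x : (P → Z) × (P' → Z), f (Sum.elim x.1 x.2) :=
    (Fintype.sum_prod_type (fun x : (P → Z) × (P' → Z) => f (Sum.elim x.1 x.2))).symm
  rw [h]
  refine Fintype.sum_equiv (Equiv.sumArrowEquivProdArrow P P' Z) _ _ (fun ℓ => ?_)
  congr 1
  funext v
  rcases v with v | v <;> rfl

lemma W_eq (s t : ℝ) (β : B → ℝ) (μ : P → Fin 3) (b : P → B) :
    W s t β (fun v => (μ v, b v)) = MW s t μ * BW β b := by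
  unfold W MW BW
  exact Finset.prod_mul_distrib

lemma sum_BW {β : B → ℝ} (h : ∑ p, β p = 1) : ∑ b : P → B, BW β b = 1 := by
  have e : ∑ b : P → B, BW β b = ∏ _v : P, ∑ p : B, β p := by
    rw [Finset.prod_univ_sum, Fintype.piFinset_univ]
    rfl
  rw [e, h]
  simp

lemma fac (f : (P → Fin 3 × B) → ℝ) (g : (P → Fin 3) → ℝ) :
    ∑ ℓ : P → Fin 3 × B, f ℓ * g (mks ℓ) =
      ∑ μ : P → Fin 3, (∑ b : P → B, f (fun v => (μ v, b v))) * g μ := by
  rw [sum_labels]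
  apply Finset.sum_congr rfl
  intro μ _
  rw [Finset.sum_mul]
  rfl

lemma MW_elim (s t : ℝ) (a : P → Fin 3) (b : P' → Fin 3) :
    MW s t (Sum.elim a b) = MW s t a * MW s t b := by
  unfold MW
  rw [Fintype.prod_sum_type]
  rfl

lemma MW_scale (s t Q : ℝ) (μ : P → Fin 3) : MW (Q * s) (Q * t) μ = Q ^ nz μ * MW s t μ := by
  unfold MW nz
  have h : ∀ v : P, mk (Q * s) (Q * t) (μ v) = (if μ v ≠ 0 then Q else 1) * mk s t (μ v) := by
    intro v
    unfold mk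
    by_cases h0 : μ v = 0
    · simp [h0]
    · simp only [h0, if_false, ne_eq, not_false_eq_true, if_true]
      split_ifs <;> ring
  rw [Finset.prod_congr rfl (fun v _ => h v), Finset.prod_mul_distrib, Finset.prod_ite]
  simp

lemma mk_nn {S T : ℝ} (hS : 0 ≤ S) (hT : 0 ≤ T) (z : Fin 3) : 0 ≤ mk S T z := by
  unfold mk
  split_ifs <;> linarith

lemma MW_nn {S T : ℝ} (hS : 0 ≤ S) (hT : 0 ≤ T) (μ : P → Fin 3) : 0 ≤ MW S T μ :=
  Finset.prod_nonneg fun _ _ => mk_nn hS hT _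

lemma BW_nn {β : B → ℝ} (hβ : ∀ p, 0 ≤ β p) (b : P → B) : 0 ≤ BW β b :=
  Finset.prod_nonneg fun _ _ => hβ _

lemma W_nn {S T : ℝ} (hS : 0 ≤ S) (hT : 0 ≤ T) {β : B → ℝ} (hβ : ∀ p, 0 ≤ β p)
    (ℓ : P → Fin 3 × B) : 0 ≤ W S T β ℓ :=
  Finset.prod_nonneg fun _ _ => mul_nonneg (mk_nn hS hT _) (hβ _)

lemma sum_W {β : B → ℝ} (h : ∑ p, β p = 1) (s t : ℝ) (μ : P → Fin 3) :
    ∑ b : P → B, W s t β (fun v => (μ v, b v)) = MW s t μ := by
  simp_rw [W_eq]
  rw [← Finset.mul_sum, sum_BW h, mul_one]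

end aux

section
variable {C R B : Type} [Fintype C] [DecidableEq C] [Fintype R] [DecidableEq R] [Fintype B]

lemma SS_nn {S T : ℝ} (hS : 0 ≤ S) (hT : 0 ≤ T) {β : B → ℝ} (hβ : ∀ p, 0 ≤ β p)
    (F : (C ⊕ R → Fin 3 × B) → ℝ) : 0 ≤ SS β F S T :=
  Finset.sum_nonneg fun _ _ => mul_nonneg (W_nn hS hT hβ _) (sq_nonneg _)

lemma DD_nn {β : B → ℝ} (hβ : ∀ p, 0 ≤ β p)
    (F : (C ⊕ R → Fin 3 × B) → ℝ) (ν : C ⊕ R → Fin 3) : 0 ≤ DD β F ν :=
  Finset.sum_nonneg fun _ _ => mul_nonneg (BW_nn hβ _) (sq_nonneg _)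

lemma DD_hat {β : B → ℝ} (hβ : ∀ p, 0 ≤ β p) (FT FR : (C ⊕ R → Fin 3 × B) → ℝ)
    (ν : C ⊕ R → Fin 3) : DD β (hat FT FR) ν ≤ DD β FT ν + DD β FR ν := by
  have h : ∀ (b : C → B) (b' : R → B), hat FT FR (fun v => (ν v, Sum.elim b b' v)) =
      if nm 1 ν ≤ 1 then FT (fun v => (ν v, Sum.elim b b' v)) else
        if nm 2 ν ≤ 1 then FR (fun v => (ν v, Sum.elim b b' v)) else 0 := fun _ _ => rfl
  have h1 := DD_nn hβ FT ν
  have h2 := DD_nn hβ FR ν
  by_cases c1 : nm 1 ν ≤ 1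
  · have e : DD β (hat FT FR) ν = DD β FT ν := by
      unfold DD
      simp_rw [h, if_pos c1]
    rw [e]
    linarith
  · by_cases c2 : nm 2 ν ≤ 1
    · have e : DD β (hat FT FR) ν = DD β FR ν := by
        unfold DD
        simp_rw [h, if_neg c1, if_pos c2]
      rw [e]
      linarith
    · have e : DD β (hat FT FR) ν = 0 := by
        unfold DD
        simp_rw [h, if_neg c1, if_neg c2]
        simp
      rw [e]
      linarith

/-- the average over the parts of the further positions -/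
def AA (β : B → ℝ) (H : (C ⊕ R → Fin 3 × B) → ℝ) (μ : C → Fin 3) (ρ : R → Fin 3) (b : C → B) : ℝ :=
  ∑ b' : R → B, BW β b' * H (fun v => (Sum.elim μ ρ v, Sum.elim b b' v))

/-- the indicator of the bad patterns -/
def bad {n : ℕ} (μ : C → Fin 3) (ρ ρ' : R → Fin 3) (κ : Fin n → Fin 3) : ℝ :=
  if Good (Sum.elim μ (Sum.elim ρ (Sum.elim ρ' κ))) then 0 else 1

lemma bad_nn {n : ℕ} (μ : C → Fin 3) (ρ ρ' : R → Fin 3) (κ : Fin n → Fin 3) : 0 ≤ bad μ ρ ρ' κ := by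
  unfold bad
  split_ifs <;> norm_num

lemma mks_elim {P P' : Type} (a : P → Fin 3 × B) (b : P' → Fin 3 × B) :
    mks (Sum.elim a b) = Sum.elim (mks a) (mks b) := by
  funext v
  rcases v with v | v <;> rfl

lemma elim_label (μ : C → Fin 3) (ρ : R → Fin 3) (b : C → B) (b' : R → B) :
    (Sum.elim (fun v => (μ v, b v)) (fun v => (ρ v, b' v)) : C ⊕ R → Fin 3 × B) =
      fun v => (Sum.elim μ ρ v, Sum.elim b b' v) := by
  funext v
  rcases v with v | v <;> rfl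

lemma sum_AA (s t : ℝ) (β : B → ℝ) (H : (C ⊕ R → Fin 3 × B) → ℝ) (μ : C → Fin 3) (ρ : R → Fin 3)
    (b : C → B) :
    ∑ b' : R → B, W s t β (fun v => (ρ v, b' v)) *
      H (Sum.elim (fun v => (μ v, b v)) (fun v => (ρ v, b' v))) = MW s t ρ * AA β H μ ρ b := by
  unfold AA
  rw [Finset.mul_sum]
  apply Finset.sum_congr rfl
  intro b' _
  rw [W_eq, elim_label]
  ring

lemma bads_eq (n : ℕ) (S T : ℝ) : bads (C ⊕ (R ⊕ (R ⊕ Fin n))) S T =
    ∑ μ : C → Fin 3, ∑ ρ : R → Fin 3, ∑ ρ' : R → Fin 3, ∑ κ : Fin n → Fin 3,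
      MW S T μ * (MW S T ρ * (MW S T ρ' * (MW S T κ * bad μ ρ ρ' κ))) := by
  unfold bads
  rw [sum_arrow]
  apply Finset.sum_congr rfl
  intro μ _
  rw [sum_arrow]
  apply Finset.sum_congr rfl
  intro ρ _
  rw [sum_arrow]
  apply Finset.sum_congr rfl
  intro ρ' _
  apply Finset.sum_congr rfl
  intro κ _
  unfold bad
  split_ifs
  · ring
  · rw [MW_elim, MW_elim, MW_elim]
    ring

/-- the sum over the bad labels, in terms of the marks -/
lemma bad_sum (n : ℕ) {β : B → ℝ} (h1 : ∑ p, β p = 1) (s t : ℝ) (H : (C ⊕ R → Fin 3 × B) → ℝ) :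
    (∑ c : C → Fin 3 × B, ∑ r : R → Fin 3 × B, ∑ r' : R → Fin 3 × B, ∑ o : Fin n → Fin 3 × B,
      if Good (mks (Sum.elim c (Sum.elim r (Sum.elim r' o)))) then 0 else
        W s t β c * W s t β r * W s t β r' * W s t β o *
          (H (Sum.elim c r) * H (Sum.elim c r'))) =
    ∑ μ : C → Fin 3, ∑ ρ : R → Fin 3, ∑ ρ' : R → Fin 3,
      MW s t μ * (MW s t ρ * (MW s t ρ' * (∑ κ : Fin n → Fin 3, MW s t κ * bad μ ρ ρ' κ))) *
        ∑ b : C → B, BW β b * (AA β H μ ρ b * AA β H μ ρ' b) := by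
  have step1 : ∀ c : C → Fin 3 × B, (∑ r : R → Fin 3 × B, ∑ r' : R → Fin 3 × B,
      ∑ o : Fin n → Fin 3 × B,
      if Good (mks (Sum.elim c (Sum.elim r (Sum.elim r' o)))) then 0 else
        W s t β c * W s t β r * W s t β r' * W s t β o *
          (H (Sum.elim c r) * H (Sum.elim c r'))) =
      W s t β c * ∑ r : R → Fin 3 × B, (W s t β r * H (Sum.elim c r)) *
        (∑ r' : R → Fin 3 × B, (W s t β r' * H (Sum.elim c r')) *
          (∑ o : Fin n → Fin 3 × B, W s t β o * bad (mks c) (mks r) (mks r') (mks o))) := by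
    intro c
    rw [Finset.mul_sum]
    apply Finset.sum_congr rfl
    intro r _
    rw [Finset.mul_sum, Finset.mul_sum]
    apply Finset.sum_congr rfl
    intro r' _
    rw [Finset.mul_sum, Finset.mul_sum, Finset.mul_sum]
    apply Finset.sum_congr rfl
    intro o _
    unfold bad
    rw [mks_elim, mks_elim, mks_elim]
    split_ifs <;> ring
  rw [Finset.sum_congr rfl (fun c _ => step1 c)]
  have step2 : ∀ (c : C → Fin 3 × B) (r r' : R → Fin 3 × B),
      (∑ o : Fin n → Fin 3 × B, W s t β o * bad (mks c) (mks r) (mks r') (mks o)) =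
      ∑ κ : Fin n → Fin 3, MW s t κ * bad (mks c) (mks r) (mks r') κ := by
    intro c r r'
    rw [fac (fun o => W s t β o) (fun κ => bad (mks c) (mks r) (mks r') κ)]
    apply Finset.sum_congr rfl
    intro κ _
    rw [sum_W h1]
  simp_rw [step2]
  rw [sum_labels]
  apply Finset.sum_congr rfl
  intro μ _
  have step3 : ∀ b : C → B, (W s t β (fun v => (μ v, b v)) *
      ∑ r : R → Fin 3 × B, (W s t β r * H (Sum.elim (fun v => (μ v, b v)) r)) *
        (∑ r' : R → Fin 3 × B, (W s t β r' * H (Sum.elim (fun v => (μ v, b v)) r')) *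
          (∑ κ : Fin n → Fin 3, MW s t κ * bad (mks (fun v => (μ v, b v))) (mks r) (mks r') κ))) =
      ∑ ρ : R → Fin 3, ∑ ρ' : R → Fin 3,
        MW s t μ * (MW s t ρ * (MW s t ρ' * (∑ κ : Fin n → Fin 3, MW s t κ * bad μ ρ ρ' κ))) *
          (BW β b * (AA β H μ ρ b * AA β H μ ρ' b)) := by
    intro b
    have hm : mks (fun v => (μ v, b v)) = μ := rfl
    rw [hm]
    have e1 : ∀ r : R → Fin 3 × B,
        (∑ r' : R → Fin 3 × B, (W s t β r' * H (Sum.elim (fun v => (μ v, b v)) r')) *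
          (∑ κ : Fin n → Fin 3, MW s t κ * bad μ (mks r) (mks r') κ)) =
        ∑ ρ' : R → Fin 3, (MW s t ρ' * AA β H μ ρ' b) *
          (∑ κ : Fin n → Fin 3, MW s t κ * bad μ (mks r) ρ' κ) := by
      intro r
      rw [fac (fun r' => W s t β r' * H (Sum.elim (fun v => (μ v, b v)) r'))
        (fun ρ' => ∑ κ : Fin n → Fin 3, MW s t κ * bad μ (mks r) ρ' κ)]
      apply Finset.sum_congr rfl
      intro ρ' _
      rw [sum_AA]
    simp_rw [e1]
    rw [fac (fun r => W s t β r * H (Sum.elim (fun v => (μ v, b v)) r))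
        (fun ρ => ∑ ρ' : R → Fin 3, (MW s t ρ' * AA β H μ ρ' b) *
          (∑ κ : Fin n → Fin 3, MW s t κ * bad μ ρ ρ' κ))]
    rw [W_eq, Finset.mul_sum]
    apply Finset.sum_congr rfl
    intro ρ _
    rw [sum_AA, Finset.mul_sum, Finset.mul_sum]
    apply Finset.sum_congr rfl
    intro ρ' _
    ring
  rw [Finset.sum_congr rfl (fun b _ => step3 b), Finset.sum_comm]
  apply Finset.sum_congr rfl
  intro ρ _
  rw [Finset.sum_comm]
  apply Finset.sum_congr rfl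
  intro ρ' _
  exact (Finset.mul_sum _ _ _).symm

/-- the sum over all labels is nonnegative -/
lemma all_nn (n : ℕ) {β : B → ℝ} (hβ : ∀ p, 0 ≤ β p) {s t : ℝ} (hs : 0 ≤ s) (ht : 0 ≤ t)
    (H : (C ⊕ R → Fin 3 × B) → ℝ) :
    0 ≤ ∑ c : C → Fin 3 × B, ∑ r : R → Fin 3 × B, ∑ r' : R → Fin 3 × B, ∑ o : Fin n → Fin 3 × B,
        W s t β c * W s t β r * W s t β r' * W s t β o *
          (H (Sum.elim c r) * H (Sum.elim c r')) := by
  apply Finset.sum_nonneg
  intro c _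
  have e : (∑ r : R → Fin 3 × B, ∑ r' : R → Fin 3 × B, ∑ o : Fin n → Fin 3 × B,
        W s t β c * W s t β r * W s t β r' * W s t β o *
          (H (Sum.elim c r) * H (Sum.elim c r'))) =
      (∑ o : Fin n → Fin 3 × B, W s t β o) * (W s t β c *
        (∑ r : R → Fin 3 × B, W s t β r * H (Sum.elim c r)) ^ 2) := by
    rw [sq, Finset.sum_mul_sum, Finset.mul_sum, Finset.mul_sum]
    apply Finset.sum_congr rfl
    intro r _
    rw [Finset.mul_sum, Finset.mul_sum]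
    apply Finset.sum_congr rfl
    intro r' _
    rw [Finset.sum_mul]
    apply Finset.sum_congr rfl
    intro o _
    ring
  rw [e]
  exact mul_nonneg (Finset.sum_nonneg fun _ _ => W_nn hs ht hβ _)
    (mul_nonneg (W_nn hs ht hβ _) (sq_nonneg _))

lemma nodes_add (m : ℕ) (δ : ℝ) (f g : ℝ → ℝ → ℝ) :
    nodes m δ (fun s t => f s t + g s t) = nodes m δ f + nodes m δ g := by
  unfold nodes
  simp_rw [Finset.sum_add_distrib]

lemma nodes_nn (m : ℕ) {δ : ℝ} (hδ : 0 < δ) {f : ℝ → ℝ → ℝ} (hf : ∀ s t, 0 ≤ s → 0 ≤ t → 0 ≤ f s t) :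
    0 ≤ nodes m δ f :=
  Finset.sum_nonneg fun _ _ => Finset.sum_nonneg fun _ _ => hf _ _ (by positivity) (by positivity)

/-- the Cauchy-Schwarz step for fixed marks -/
lemma key (h : S_EXTR) {β : B → ℝ} (hβ : ∀ p, 0 ≤ β p) (m : ℕ) (hm : Fintype.card R ≤ m) {δ : ℝ}
    (hδ : 0 < δ) (hδ1 : δ ≤ 1) (FT FR : (C ⊕ R → Fin 3 × B) → ℝ) (hT : RSym FT) (hR : RSym FR)
    (μ : C → Fin 3) (ρ ρ' : R → Fin 3) :
    ∑ b : C → B, BW β b * (AA β (hat FT FR) μ ρ b * AA β (hat FT FR) μ ρ' b) ≤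
      (6 * ((m : ℝ) + 1)) ^ 4 * nodes m δ (fun s' t' => SS β FT s' t' + SS β FR s' t') *
        ((2 / δ) ^ nz μ * ((2 / δ) ^ nz ρ * (2 / δ) ^ nz ρ')) := by
  set N := nodes m δ (fun s' t' => SS β FT s' t' + SS β FR s' t') with hN
  set K := (6 * ((m : ℝ) + 1)) ^ 4 with hK
  set Q := 2 / δ with hQ
  have hQ0 : 0 < Q := by positivity
  have hDD : ∀ r : R → Fin 3, ∑ b : C → B, BW β b * (AA β (hat FT FR) μ r b) ^ 2 ≤
      K * (Q ^ nz r) ^ 2 * Q ^ nz μ * N := by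
    intro r
    have e1 : ∑ b : C → B, BW β b * (AA β (hat FT FR) μ r b) ^ 2 =
        DD β (hat FT FR) (Sum.elim μ r) := rfl
    rw [e1]
    have g1 := h C R B β hβ m hm δ hδ hδ1 FT hT (Sum.elim μ r)
    have g2 := h C R B β hβ m hm δ hδ hδ1 FR hR (Sum.elim μ r)
    rw [Sum.elim_comp_inr, Sum.elim_comp_inl] at g1 g2
    have e2 : N = nodes m δ (SS β FT) + nodes m δ (SS β FR) := by
      rw [hN]
      exact nodes_add m δ (SS β FT) (SS β FR)
    have e3 : (2 / δ) ^ (2 * nz r + nz μ) = (Q ^ nz r) ^ 2 * Q ^ nz μ := by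
      rw [pow_add, ← pow_mul, mul_comm 2 (nz r)]
    rw [e3] at g1 g2
    calc DD β (hat FT FR) (Sum.elim μ r) ≤ DD β FT (Sum.elim μ r) + DD β FR (Sum.elim μ r) :=
          DD_hat hβ FT FR _
      _ ≤ _ := add_le_add g1 g2
      _ = _ := by rw [e2]; ring
  set x := Q ^ nz ρ with hx
  set x' := Q ^ nz ρ' with hx'
  set y := Q ^ nz μ with hy
  have hx0 : 0 < x := by positivity
  have hx0' : 0 < x' := by positivity
  have hpt : ∀ a a' : ℝ, a * a' ≤ (x' / x / 2) * a ^ 2 + (x / x' / 2) * a' ^ 2 := by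
    intro a a'
    have hq : 0 ≤ (x' * a - x * a') ^ 2 := sq_nonneg _
    have : (x' / x / 2) * a ^ 2 + (x / x' / 2) * a' ^ 2 - a * a' =
        (x' * a - x * a') ^ 2 / (2 * x * x') := by
      field_simp
      ring
    have h2 : 0 ≤ (x' * a - x * a') ^ 2 / (2 * x * x') := by positivity
    linarith
  calc ∑ b : C → B, BW β b * (AA β (hat FT FR) μ ρ b * AA β (hat FT FR) μ ρ' b)
      ≤ ∑ b : C → B, ((x' / x / 2) * (BW β b * (AA β (hat FT FR) μ ρ b) ^ 2) +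
          (x / x' / 2) * (BW β b * (AA β (hat FT FR) μ ρ' b) ^ 2)) := by
        apply Finset.sum_le_sum
        intro b _
        have := mul_le_mul_of_nonneg_left (hpt (AA β (hat FT FR) μ ρ b) (AA β (hat FT FR) μ ρ' b))
          (BW_nn hβ b)
        linarith
    _ = (x' / x / 2) * ∑ b : C → B, BW β b * (AA β (hat FT FR) μ ρ b) ^ 2 +
        (x / x' / 2) * ∑ b : C → B, BW β b * (AA β (hat FT FR) μ ρ' b) ^ 2 := by
        rw [Finset.sum_add_distrib, Finset.mul_sum, Finset.mul_sum]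
    _ ≤ (x' / x / 2) * (K * x ^ 2 * y * N) + (x / x' / 2) * (K * x' ^ 2 * y * N) :=
        add_le_add (mul_le_mul_of_nonneg_left (hDD ρ) (by positivity))
          (mul_le_mul_of_nonneg_left (hDD ρ') (by positivity))
    _ = K * N * (y * (x * x')) := by
        field_simp
        ring

end

end Pool.Agent.T3h36.PP.CrossAux

namespace Pool.Agent.T3h36.PP
open CrossAux

theorem t_CROSS (h : S_EXTR) : S_CROSS := by
  intro C R B _ _ _ _ _ n β hβ hβ1 m hm δ hδ hδ1 FT FR hT hR s t hs ht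
  set N := nodes m δ (fun s' t' => SS β FT s' t' + SS β FR s' t') with hN
  set K := (6 * ((m : ℝ) + 1)) ^ 4 with hK
  set Q := 2 / δ with hQ
  have hQ0 : 0 < Q := by positivity
  have hQ1 : 1 ≤ Q := by
    rw [hQ, le_div_iff₀ hδ]
    linarith
  have hN0 : 0 ≤ N := nodes_nn m hδ fun s' t' h1 h2 => add_nonneg (SS_nn h1 h2 hβ _) (SS_nn h1 h2 hβ _)
  have hK0 : 0 ≤ K := by positivity
  have hsplit : (∑ c : C → Fin 3 × B, ∑ r : R → Fin 3 × B, ∑ r' : R → Fin 3 × B,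
      ∑ o : Fin n → Fin 3 × B,
      if Good (mks (Sum.elim c (Sum.elim r (Sum.elim r' o)))) then
        W s t β c * W s t β r * W s t β r' * W s t β o *
          (hat FT FR (Sum.elim c r) * hat FT FR (Sum.elim c r')) else 0) =
      (∑ c : C → Fin 3 × B, ∑ r : R → Fin 3 × B, ∑ r' : R → Fin 3 × B, ∑ o : Fin n → Fin 3 × B,
        W s t β c * W s t β r * W s t β r' * W s t β o *
          (hat FT FR (Sum.elim c r) * hat FT FR (Sum.elim c r'))) -
      (∑ c : C → Fin 3 × B, ∑ r : R → Fin 3 × B, ∑ r' : R → Fin 3 × B, ∑ o : Fin n → Fin 3 × B,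
        if Good (mks (Sum.elim c (Sum.elim r (Sum.elim r' o)))) then 0 else
        W s t β c * W s t β r * W s t β r' * W s t β o *
          (hat FT FR (Sum.elim c r) * hat FT FR (Sum.elim c r'))) := by
    simp_rw [← Finset.sum_sub_distrib]
    apply Finset.sum_congr rfl
    intro c _
    apply Finset.sum_congr rfl
    intro r _
    apply Finset.sum_congr rfl
    intro r' _
    apply Finset.sum_congr rfl
    intro o _
    split_ifs <;> ring
  rw [hsplit, bad_sum n hβ1 s t (hat FT FR)]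
  have hall := all_nn (C := C) (R := R) n hβ hs ht (hat FT FR)
  have hbad : (∑ μ : C → Fin 3, ∑ ρ : R → Fin 3, ∑ ρ' : R → Fin 3,
      MW s t μ * (MW s t ρ * (MW s t ρ' * (∑ κ : Fin n → Fin 3, MW s t κ * bad μ ρ ρ' κ))) *
        ∑ b : C → B, BW β b * (AA β (hat FT FR) μ ρ b * AA β (hat FT FR) μ ρ' b)) ≤
      K * N * bads (C ⊕ (R ⊕ (R ⊕ Fin n))) (Q * s) (Q * t) := by
    rw [bads_eq, Finset.mul_sum]
    apply Finset.sum_le_sum
    intro μ _
    rw [Finset.mul_sum]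
    apply Finset.sum_le_sum
    intro ρ _
    rw [Finset.mul_sum]
    apply Finset.sum_le_sum
    intro ρ' _
    have hk := key h hβ m hm hδ hδ1 FT FR hT hR μ ρ ρ'
    have h0 : 0 ≤ ∑ κ : Fin n → Fin 3, MW s t κ * bad μ ρ ρ' κ :=
      Finset.sum_nonneg fun κ _ => mul_nonneg (MW_nn hs ht κ) (bad_nn _ _ _ _)
    have h00 : 0 ≤ MW s t μ * (MW s t ρ * (MW s t ρ' * (∑ κ : Fin n → Fin 3, MW s t κ * bad μ ρ ρ' κ))) :=
      mul_nonneg (MW_nn hs ht _) (mul_nonneg (MW_nn hs ht _) (mul_nonneg (MW_nn hs ht _) h0))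
    refine (mul_le_mul_of_nonneg_left hk h00).trans ?_
    have e2 : ∑ κ : Fin n → Fin 3, MW s t κ * bad μ ρ ρ' κ ≤
        ∑ κ : Fin n → Fin 3, MW (Q * s) (Q * t) κ * bad μ ρ ρ' κ := by
      apply Finset.sum_le_sum
      intro κ _
      rw [MW_scale]
      have h3 : 1 ≤ Q ^ nz κ := one_le_pow₀ hQ1
      have h4 := mul_nonneg (MW_nn hs ht κ) (bad_nn μ ρ ρ' κ)
      nlinarith
    have e3 : ∑ κ : Fin n → Fin 3, MW (Q * s) (Q * t) μ * (MW (Q * s) (Q * t) ρ *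
        (MW (Q * s) (Q * t) ρ' * (MW (Q * s) (Q * t) κ * bad μ ρ ρ' κ))) =
        (MW (Q * s) (Q * t) μ * (MW (Q * s) (Q * t) ρ * MW (Q * s) (Q * t) ρ')) *
          ∑ κ : Fin n → Fin 3, MW (Q * s) (Q * t) κ * bad μ ρ ρ' κ := by
      rw [Finset.mul_sum]
      apply Finset.sum_congr rfl
      intro κ _
      ring
    rw [e3]
    have e4 : MW s t μ * (MW s t ρ * (MW s t ρ' * (∑ κ : Fin n → Fin 3, MW s t κ * bad μ ρ ρ' κ))) *
        (K * N * (Q ^ nz μ * (Q ^ nz ρ * Q ^ nz ρ'))) =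
        K * N * ((MW (Q * s) (Q * t) μ * (MW (Q * s) (Q * t) ρ * MW (Q * s) (Q * t) ρ')) *
          ∑ κ : Fin n → Fin 3, MW s t κ * bad μ ρ ρ' κ) := by
      rw [MW_scale, MW_scale, MW_scale]
      ring
    rw [e4]
    apply mul_le_mul_of_nonneg_left _ (mul_nonneg hK0 hN0)
    apply mul_le_mul_of_nonneg_left e2
    exact mul_nonneg (MW_nn (by positivity) (by positivity) _)
      (mul_nonneg (MW_nn (by positivity) (by positivity) _) (MW_nn (by positivity) (by positivity) _))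
  linarith

end Pool.Agent.T3h36.PP
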