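import Pool.Agent.T3h36.PP.Stm

/-! Project PP, (DENS): the weight of the edges of the modified construction. -/

set_option autoImplicit false
set_option linter.unusedSectionVars false
open Finset
open Pool.Agent.T2h36 Pool.Agent.T2h36.Uni

namespace Pool.Agent.T3h36.PP

namespace DNS

theorem z10 {L : ℕ} (hL : 3 ≤ L) : (1 : ZMod L) ≠ 0 := by
  intro h
  have h1 : ((1 : ℕ) : ZMod L) = 0 := by simpa using h
  rw [ZMod.natCast_eq_zero_iff] at h1
  have := Nat.le_of_dvd one_pos h1
  omega

theorem z20 {L : ℕ} (hL : 3 ≤ L) : (2 : ZMod L) ≠ 0 := by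
  intro h
  have h1 : ((2 : ℕ) : ZMod L) = 0 := by simpa using h
  rw [ZMod.natCast_eq_zero_iff] at h1
  have := Nat.le_of_dvd two_pos h1
  omega

theorem z21 {L : ℕ} (hL : 3 ≤ L) : (2 : ZMod L) ≠ 1 := by
  intro h
  have h3 : (1 : ZMod L) + 1 = 1 + 0 := by rw [one_add_one_eq_two, add_zero]; exact h
  exact z10 hL (add_left_cancel h3)

/-- Kronecker delta -/
noncomputable def dl {L : ℕ} (p q : ZMod L) : ℝ := if p = q then 1 else 0

/-- the indicator of `non3` -/
noncomputable def NO {L : ℕ} (p q r : ZMod L) : ℝ :=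
  dl p q * dl q r + dl p q * dl r (p + 1) + dl p r * dl q (p + 1) + dl q r * dl p (q + 1)

theorem dl_self {L : ℕ} (p : ZMod L) : dl p p = 1 := if_pos rfl
theorem dl_ne {L : ℕ} {p q : ZMod L} (h : p ≠ q) : dl p q = 0 := if_neg h

open Classical in
theorem no_val {L : ℕ} (hL : 3 ≤ L) (p q r : ZMod L) :
    (if non3 p q r then (1 : ℝ) else 0) = NO p q r := by
  have n1 : ∀ i : ZMod L, i + 1 ≠ i := fun i h => z10 hL (by simpa using h)
  unfold NO
  by_cases h1 : p = q
  · subst h1
    by_cases h2 : p = r
    · subst h2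
      rw [if_pos (show non3 p p p from Or.inl ⟨rfl, rfl⟩), dl_self, dl_ne (n1 p).symm]
      ring
    · by_cases h3 : r = p + 1
      · rw [if_pos (show non3 p p r from Or.inr (Or.inl ⟨rfl, h3⟩)), h3, dl_self, dl_self,
          dl_ne (n1 p).symm]
        ring
      · rw [if_neg, dl_self, dl_ne h2, dl_ne h3]
        · ring
        · rintro (h | h | h | h)
          · exact h2 h.2
          · exact h3 h.2
          · exact h2 h.1
          · exact h2 h.1
  · by_cases h2 : p = r
    · subst h2
      by_cases h3 : q = p + 1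
      · rw [if_pos (show non3 p q p from Or.inr (Or.inr (Or.inl ⟨rfl, h3⟩))), dl_ne h1, dl_self, h3, dl_self,
          dl_ne (n1 p)]
        ring
      · rw [if_neg, dl_ne h1, dl_self, dl_ne h3, dl_ne (Ne.symm h1)]
        · ring
        · rintro (h | h | h | h)
          · exact h1 h.1
          · exact h1 h.1
          · exact h3 h.2
          · exact h1 h.1.symm
    · by_cases h3 : q = r
      · subst h3
        by_cases h4 : p = q + 1
        · rw [if_pos (show non3 p q q from Or.inr (Or.inr (Or.inr ⟨rfl, h4⟩))), dl_ne h1, dl_self, h4, dl_self]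
          ring
        · rw [if_neg, dl_ne h1, dl_self, dl_ne h4]
          · ring
          · rintro (h | h | h | h)
            · exact h1 h.1
            · exact h1 h.1
            · exact h1 h.1
            · exact h4 h.2
      · rw [if_neg, dl_ne h1, dl_ne h2, dl_ne h3]
        · ring
        · rintro (h | h | h | h)
          · exact h1 h.1
          · exact h1 h.1
          · exact h2 h.1
          · exact h3 h.1

/-- marked `1` -/
noncomputable def m {L : ℕ} (a : Fin 3 × ZMod L) : ℝ := if a.1 = 1 then 1 else 0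

/-- the change by the third vertex -/
noncomputable def g {L : ℕ} (c : Fin 3 × ZMod L) : ℝ :=
  if c.1 = 1 then 0 else if c.1 = 2 then 1 else dl c.2 0 - dl c.2 2

theorem m1 {L : ℕ} {a : Fin 3 × ZMod L} (h : a.1 = 1) : m a = 1 := if_pos h
theorem m0 {L : ℕ} {a : Fin 3 × ZMod L} (h : a.1 ≠ 1) : m a = 0 := if_neg h

open Classical in
theorem rT_val {L : ℕ} (hL : 3 ≤ L) (a b c : Fin 3 × ZMod L) :
    (if rT a b c then (1 : ℝ) else 0) = 1 - NO (part a) (part b) (part c) := by
  rw [← no_val hL]
  unfold rT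
  by_cases h : non3 (part a) (part b) (part c)
  · rw [if_neg (not_not.2 h), if_pos h, sub_self]
  · rw [if_pos h, if_neg h, sub_zero]

theorem NO_comm {L : ℕ} (p q r : ZMod L) (h : q = p) : NO p r q = NO p q r := by
  subst h
  unfold NO dl
  by_cases h1 : q = r
  · subst h1; ring
  · simp only [if_neg h1, if_neg (Ne.symm h1), if_true]
    ring

open Classical in
/-- the third vertex of two vertices marked `1` -/
theorem thr_val {L : ℕ} (hL : 3 ≤ L) (c : Fin 3 × ZMod L) (hc : c.1 ≠ 1) :
    (if thr c then (1 : ℝ) else 0) = 1 - NO 0 0 (part c) + g c := by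
  obtain ⟨z, p⟩ := c
  have h10 := z10 hL
  have h20 := z20 hL
  have h21 := z21 hL
  have hz : z = 0 ∨ z = 2 := by
    have : z ≠ 1 := hc
    omega
  rcases hz with rfl | rfl
  · have hp : part ((0, p) : Fin 3 × ZMod L) = p := if_pos rfl
    have hg : g ((0, p) : Fin 3 × ZMod L) = dl p 0 - dl p 2 := by
      unfold g
      rw [if_neg (by simp), if_neg (by simp)]
    rw [hg, hp]
    unfold NO
    rw [dl_self, zero_add, dl_ne h10.symm]
    by_cases h0 : p = 0
    · subst h0
      rw [if_pos ⟨hc, by rw [hp]; exact h20.symm, fun h => absurd (hp.symm.trans h) h10.symm⟩,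
        dl_self, dl_ne h10.symm, dl_ne h20.symm]
      ring
    · rw [dl_ne (Ne.symm h0), dl_ne h0]
      by_cases h1 : p = 1
      · subst h1
        rw [if_neg, dl_self, dl_ne h21.symm]
        · ring
        · intro h
          have := h.2.2 hp
          simp at this
      · rw [dl_ne h1]
        by_cases h2 : p = 2
        · subst h2
          rw [if_neg (fun h => h.2.1 hp), dl_self]
          ring
        · rw [if_pos ⟨hc, by rw [hp]; exact h2, fun h => absurd (hp.symm.trans h) h1⟩, dl_ne h2]
          ring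
  · have hp : part ((2, p) : Fin 3 × ZMod L) = 1 := by
      unfold part
      rw [if_neg (by simp), if_neg (by simp)]
    have hg : g ((2, p) : Fin 3 × ZMod L) = 1 := by
      unfold g
      rw [if_neg (by simp), if_pos rfl]
    rw [hg, hp, if_pos ⟨hc, by rw [hp]; exact h21.symm, fun _ => rfl⟩]
    unfold NO
    rw [dl_self, zero_add, dl_ne h10.symm, dl_self]
    ring

theorem part1 {L : ℕ} {a : Fin 3 × ZMod L} (h : a.1 = 1) : part a = 0 := by
  unfold part
  rw [if_neg (by rw [h]; decide), if_pos h]

theorem NO_12 {L : ℕ} (r : ZMod L) : NO 0 r 0 = NO 0 0 r := NO_comm 0 0 r rfl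

theorem NO_23 {L : ℕ} (hL : 3 ≤ L) (r : ZMod L) : NO r 0 0 = NO 0 0 r := by
  classical
  rw [← no_val hL, ← no_val hL]
  have h10 := z10 hL
  have : non3 r 0 0 ↔ non3 0 0 r := by
    unfold non3
    constructor
    · rintro (h | h | h | h)
      · exact Or.inl ⟨rfl, h.1.symm⟩
      · exact absurd (h.2.trans (by rw [h.1])).symm (by simpa using h10)
      · exact absurd (h.2.trans (by rw [h.1])).symm (by simpa using h10)
      · exact Or.inr (Or.inl ⟨rfl, h.2⟩)
    · rintro (h | h | h | h)
      · exact Or.inl ⟨h.2.symm, rfl⟩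
      · exact Or.inr (Or.inr (Or.inr ⟨rfl, h.2⟩))
      · exact absurd h.2.symm (by simpa using h10)
      · exact absurd h.2.symm (by simpa using h10)
  simp only [this]

open Classical in
theorem rQ_val {L : ℕ} (hL : 3 ≤ L) (a b c : Fin 3 × ZMod L) :
    (if rQ a b c then (1 : ℝ) else 0) = 1 - NO (part a) (part b) (part c) +
      m a * m b * g c + m a * m c * g b + m b * m c * g a := by
  have g1 : ∀ x : Fin 3 × ZMod L, x.1 = 1 → g x = 0 := fun x h => if_pos h
  have n000 : NO (0 : ZMod L) 0 0 = 1 := by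
    unfold NO
    rw [dl_self, zero_add, dl_ne (z10 hL).symm]
    ring
  by_cases ha : a.1 = 1
  · by_cases hb : b.1 = 1
    · by_cases hc : c.1 = 1
      · rw [g1 a ha, g1 b hb, g1 c hc, part1 ha, part1 hb, part1 hc, n000, if_neg]
        · ring
        · rintro (h | h | h | h)
          · exact h.2.2.1 hc
          · exact h.2.2.1 hb
          · exact h.2.2.1 ha
          · exact h.1 ⟨ha, hb⟩
      · have e : rQ a b c ↔ thr c := by
          constructor
          · rintro (h | h | h | h)
            · exact h.2.2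
            · exact absurd h.2.1 hc
            · exact absurd h.2.1 hc
            · exact absurd ⟨ha, hb⟩ h.1
          · exact fun h => Or.inl ⟨ha, hb, h⟩
        simp only [e]
        rw [thr_val hL c hc, part1 ha, part1 hb, m1 ha, m1 hb, m0 hc]
        ring
    · by_cases hc : c.1 = 1
      · have e : rQ a b c ↔ thr b := by
          constructor
          · rintro (h | h | h | h)
            · exact absurd h.2.1 hb
            · exact h.2.2
            · exact absurd h.1 hb
            · exact absurd ⟨ha, hc⟩ h.2.1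
          · exact fun h => Or.inr (Or.inl ⟨ha, hc, h⟩)
        simp only [e]
        rw [thr_val hL b hb, part1 ha, part1 hc, m1 ha, m0 hb, m1 hc, NO_12]
        ring
      · have e : rQ a b c ↔ rT a b c := by
          constructor
          · rintro (h | h | h | h)
            · exact absurd h.2.1 hb
            · exact absurd h.2.1 hc
            · exact absurd h.1 hb
            · exact h.2.2.2
          · exact fun h => Or.inr (Or.inr (Or.inr ⟨fun k => hb k.2, fun k => hc k.2,
              fun k => hb k.1, h⟩))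
        simp only [e]
        rw [rT_val hL, m0 hb, m0 hc]
        ring
  · by_cases hb : b.1 = 1
    · by_cases hc : c.1 = 1
      · have e : rQ a b c ↔ thr a := by
          constructor
          · rintro (h | h | h | h)
            · exact absurd h.1 ha
            · exact absurd h.1 ha
            · exact h.2.2
            · exact absurd ⟨hb, hc⟩ h.2.2.1
          · exact fun h => Or.inr (Or.inr (Or.inl ⟨hb, hc, h⟩))
        simp only [e]
        rw [thr_val hL a ha, part1 hb, part1 hc, m0 ha, m1 hb, m1 hc, NO_23 hL]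
        ring
      · have e : rQ a b c ↔ rT a b c := by
          constructor
          · rintro (h | h | h | h)
            · exact absurd h.1 ha
            · exact absurd h.1 ha
            · exact absurd h.2.1 hc
            · exact h.2.2.2
          · exact fun h => Or.inr (Or.inr (Or.inr ⟨fun k => ha k.1, fun k => ha k.1,
              fun k => hc k.2, h⟩))
        simp only [e]
        rw [rT_val hL, m0 ha, m0 hc]
        ring
    · have e : rQ a b c ↔ rT a b c := by
        constructor
        · rintro (h | h | h | h)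
          · exact absurd h.1 ha
          · exact absurd h.1 ha
          · exact absurd h.1 hb
          · exact h.2.2.2
        · exact fun h => Or.inr (Or.inr (Or.inr ⟨fun k => ha k.1, fun k => ha k.1,
            fun k => hb k.1, h⟩))
      simp only [e]
      rw [rT_val hL, m0 ha, m0 hb]
      ring

section
variable {L : ℕ} [NeZero L]

theorem sum_bet (s t : ℝ) : ∑ p, bet L s t p = 1 := by
  have hL : (L : ℝ) ≠ 0 := by exact_mod_cast NeZero.ne L
  unfold bet
  rw [Finset.sum_sub_distrib, Finset.sum_sub_distrib, Finset.sum_const, card_univ, ZMod.card,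
    nsmul_eq_mul, Finset.sum_ite_eq' univ (0 : ZMod L) fun _ => s,
    Finset.sum_ite_eq' univ (1 : ZMod L) fun _ => t, if_pos (mem_univ _), if_pos (mem_univ _)]
  field_simp
  ring

/-- sums over the labels -/
theorem sum_lab (s t : ℝ) (f : Fin 3 × ZMod L → ℝ) :
    ∑ a : Fin 3 × ZMod L, (mk s t a.1 * bet L s t a.2) * f a =
      ∑ p, bet L s t p * f (0, p) + s * ∑ p, bet L s t p * f (1, p) +
        t * ∑ p, bet L s t p * f (2, p) := by
  rw [Fintype.sum_prod_type, Fin.sum_univ_three, Finset.mul_sum, Finset.mul_sum]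
  have e0 : mk s t 0 = 1 := if_pos rfl
  have e1 : mk s t 1 = s := by
    show (if (1 : Fin 3) = 0 then (1 : ℝ) else if (1 : Fin 3) = 1 then s else t) = s
    rw [if_neg (by decide), if_pos rfl]
  have e2 : mk s t 2 = t := by
    show (if (2 : Fin 3) = 0 then (1 : ℝ) else if (2 : Fin 3) = 1 then s else t) = t
    rw [if_neg (by decide), if_neg (by decide)]
  congr 1
  · congr 1
    · exact Finset.sum_congr rfl fun p _ => by rw [e0]; ring
    · exact Finset.sum_congr rfl fun p _ => by rw [e1]; ring
  · exact Finset.sum_congr rfl fun p _ => by rw [e2]; ring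

theorem sum_part (s t : ℝ) (F : ZMod L → ℝ) :
    ∑ a : Fin 3 × ZMod L, (mk s t a.1 * bet L s t a.2) * F (part a) =
      (1 + s + t) / L * ∑ p, F p := by
  rw [sum_lab s t fun a => F (part a)]
  have e0 : ∀ p : ZMod L, part ((0, p) : Fin 3 × ZMod L) = p := fun p => if_pos rfl
  have e1 : ∀ p : ZMod L, part ((1, p) : Fin 3 × ZMod L) = 0 := fun p => part1 rfl
  have e2 : ∀ p : ZMod L, part ((2, p) : Fin 3 × ZMod L) = 1 := fun p => by
    unfold part
    rw [if_neg (by simp), if_neg (by simp)]
  simp only [e0, e1, e2]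
  rw [← Finset.sum_mul, ← Finset.sum_mul, sum_bet]
  have h : ∑ p, bet L s t p * F p = (1 + s + t) / L * ∑ p, F p - s * F 0 - t * F 1 := by
    have h1 : ∀ p, bet L s t p * F p = (1 + s + t) / L * F p - (if p = 0 then s * F p else 0) -
        (if p = 1 then t * F p else 0) := by
      intro p
      unfold bet
      split_ifs <;> ring
    simp only [h1]
    rw [Finset.sum_sub_distrib, Finset.sum_sub_distrib, ← Finset.mul_sum,
      Finset.sum_ite_eq' univ (0 : ZMod L) fun p => s * F p,
      Finset.sum_ite_eq' univ (1 : ZMod L) fun p => t * F p, if_pos (mem_univ _),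
      if_pos (mem_univ _)]
  rw [h]
  ring

theorem sum_m (s t : ℝ) :
    ∑ a : Fin 3 × ZMod L, (mk s t a.1 * bet L s t a.2) * m a = s := by
  rw [sum_lab]
  have e0 : ∀ p : ZMod L, m ((0, p) : Fin 3 × ZMod L) = 0 := fun p => m0 (by simp)
  have e1 : ∀ p : ZMod L, m ((1, p) : Fin 3 × ZMod L) = 1 := fun p => m1 rfl
  have e2 : ∀ p : ZMod L, m ((2, p) : Fin 3 × ZMod L) = 0 := fun p => m0 (by simp)
  simp only [e0, e1, e2, mul_zero, mul_one, Finset.sum_const_zero]
  rw [sum_bet]
  ring

theorem sum_g (hL : 3 ≤ L) (s t : ℝ) :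
    ∑ a : Fin 3 × ZMod L, (mk s t a.1 * bet L s t a.2) * g a = t - s := by
  rw [sum_lab]
  have e0 : ∀ p : ZMod L, g ((0, p) : Fin 3 × ZMod L) = dl p 0 - dl p 2 := fun p => by
    unfold g
    rw [if_neg (by simp), if_neg (by simp)]
  have e1 : ∀ p : ZMod L, g ((1, p) : Fin 3 × ZMod L) = 0 := fun p => if_pos rfl
  have e2 : ∀ p : ZMod L, g ((2, p) : Fin 3 × ZMod L) = 1 := fun p => by
    unfold g
    rw [if_neg (by simp), if_pos rfl]
  simp only [e0, e1, e2, mul_zero, mul_one, Finset.sum_const_zero]
  rw [sum_bet]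
  have h : ∑ p, bet L s t p * (dl p 0 - dl p 2) = bet L s t 0 - bet L s t 2 := by
    simp only [mul_sub]
    rw [Finset.sum_sub_distrib]
    unfold dl
    simp only [mul_ite, mul_one, mul_zero]
    rw [Finset.sum_ite_eq' univ (0 : ZMod L), Finset.sum_ite_eq' univ (2 : ZMod L),
      if_pos (mem_univ _), if_pos (mem_univ _)]
  rw [h]
  have b0 : bet L s t 0 = (1 + s + t) / L - s := by
    unfold bet
    rw [if_pos rfl, if_neg (z10 hL).symm, sub_zero]
  have b2 : bet L s t 2 = (1 + s + t) / L := by
    unfold bet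
    rw [if_neg (z20 hL), if_neg (z21 hL), sub_zero, sub_zero]
  rw [b0, b2]
  ring

theorem prod3 {A : Type} [Fintype A] (x y z : A → ℝ) :
    ∑ a, ∑ b, ∑ c, x a * y b * z c = (∑ a, x a) * (∑ b, y b) * ∑ c, z c := by
  simp only [← Finset.mul_sum, ← Finset.sum_mul]

theorem sum_NO : ∑ p : ZMod L, ∑ q : ZMod L, ∑ r : ZMod L, NO p q r = 4 * L := by
  have hd : ∀ (q : ZMod L) (f : ZMod L → ℝ), ∑ r, f r * dl q r = f q := by
    intro q f
    unfold dl
    simp only [mul_ite, mul_one, mul_zero]
    rw [Finset.sum_ite_eq univ q, if_pos (mem_univ _)]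
  have hd' : ∀ (q : ZMod L) (f : ZMod L → ℝ), ∑ r, f r * dl r q = f q := by
    intro q f
    unfold dl
    simp only [mul_ite, mul_one, mul_zero]
    rw [Finset.sum_ite_eq' univ q, if_pos (mem_univ _)]
  have s1 : ∀ p : ZMod L, ∑ q : ZMod L, ∑ r : ZMod L, dl p q * dl q r = 1 := by
    intro p
    have : ∀ q : ZMod L, ∑ r : ZMod L, dl p q * dl q r = dl p q := fun q => hd q fun _ => dl p q
    simp only [this]
    have := hd p fun _ => 1
    simpa using this
  have s2 : ∀ p : ZMod L, ∑ q : ZMod L, ∑ r : ZMod L, dl p q * dl r (p + 1) = 1 := by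
    intro p
    have : ∀ q : ZMod L, ∑ r : ZMod L, dl p q * dl r (p + 1) = dl p q :=
      fun q => hd' (p + 1) fun _ => dl p q
    simp only [this]
    have := hd p fun _ => 1
    simpa using this
  have s3 : ∀ p : ZMod L, ∑ q : ZMod L, ∑ r : ZMod L, dl p r * dl q (p + 1) = 1 := by
    intro p
    rw [Finset.sum_comm]
    have : ∀ r : ZMod L, ∑ q : ZMod L, dl p r * dl q (p + 1) = dl p r :=
      fun r => hd' (p + 1) fun _ => dl p r
    simp only [this]
    have := hd p fun _ => 1
    simpa using this
  have s4 : ∑ p : ZMod L, ∑ q : ZMod L, ∑ r : ZMod L, dl q r * dl p (q + 1) = L := by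
    have : ∀ p q : ZMod L, ∑ r : ZMod L, dl q r * dl p (q + 1) = dl p (q + 1) := by
      intro p q
      refine Eq.trans ?_ (hd q fun _ => dl p (q + 1))
      exact Finset.sum_congr rfl fun r _ => mul_comm _ _
    simp only [this]
    rw [Finset.sum_comm]
    have : ∀ q : ZMod L, ∑ p : ZMod L, dl p (q + 1) = 1 := by
      intro q
      have := hd' (q + 1) fun _ => 1
      simpa using this
    simp only [this]
    simp
  unfold NO
  simp only [Finset.sum_add_distrib]
  rw [s4]
  simp only [s1, s2, s3]
  simp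
  ring

open Classical in
theorem main (hL : 3 ≤ L) (s t : ℝ) :
    ∑ a : Fin 3 × ZMod L, ∑ b : Fin 3 × ZMod L, ∑ c : Fin 3 × ZMod L,
    (mk s t a.1 * bet L s t a.2) * (mk s t b.1 * bet L s t b.2) * (mk s t c.1 * bet L s t c.2) *
      (if rQ a b c then 1 else 0) =
    (1 - 4 / (L : ℝ) ^ 2) * (1 + s + t) ^ 3 + 3 * s ^ 2 * (t - s) := by
  have hL0 : (L : ℝ) ≠ 0 := by exact_mod_cast NeZero.ne L
  obtain ⟨w, hw⟩ : ∃ w : Fin 3 × ZMod L → ℝ, w = fun a => mk s t a.1 * bet L s t a.2 := ⟨_, rfl⟩
  have hwa : ∀ a : Fin 3 × ZMod L, mk s t a.1 * bet L s t a.2 = w a := fun a => by rw [hw]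
  have p1 := sum_part (L := L) s t
  have p2 := sum_m (L := L) s t
  have p3 := sum_g hL s t
  simp only [hwa] at p1 p2 p3 ⊢
  have e1 : ∀ a b c : Fin 3 × ZMod L, w a * w b * w c * (if rQ a b c then (1 : ℝ) else 0) =
      w a * w b * w c * (1 - NO (part a) (part b) (part c)) +
      (w a * m a) * (w b * m b) * (w c * g c) + (w a * m a) * (w b * g b) * (w c * m c) +
      (w a * g a) * (w b * m b) * (w c * m c) := by
    intro a b c
    rw [rQ_val hL]
    ring
  simp only [e1, Finset.sum_add_distrib]
  rw [prod3, prod3, prod3, p2, p3]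
  have e2 : ∑ a : Fin 3 × ZMod L, ∑ b : Fin 3 × ZMod L, ∑ c : Fin 3 × ZMod L,
      w a * w b * w c * (1 - NO (part a) (part b) (part c)) =
      ((1 + s + t) / L) ^ 3 * ∑ p : ZMod L, ∑ q : ZMod L, ∑ r : ZMod L, (1 - NO p q r) := by
    have f1 : ∀ a b : Fin 3 × ZMod L, ∑ c : Fin 3 × ZMod L,
        w a * w b * w c * (1 - NO (part a) (part b) (part c)) =
        w a * (w b * ((1 + s + t) / L * ∑ r, (1 - NO (part a) (part b) r))) := by
      intro a b
      rw [← p1 fun r => 1 - NO (part a) (part b) r, Finset.mul_sum, Finset.mul_sum]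
      exact Finset.sum_congr rfl fun c _ => by ring
    simp only [f1]
    have f2 : ∀ a : Fin 3 × ZMod L, ∑ b : Fin 3 × ZMod L,
        w a * (w b * ((1 + s + t) / L * ∑ r, (1 - NO (part a) (part b) r))) =
        w a * ((1 + s + t) / L * ∑ q, ((1 + s + t) / L * ∑ r, (1 - NO (part a) q r))) := by
      intro a
      rw [← p1 fun q => (1 + s + t) / L * ∑ r, (1 - NO (part a) q r), Finset.mul_sum]
    simp only [f2]
    rw [p1 fun p => (1 + s + t) / L * ∑ q, ((1 + s + t) / L * ∑ r, (1 - NO p q r))]
    simp only [← Finset.mul_sum]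
    ring
  rw [e2]
  simp only [Finset.sum_sub_distrib]
  rw [sum_NO]
  simp only [Finset.sum_const, card_univ, ZMod.card, nsmul_eq_mul, mul_one]
  field_simp
  ring

theorem bet_nonneg (hL : 3 ≤ L) (s t : ℝ) (hs : 0 ≤ s) (ht : 0 ≤ t) (hs' : s ≤ 1 / L)
    (ht' : t ≤ 1 / L) (p : ZMod L) : 0 ≤ bet L s t p := by
  have hL0 : (0 : ℝ) < L := by exact_mod_cast Nat.pos_of_ne_zero (NeZero.ne L)
  have h1 : 1 / (L : ℝ) ≤ (1 + s + t) / L := by gcongr; linarith
  unfold bet
  by_cases h0 : p = 0
  · rw [if_pos h0, if_neg (by rw [h0]; exact (z10 hL).symm)]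
    linarith
  · rw [if_neg h0]
    split_ifs <;> linarith

end

end DNS

theorem t_DENS : S_DENS := by
  intro L _ hL s t hs ht hs' ht'
  exact ⟨DNS.bet_nonneg hL s t hs ht hs' ht', DNS.sum_bet s t, DNS.main hL s t⟩

end Pool.Agent.T3h36.PP
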