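import Pool.Agent.T3h36.PP.Stm

set_option autoImplicit false
open Finset
open Pool.Agent.T2h36 Pool.Agent.T2h36.Uni

namespace Pool.Agent.T3h36.PP

namespace EDGE

theorem sum_split {V U A : Type} [Fintype V] [DecidableEq V] [Fintype U] [DecidableEq U] [Fintype A]
    (w : A → ℝ) (F : (U → A) → ℝ) (χ : U ↪ V) :
    ∑ ℓ : V → A, (∏ v, w (ℓ v)) * F (ℓ ∘ χ) =
      (∑ a, w a) ^ (Fintype.card V - Fintype.card U) * ∑ m : U → A, (∏ u, w (m u)) * F m := by
  classical
  let C := {v // v ∉ Set.range χ}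
  let e : U ⊕ C ≃ V := (Equiv.sumCongr (Equiv.ofInjective χ χ.injective) (Equiv.refl C)).trans
    (Equiv.Set.sumCompl (Set.range χ))
  have he1 : ∀ u, e (Sum.inl u) = χ u := fun u => rfl
  let E : (V → A) ≃ (U → A) × (C → A) :=
    (Equiv.arrowCongr e.symm (Equiv.refl A)).trans (Equiv.sumArrowEquivProdArrow U C A)
  have hE1 : ∀ p : (U → A) × (C → A), E.symm p ∘ χ = p.1 := by
    intro p
    funext u
    have h := congrArg (fun q : (U → A) × (C → A) => q.1 u) (E.apply_symm_apply p)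
    exact h
  have hE2 : ∀ (p : (U → A) × (C → A)) (x : C), E.symm p (e (Sum.inr x)) = p.2 x := by
    intro p x
    have h := congrArg (fun q : (U → A) × (C → A) => q.2 x) (E.apply_symm_apply p)
    exact h
  have hprod : ∀ p : (U → A) × (C → A), ∏ v, w (E.symm p v) = (∏ u, w (p.1 u)) * ∏ x, w (p.2 x) := by
    intro p
    rw [← Equiv.prod_comp e (fun v => w (E.symm p v)), Fintype.prod_sum_type]
    congr 1
    · refine Finset.prod_congr rfl fun u _ => ?_
      rw [he1]
      exact congrArg w (congrFun (hE1 p) u)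
    · refine Finset.prod_congr rfl fun x _ => ?_
      rw [hE2]
  rw [← Equiv.sum_comp E.symm, Fintype.sum_prod_type]
  simp only [hE1, hprod]
  have hcard : Fintype.card C = Fintype.card V - Fintype.card U := by
    have h := Fintype.card_congr e
    rw [Fintype.card_sum] at h
    omega
  have hpow : ∑ c : C → A, ∏ x, w (c x) = (∑ a, w a) ^ (Fintype.card V - Fintype.card U) := by
    have h := Finset.prod_univ_sum (fun _ : C => (univ : Finset A)) (fun _ a => w a)
    rw [Fintype.piFinset_univ, Finset.prod_const, Finset.card_univ, hcard] at h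
    exact h.symm
  rw [← hpow, Finset.mul_sum]
  refine Finset.sum_congr rfl fun m _ => ?_
  rw [Finset.sum_mul]
  refine Finset.sum_congr rfl fun c _ => ?_
  ring

theorem psi3_GG {A : Type} {R : A → A → A → Prop} (hR : Sym3 R) (m : Fin 3 → A) :
    (univ : Finset (Fin 3)) ∈ GG R m ↔ R (m 0) (m 1) (m 2) := by
  simp only [GG, mem_filter, mem_univ, true_and]
  constructor
  · rintro ⟨a, b, c, hab, hac, hbc, -, h⟩
    have s1 : ∀ x y z, R x y z → R y x z := fun x y z => (hR x y z).1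
    have s2 : ∀ x y z, R x y z → R x z y := fun x y z => (hR x y z).2
    fin_cases a <;> fin_cases b <;> fin_cases c <;> simp at hab hac hbc h ⊢
    · exact h
    · exact s2 _ _ _ h
    · exact s1 _ _ _ h
    · exact s1 _ _ _ (s2 _ _ _ h)
    · exact s2 _ _ _ (s1 _ _ _ h)
    · exact s1 _ _ _ (s2 _ _ _ (s1 _ _ _ h))
  · intro h
    refine ⟨0, 1, 2, by decide, by decide, by decide, ?_, h⟩
    decide

theorem sum_three {A : Type} [Fintype A] (F : (Fin 3 → A) → ℝ) :
    ∑ m : Fin 3 → A, F m = ∑ a, ∑ b, ∑ c, F ![a, b, c] := by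
  let e : (A × A × A) ≃ (Fin 3 → A) :=
    { toFun := fun p => ![p.1, p.2.1, p.2.2]
      invFun := fun m => (m 0, m 1, m 2)
      left_inv := fun p => rfl
      right_inv := fun m => by
        funext i
        fin_cases i <;> rfl }
  rw [← Equiv.sum_comp e, Fintype.sum_prod_type]
  refine Finset.sum_congr rfl fun a _ => ?_
  rw [Fintype.sum_prod_type]
  rfl

end EDGE

open Classical in
theorem t_EDGE (hg : S_GRAPH) (hs : S_SAMP) : S_EDGE := by
  intro V B _ _ _ R β s t hβ hR hV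
  obtain ⟨h3, -⟩ := hg
  obtain ⟨χ⟩ : Nonempty (Fin 3 ↪ V) := Function.Embedding.nonempty_of_card_le (by simpa using hV)
  have h1 := hs V (Fin 3) B R β s t (fun _ => 1) (fun _ _ => rfl) psi3 χ
  simp only [one_mul] at h1
  have h2 : ∀ ℓ : V → Fin 3 × B, edgeDens (GG R ℓ) = avg psi3 (GG R ℓ) := fun ℓ =>
    edgeDens_eq _ (h3 V (Fin 3 × B) R ℓ) hV
  simp_rw [h2]
  rw [h1]
  have h4 := EDGE.sum_split (fun a : Fin 3 × B => mk s t a.1 * β a.2)
    (fun m : Fin 3 → Fin 3 × B => psi3 (GG R m)) χ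
  have h5 : ∑ a : Fin 3 × B, mk s t a.1 * β a.2 = 1 + s + t := by
    rw [Fintype.sum_prod_type, Fin.sum_univ_three]
    simp only [← Finset.mul_sum, hβ]
    simp [mk]
  rw [h5, Fintype.card_fin] at h4
  have h6 : ∑ ℓ : V → Fin 3 × B, W s t β ℓ * psi3 (GG R (ℓ ∘ χ)) =
      ∑ ℓ : V → Fin 3 × B, (∏ v, (mk s t (ℓ v).1 * β (ℓ v).2)) * psi3 (GG R (ℓ ∘ χ)) := rfl
  rw [h6, h4, EDGE.sum_three]
  congr 1
  refine Finset.sum_congr rfl fun a _ => Finset.sum_congr rfl fun b _ =>
    Finset.sum_congr rfl fun c _ => ?_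
  rw [Fin.prod_univ_three]
  unfold psi3
  rw [if_congr (EDGE.psi3_GG hR ![a, b, c]) rfl rfl]
  rfl

end Pool.Agent.T3h36.PP
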