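import Pool.Agent.T3h36.PP.Stm

set_option autoImplicit false
open Finset

namespace Pool.Agent.T3h36.PP
namespace EXTR

section
variable {P B : Type} [Fintype P] [Fintype B]

theorem sum_pr [DecidableEq P] (f : (P → Fin 3 × B) → ℝ) :
    ∑ ℓ : P → Fin 3 × B, f ℓ = ∑ μ : P → Fin 3, ∑ b : P → B, f (fun v => (μ v, b v)) := by
  rw [← Fintype.sum_prod_type' (f := fun (μ : P → Fin 3) (b : P → B) => f (fun v => (μ v, b v)))]
  refine Fintype.sum_equiv
    { toFun := fun ℓ : P → Fin 3 × B => ((fun v => (ℓ v).1, fun v => (ℓ v).2) : (P → Fin 3) × (P → B))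
      invFun := fun p v => (p.1 v, p.2 v)
      left_inv := fun _ => rfl
      right_inv := fun _ => rfl } _ _ fun ℓ => rfl

omit [Fintype B] in
theorem W_pr (s t : ℝ) (β : B → ℝ) (μ : P → Fin 3) (b : P → B) :
    W s t β (fun v => (μ v, b v)) = MW s t μ * BW β b := by
  unfold W MW BW
  rw [Finset.prod_mul_distrib]

theorem MW_eq (s t : ℝ) (μ : P → Fin 3) : MW s t μ = s ^ nm 1 μ * t ^ nm 2 μ := by
  unfold MW nm
  rw [Finset.card_filter, Finset.card_filter, ← Finset.prod_pow_eq_pow_sum,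
    ← Finset.prod_pow_eq_pow_sum, ← Finset.prod_mul_distrib]
  apply Finset.prod_congr rfl
  intro v _
  unfold mk
  generalize μ v = z
  fin_cases z <;> simp

theorem nz_eq (μ : P → Fin 3) : nz μ = nm 1 μ + nm 2 μ := by
  unfold nz nm
  rw [Finset.card_filter, Finset.card_filter, Finset.card_filter, ← Finset.sum_add_distrib]
  apply Finset.sum_congr rfl
  intro v _
  generalize μ v = z
  fin_cases z <;> simp

theorem nm_le (z : Fin 3) (μ : P → Fin 3) : nm z μ ≤ Fintype.card P := by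
  unfold nm
  exact (Finset.card_filter_le _ _).trans (by rw [Finset.card_univ])

theorem nm_sum (μ : P → Fin 3) : nm 0 μ + nm 1 μ + nm 2 μ = Fintype.card P := by
  unfold nm
  rw [Finset.card_filter, Finset.card_filter, Finset.card_filter, ← Finset.sum_add_distrib,
    ← Finset.sum_add_distrib, Fintype.card_eq_sum_ones]
  apply Finset.sum_congr rfl
  intro v _
  generalize μ v = z
  fin_cases z <;> simp

omit [Fintype B] in
theorem BW_perm (β : B → ℝ) (b : P → B) (σ : Equiv.Perm P) : BW β (b ∘ σ) = BW β b := by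
  unfold BW
  exact Equiv.prod_comp σ fun v => β (b v)

theorem exists_perm (μ ν : P → Fin 3) (h1 : nm 1 μ = nm 1 ν) (h2 : nm 2 μ = nm 2 ν) :
    ∃ σ : Equiv.Perm P, μ = ν ∘ σ := by
  classical
  have h0 : nm 0 μ = nm 0 ν := by
    have a := nm_sum μ
    have b := nm_sum ν
    omega
  have h : ∀ z : Fin 3, Fintype.card {v // μ v = z} = Fintype.card {v // ν v = z} := by
    intro z
    rw [Fintype.card_subtype, Fintype.card_subtype]
    fin_cases z
    · exact h0
    · exact h1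
    · exact h2
  refine ⟨(Equiv.sigmaFiberEquiv μ).symm.trans
    ((Equiv.sigmaCongrRight fun z => Fintype.equivOfCardEq (h z)).trans (Equiv.sigmaFiberEquiv ν)), ?_⟩
  funext v
  simp only [Function.comp_apply, Equiv.trans_apply]
  generalize hw : (Equiv.sigmaCongrRight fun z => Fintype.equivOfCardEq (h z))
    ((Equiv.sigmaFiberEquiv μ).symm v) = w
  have e1 : w.1 = μ v := by
    rw [← hw]
    rfl
  have e2 : ν ((Equiv.sigmaFiberEquiv ν) w) = w.1 := w.2.2
  rw [e2, e1]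

end

section
variable {C R B : Type} [Fintype C] [DecidableEq C] [Fintype R] [DecidableEq R] [Fintype B]

/-- the sum over the parts of the second group -/
def A (β : B → ℝ) (F : (C ⊕ R → Fin 3 × B) → ℝ) (νC : C → Fin 3) (ρ : R → Fin 3) (b : C → B) : ℝ :=
  ∑ b' : R → B, BW β b' * F (fun v => (Sum.elim νC ρ v, Sum.elim b b' v))

/-- the sum over the labels of the second group -/
def g (β : B → ℝ) (F : (C ⊕ R → Fin 3 × B) → ℝ) (νC : C → Fin 3) (s t : ℝ) (b : C → B) : ℝ :=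
  ∑ ρ : R → Fin 3, MW s t ρ * A β F νC ρ b

omit [DecidableEq C] [Fintype C] in
theorem inner_eq (β : B → ℝ) (F : (C ⊕ R → Fin 3 × B) → ℝ) (νC : C → Fin 3) (s t : ℝ) (b : C → B) :
    ∑ r : R → Fin 3 × B, W s t β r * F (Sum.elim (fun v => (νC v, b v)) r) = g β F νC s t b := by
  rw [sum_pr]
  unfold g A
  apply Finset.sum_congr rfl
  intro ρ _
  rw [Finset.mul_sum]
  apply Finset.sum_congr rfl
  intro b' _
  rw [W_pr, mul_assoc]
  congr 2
  congr 1
  funext v
  rcases v with v | v <;> rfl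

theorem SS_ge (β : B → ℝ) (hβ : ∀ p, 0 ≤ β p) (F : (C ⊕ R → Fin 3 × B) → ℝ) (νC : C → Fin 3)
    (s t : ℝ) (hs : 0 ≤ s) (ht : 0 ≤ t) :
    MW s t νC * ∑ b : C → B, BW β b * g β F νC s t b ^ 2 ≤ SS β F s t := by
  unfold SS
  rw [sum_pr]
  have hM : ∀ μ : C → Fin 3, 0 ≤ MW s t μ := fun μ => by rw [MW_eq]; positivity
  have hB : ∀ b : C → B, 0 ≤ BW β b := fun b => Finset.prod_nonneg fun v _ => hβ _
  have h1 : ∀ μ : C → Fin 3, 0 ≤ ∑ b : C → B, W s t β (fun v => (μ v, b v)) *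
      (∑ r : R → Fin 3 × B, W s t β r * F (Sum.elim (fun v => (μ v, b v)) r)) ^ 2 := fun μ =>
    Finset.sum_nonneg fun b _ => by
      rw [W_pr]
      exact mul_nonneg (mul_nonneg (hM μ) (hB b)) (sq_nonneg _)
  refine le_trans (le_of_eq ?_) (Finset.single_le_sum (fun μ _ => h1 μ) (Finset.mem_univ νC))
  rw [Finset.mul_sum]
  apply Finset.sum_congr rfl
  intro b _
  rw [inner_eq, W_pr, mul_assoc]

/-- the coefficients -/
def coef (β : B → ℝ) (F : (C ⊕ R → Fin 3 × B) → ℝ) (νC : C → Fin 3) (x y : ℕ) (b : C → B) : ℝ :=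
  ∑ ρ : R → Fin 3, if nm 1 ρ = x then (if nm 2 ρ = y then A β F νC ρ b else 0) else 0

omit [Fintype C] [DecidableEq C] in
theorem g_eq (β : B → ℝ) (F : (C ⊕ R → Fin 3 × B) → ℝ) (νC : C → Fin 3) (m : ℕ)
    (hm : Fintype.card R ≤ m) (s t : ℝ) (b : C → B) :
    g β F νC s t b =
      ∑ x ∈ range (m + 1), (∑ y ∈ range (m + 1), coef β F νC x y b * t ^ y) * s ^ x := by
  have h1 : ∀ ρ : R → Fin 3, MW s t ρ * A β F νC ρ b =
      ∑ x ∈ range (m + 1), (∑ y ∈ range (m + 1),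
        (if nm 1 ρ = x then (if nm 2 ρ = y then A β F νC ρ b else 0) else 0) * t ^ y) * s ^ x := by
    intro ρ
    rw [Finset.sum_eq_single (nm 1 ρ)]
    · rw [Finset.sum_eq_single (nm 2 ρ)]
      · rw [if_pos rfl, if_pos rfl, MW_eq]
        ring
      · intro y _ hy
        rw [if_pos rfl, if_neg (Ne.symm hy), zero_mul]
      · intro h
        exact absurd (Finset.mem_range.mpr (by have := nm_le 2 ρ; omega)) h
    · intro x _ hx
      simp only [if_neg (Ne.symm hx), zero_mul, Finset.sum_const_zero]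
    · intro h
      exact absurd (Finset.mem_range.mpr (by have := nm_le 1 ρ; omega)) h
  unfold g coef
  rw [Finset.sum_congr rfl fun ρ _ => h1 ρ, Finset.sum_comm]
  apply Finset.sum_congr rfl
  intro x _
  rw [← Finset.sum_mul]
  congr 1
  rw [Finset.sum_comm]
  apply Finset.sum_congr rfl
  intro y _
  rw [Finset.sum_mul]

omit [Fintype C] [DecidableEq C] [DecidableEq R] in
theorem A_perm [DecidableEq R] (β : B → ℝ) (F : (C ⊕ R → Fin 3 × B) → ℝ) (hF : RSym F)
    (νC : C → Fin 3) (ρ : R → Fin 3) (σ : Equiv.Perm R) (b : C → B) :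
    A β F νC (ρ ∘ σ) b = A β F νC ρ b := by
  unfold A
  refine Fintype.sum_equiv (Equiv.arrowCongr σ (Equiv.refl B)) _ _ fun b' => ?_
  have e : (Equiv.arrowCongr σ (Equiv.refl B)) b' = b' ∘ σ.symm := rfl
  rw [e, BW_perm β b' σ.symm]
  congr 1
  have := hF σ (fun v => (Sum.elim νC ρ v, Sum.elim b (b' ∘ σ.symm) v))
  rw [← this]
  congr 1
  funext v
  rcases v with v | v
  · rfl
  · simp

omit [Fintype C] [DecidableEq C] in
theorem coef_sq (β : B → ℝ) (F : (C ⊕ R → Fin 3 × B) → ℝ) (hF : RSym F)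
    (νC : C → Fin 3) (ρ : R → Fin 3) (b : C → B) :
    A β F νC ρ b ^ 2 ≤ coef β F νC (nm 1 ρ) (nm 2 ρ) b ^ 2 := by
  have h1 : coef β F νC (nm 1 ρ) (nm 2 ρ) b =
      ((univ.filter fun ρ' : R → Fin 3 => nm 1 ρ' = nm 1 ρ ∧ nm 2 ρ' = nm 2 ρ).card : ℝ) *
        A β F νC ρ b := by
    unfold coef
    rw [Finset.card_filter]
    push_cast
    rw [Finset.sum_mul]
    apply Finset.sum_congr rfl
    intro ρ' _
    by_cases a1 : nm 1 ρ' = nm 1 ρ
    · by_cases a2 : nm 2 ρ' = nm 2 ρ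
      · rw [if_pos a1, if_pos a2, if_pos ⟨a1, a2⟩, one_mul]
        obtain ⟨σ, rfl⟩ := exists_perm ρ' ρ a1 a2
        exact A_perm β F hF νC ρ σ b
      · rw [if_pos a1, if_neg a2, if_neg (fun h => a2 h.2), zero_mul]
    · rw [if_neg a1, if_neg (fun h => a1 h.1), zero_mul]
  rw [h1, mul_pow]
  have h2 : (1 : ℝ) ≤ ((univ.filter fun ρ' : R → Fin 3 => nm 1 ρ' = nm 1 ρ ∧ nm 2 ρ' = nm 2 ρ).card : ℝ) := by
    have : 0 < (univ.filter fun ρ' : R → Fin 3 => nm 1 ρ' = nm 1 ρ ∧ nm 2 ρ' = nm 2 ρ).card :=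
      Finset.card_pos.mpr ⟨ρ, by simp⟩
    exact_mod_cast this
  have h3 : (1 : ℝ) ≤ ((univ.filter fun ρ' : R → Fin 3 => nm 1 ρ' = nm 1 ρ ∧ nm 2 ρ' = nm 2 ρ).card : ℝ) ^ 2 :=
    one_le_pow₀ h2
  nlinarith [sq_nonneg (A β F νC ρ b)]

end

end EXTR

open EXTR in
theorem t_EXTR (hLAG : S_LAG) : S_EXTR := by
  intro C R B _ _ _ _ _ β hβ m hm δ hδ hδ1 F hF ν
  obtain ⟨lam, hl1, hl2⟩ := hLAG m δ hδ
  set νC : C → Fin 3 := ν ∘ Sum.inl with hνC
  set ρ₀ : R → Fin 3 := ν ∘ Sum.inr with hρ₀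
  set nd : ℕ → ℝ := fun i => δ * ((i : ℝ) + 1) ^ 2 with hnd
  have hnd1 : ∀ i, δ ≤ nd i := fun i => by
    have : (1 : ℝ) ≤ ((i : ℝ) + 1) ^ 2 := one_le_pow₀ (by
      have : (0 : ℝ) ≤ i := Nat.cast_nonneg i
      linarith)
    show δ ≤ δ * ((i : ℝ) + 1) ^ 2
    nlinarith
  have hnd0 : ∀ i, 0 ≤ nd i := fun i => hδ.le.trans (hnd1 i)
  set x := nm 1 ρ₀ with hx
  set y := nm 2 ρ₀ with hy
  have hxm : x ≤ m := (nm_le 1 ρ₀).trans hm
  have hym : y ≤ m := (nm_le 2 ρ₀).trans hm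
  have hB : ∀ b : C → B, 0 ≤ BW β b := fun b => Finset.prod_nonneg fun v _ => hβ _
  -- extraction
  have hext : ∀ b, coef β F νC x y b = ∑ i' ∈ range (m + 1), ∑ i ∈ range (m + 1),
      (lam y i' * lam x i) * g β F νC (nd i) (nd i') b := by
    intro b
    have h1 : ∀ t : ℝ, ∑ y' ∈ range (m + 1), coef β F νC x y' b * t ^ y' =
        ∑ i ∈ range (m + 1), lam x i * g β F νC (nd i) t b := by
      intro t
      have := hl2 x hxm (fun x' => ∑ y' ∈ range (m + 1), coef β F νC x' y' b * t ^ y')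
      rw [this]
      apply Finset.sum_congr rfl
      intro i _
      rw [g_eq β F νC m hm]
    have h2 := hl2 y hym (fun y' => coef β F νC x y' b)
    rw [h2]
    apply Finset.sum_congr rfl
    intro i' _
    have := h1 (nd i')
    rw [show ∑ z ∈ range (m + 1), coef β F νC x z b * (δ * ((i' : ℝ) + 1) ^ 2) ^ z =
      ∑ y' ∈ range (m + 1), coef β F νC x y' b * nd i' ^ y' from rfl, this, Finset.mul_sum]
    apply Finset.sum_congr rfl
    intro i _
    ring
  set Lx := ∑ i ∈ range (m + 1), |lam x i| with hLx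
  set Ly := ∑ i ∈ range (m + 1), |lam y i| with hLy
  have hsq : ∀ b, coef β F νC x y b ^ 2 ≤ (Lx * Ly) ^ 2 *
      ∑ i ∈ range (m + 1), ∑ i' ∈ range (m + 1), g β F νC (nd i) (nd i') b ^ 2 := by
    intro b
    set G := ∑ i ∈ range (m + 1), ∑ i' ∈ range (m + 1), g β F νC (nd i) (nd i') b ^ 2 with hG
    have hG0 : 0 ≤ G := Finset.sum_nonneg fun i _ => Finset.sum_nonneg fun i' _ => sq_nonneg _
    have hgle : ∀ i ∈ range (m + 1), ∀ i' ∈ range (m + 1), |g β F νC (nd i) (nd i') b| ≤ Real.sqrt G := by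
      intro i hi i' hi'
      apply Real.abs_le_sqrt
      calc g β F νC (nd i) (nd i') b ^ 2
          ≤ ∑ i' ∈ range (m + 1), g β F νC (nd i) (nd i') b ^ 2 :=
            Finset.single_le_sum (f := fun i' => g β F νC (nd i) (nd i') b ^ 2)
              (fun _ _ => sq_nonneg _) hi'
        _ ≤ G := Finset.single_le_sum
              (f := fun i => ∑ i' ∈ range (m + 1), g β F νC (nd i) (nd i') b ^ 2)
              (fun _ _ => Finset.sum_nonneg fun _ _ => sq_nonneg _) hi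
    have habs : |coef β F νC x y b| ≤ Lx * Ly * Real.sqrt G := by
      rw [hext b]
      calc |∑ i' ∈ range (m + 1), ∑ i ∈ range (m + 1),
            (lam y i' * lam x i) * g β F νC (nd i) (nd i') b|
          ≤ ∑ i' ∈ range (m + 1), ∑ i ∈ range (m + 1), |lam y i'| * |lam x i| * Real.sqrt G := by
            refine (Finset.abs_sum_le_sum_abs _ _).trans (Finset.sum_le_sum fun i' hi' => ?_)
            refine (Finset.abs_sum_le_sum_abs _ _).trans (Finset.sum_le_sum fun i hi => ?_)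
            rw [abs_mul, abs_mul]
            exact mul_le_mul_of_nonneg_left (hgle i hi i' hi') (by positivity)
        _ = Lx * Ly * Real.sqrt G := by
            rw [hLx, hLy, mul_comm (∑ i ∈ range (m + 1), |lam x i|), Finset.sum_mul_sum,
              Finset.sum_mul]
            apply Finset.sum_congr rfl
            intro i' _
            rw [Finset.sum_mul]
    have h3 : coef β F νC x y b ^ 2 ≤ (Lx * Ly * Real.sqrt G) ^ 2 := by
      rw [← sq_abs]
      exact pow_le_pow_left₀ (abs_nonneg _) habs 2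
    rwa [mul_pow, Real.sq_sqrt hG0] at h3
  have hLx0 : 0 ≤ Lx := Finset.sum_nonneg fun _ _ => abs_nonneg _
  have hLy0 : 0 ≤ Ly := Finset.sum_nonneg fun _ _ => abs_nonneg _
  have hL : (Lx * Ly) ^ 2 ≤ (6 * ((m : ℝ) + 1)) ^ 4 * (2 / δ) ^ (2 * nz ρ₀) := by
    have a1 := hl1 x hxm
    have a2 := hl1 y hym
    have h2δ : 0 < 2 / δ := by positivity
    calc (Lx * Ly) ^ 2 ≤ ((6 * ((m : ℝ) + 1) * (2 / δ) ^ x) * (6 * ((m : ℝ) + 1) * (2 / δ) ^ y)) ^ 2 :=
          pow_le_pow_left₀ (mul_nonneg hLx0 hLy0) (mul_le_mul a1 a2 hLy0 (by positivity)) 2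
      _ = (6 * ((m : ℝ) + 1)) ^ 4 * (2 / δ) ^ (2 * nz ρ₀) := by
          rw [nz_eq ρ₀, ← hx, ← hy]
          ring
  have hMW : ∀ i i', δ ^ nz νC ≤ MW (nd i) (nd i') νC := by
    intro i i'
    rw [MW_eq, nz_eq, pow_add]
    exact mul_le_mul (pow_le_pow_left₀ hδ.le (hnd1 i) _) (pow_le_pow_left₀ hδ.le (hnd1 i') _)
      (by positivity) (pow_nonneg (hnd0 i) _)
  have hSS : ∀ i i', ∑ b : C → B, BW β b * g β F νC (nd i) (nd i') b ^ 2 ≤
      (2 / δ) ^ nz νC * SS β F (nd i) (nd i') := by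
    intro i i'
    have h1 := SS_ge β hβ F νC (nd i) (nd i') (hnd0 i) (hnd0 i')
    set Z := ∑ b : C → B, BW β b * g β F νC (nd i) (nd i') b ^ 2 with hZ
    have hZ0 : 0 ≤ Z := Finset.sum_nonneg fun b _ => mul_nonneg (hB b) (sq_nonneg _)
    have h2 : δ ^ nz νC * Z ≤ SS β F (nd i) (nd i') :=
      (mul_le_mul_of_nonneg_right (hMW i i') hZ0).trans h1
    have hp : (0 : ℝ) < δ ^ nz νC := by positivity
    have h3 : Z ≤ (δ ^ nz νC)⁻¹ * SS β F (nd i) (nd i') := by
      rw [inv_mul_eq_div, le_div_iff₀ hp]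
      linarith
    refine h3.trans (mul_le_mul_of_nonneg_right ?_ ?_)
    · rw [← inv_pow]
      apply pow_le_pow_left₀ (by positivity)
      rw [inv_eq_one_div]
      exact div_le_div_of_nonneg_right (by norm_num) hδ.le
    · exact le_trans (mul_nonneg hp.le hZ0) h2
  clear_value Lx Ly
  have hDD : DD β F ν = ∑ b : C → B, BW β b * A β F νC ρ₀ b ^ 2 := by
    unfold DD A
    have : ν = Sum.elim νC ρ₀ := (Sum.elim_comp_inl_inr ν).symm
    rw [← this]
  calc DD β F ν = ∑ b : C → B, BW β b * A β F νC ρ₀ b ^ 2 := hDD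
    _ ≤ ∑ b : C → B, BW β b * ((Lx * Ly) ^ 2 *
        ∑ i ∈ range (m + 1), ∑ i' ∈ range (m + 1), g β F νC (nd i) (nd i') b ^ 2) :=
        Finset.sum_le_sum fun b _ => mul_le_mul_of_nonneg_left
          ((coef_sq β F hF νC ρ₀ b).trans (hsq b)) (hB b)
    _ = (Lx * Ly) ^ 2 * ∑ i ∈ range (m + 1), ∑ i' ∈ range (m + 1),
          ∑ b : C → B, BW β b * g β F νC (nd i) (nd i') b ^ 2 := by
        rw [Finset.mul_sum]
        have e1 : ∀ b : C → B, BW β b * ((Lx * Ly) ^ 2 *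
            ∑ i ∈ range (m + 1), ∑ i' ∈ range (m + 1), g β F νC (nd i) (nd i') b ^ 2) =
            ∑ i ∈ range (m + 1), (Lx * Ly) ^ 2 * ∑ i' ∈ range (m + 1),
              BW β b * g β F νC (nd i) (nd i') b ^ 2 := by
          intro b
          rw [← mul_assoc, mul_comm (BW β b), mul_assoc, Finset.mul_sum, Finset.mul_sum]
          apply Finset.sum_congr rfl
          intro i _
          rw [Finset.mul_sum]
        rw [Finset.sum_congr rfl fun b _ => e1 b, Finset.sum_comm]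
        apply Finset.sum_congr rfl
        intro i _
        rw [← Finset.mul_sum, Finset.sum_comm]
    _ ≤ (Lx * Ly) ^ 2 * ∑ i ∈ range (m + 1), ∑ i' ∈ range (m + 1),
          (2 / δ) ^ nz νC * SS β F (nd i) (nd i') :=
        mul_le_mul_of_nonneg_left (Finset.sum_le_sum fun i _ =>
          Finset.sum_le_sum fun i' _ => hSS i i') (sq_nonneg _)
    _ = (Lx * Ly) ^ 2 * ((2 / δ) ^ nz νC * nodes m δ (SS β F)) := by
        unfold nodes
        congr 1
        rw [Finset.mul_sum]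
        apply Finset.sum_congr rfl
        intro i _
        rw [Finset.mul_sum]
    _ ≤ ((6 * ((m : ℝ) + 1)) ^ 4 * (2 / δ) ^ (2 * nz ρ₀)) *
          ((2 / δ) ^ nz νC * nodes m δ (SS β F)) := by
        refine mul_le_mul_of_nonneg_right hL ?_
        apply mul_nonneg (by positivity)
        unfold nodes
        refine Finset.sum_nonneg fun i _ => Finset.sum_nonneg fun i' _ => ?_
        have h1 := SS_ge β hβ F νC (nd i) (nd i') (hnd0 i) (hnd0 i')
        refine le_trans (mul_nonneg ?_ ?_) h1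
        · exact le_trans (by positivity) (hMW i i')
        · exact Finset.sum_nonneg fun b _ => mul_nonneg (hB b) (sq_nonneg _)
    _ = (6 * ((m : ℝ) + 1)) ^ 4 * (2 / δ) ^ (2 * nz ρ₀ + nz νC) * nodes m δ (SS β F) := by
        rw [pow_add]; ring

end Pool.Agent.T3h36.PP
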