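import Pool.Agent.T3h36.PP.Stm

/-!
# (GRAPH) simple facts on `GG`
-/

set_option autoImplicit false
open Finset
open Pool.Agent.T2h36 Pool.Agent.T2h36.Uni

namespace Pool.Agent.T3h36.PP

theorem mem_GG {V A : Type} [Fintype V] [DecidableEq V] (R : A → A → A → Prop) (ℓ : V → A)
    (e : Finset V) : e ∈ GG R ℓ ↔
      ∃ a b c : V, a ≠ b ∧ a ≠ c ∧ b ≠ c ∧ e = {a, b, c} ∧ R (ℓ a) (ℓ b) (ℓ c) := by
  classical
  unfold GG
  rw [Finset.mem_filter]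
  simp only [mem_univ, true_and]

theorem is3_GG {V A : Type} [Fintype V] [DecidableEq V] (R : A → A → A → Prop) (ℓ : V → A) :
    Is3 (GG R ℓ) := by
  intro e he
  rw [mem_GG] at he
  obtain ⟨a, b, c, hab, hac, hbc, rfl, -⟩ := he
  exact Finset.card_eq_three.mpr ⟨a, b, c, hab, hac, hbc, rfl⟩

theorem pull_GG {V U A : Type} [Fintype V] [DecidableEq V] [Fintype U] [DecidableEq U]
    (R : A → A → A → Prop) (ℓ : V → A) (χ : U ↪ V) : pull χ (GG R ℓ) = GG R (ℓ ∘ χ) := by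
  ext e
  rw [mem_pull, mem_GG, mem_GG]
  constructor
  · rintro ⟨a, b, c, hab, hac, hbc, he, hR⟩
    have ha : a ∈ e.map χ := by rw [he]; simp
    have hb : b ∈ e.map χ := by rw [he]; simp
    have hc : c ∈ e.map χ := by rw [he]; simp
    rw [Finset.mem_map] at ha hb hc
    obtain ⟨a', -, rfl⟩ := ha
    obtain ⟨b', -, rfl⟩ := hb
    obtain ⟨c', -, rfl⟩ := hc
    refine ⟨a', b', c', fun h => hab (by rw [h]), fun h => hac (by rw [h]),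
      fun h => hbc (by rw [h]), ?_, hR⟩
    apply Finset.map_injective χ
    rw [he]
    simp
  · rintro ⟨a, b, c, hab, hac, hbc, rfl, hR⟩
    exact ⟨χ a, χ b, χ c, fun h => hab (χ.injective h), fun h => hac (χ.injective h),
      fun h => hbc (χ.injective h), by simp, hR⟩

theorem non3_swap {L : ℕ} {p q r : ZMod L} (h : non3 p q r) : non3 q p r := by
  unfold non3 at *
  rcases h with ⟨h1, h2⟩ | ⟨h1, h2⟩ | ⟨h1, h2⟩ | ⟨h1, h2⟩
  · exact Or.inl ⟨h1.symm, by rw [h1, h2]⟩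
  · exact Or.inr (Or.inl ⟨h1.symm, by rw [h2, h1]⟩)
  · exact Or.inr (Or.inr (Or.inr ⟨h1, h2⟩))
  · exact Or.inr (Or.inr (Or.inl ⟨h1, h2⟩))

theorem non3_rot {L : ℕ} {p q r : ZMod L} (h : non3 p q r) : non3 p r q := by
  unfold non3 at *
  rcases h with ⟨h1, h2⟩ | ⟨h1, h2⟩ | ⟨h1, h2⟩ | ⟨h1, h2⟩
  · exact Or.inl ⟨h1.trans h2, h2.symm⟩
  · exact Or.inr (Or.inr (Or.inl ⟨h1, h2⟩))
  · exact Or.inr (Or.inl ⟨h1, h2⟩)
  · exact Or.inr (Or.inr (Or.inr ⟨h1.symm, by rw [h2, h1]⟩))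

theorem sym3_rT (L : ℕ) : Sym3 (@rT L) := by
  intro a b c
  exact ⟨fun h h' => h (non3_swap h'), fun h h' => h (non3_rot h')⟩

theorem sym3_rQ (L : ℕ) : Sym3 (@rQ L) := by
  intro a b c
  constructor
  · intro h
    unfold rQ at *
    rcases h with ⟨h1, h2, h3⟩ | ⟨h1, h2, h3⟩ | ⟨h1, h2, h3⟩ | ⟨h1, h2, h3, h4⟩
    · exact Or.inl ⟨h2, h1, h3⟩
    · exact Or.inr (Or.inr (Or.inl ⟨h1, h2, h3⟩))
    · exact Or.inr (Or.inl ⟨h1, h2, h3⟩)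
    · exact Or.inr (Or.inr (Or.inr ⟨fun h => h1 h.symm, h3, h2, (sym3_rT L a b c).1 h4⟩))
  · intro h
    unfold rQ at *
    rcases h with ⟨h1, h2, h3⟩ | ⟨h1, h2, h3⟩ | ⟨h1, h2, h3⟩ | ⟨h1, h2, h3, h4⟩
    · exact Or.inr (Or.inl ⟨h1, h2, h3⟩)
    · exact Or.inl ⟨h1, h2, h3⟩
    · exact Or.inr (Or.inr (Or.inl ⟨h2, h1, h3⟩))
    · exact Or.inr (Or.inr (Or.inr ⟨h2, h1, fun h => h3 h.symm, (sym3_rT L a b c).2 h4⟩))

theorem sym3_rR (L : ℕ) : Sym3 (@rR L) := by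
  intro a b c
  constructor
  · rintro ⟨h, h1, h2, h3⟩
    exact ⟨(sym3_rQ L a b c).1 h, fun h => h1 h.symm, h3, h2⟩
  · rintro ⟨h, h1, h2, h3⟩
    exact ⟨(sym3_rQ L a b c).2 h, h2, h1, fun h => h3 h.symm⟩

theorem nm_le {P B : Type} [Fintype P] [DecidableEq P] (z : Fin 3) (ℓ : P → Fin 3 × B)
    (h : nm z (mks ℓ) ≤ 1) (a b : P) (hab : a ≠ b) : ¬ ((ℓ a).1 = z ∧ (ℓ b).1 = z) := by
  rintro ⟨h1, h2⟩
  unfold nm at h
  have : ({a, b} : Finset P) ⊆ univ.filter fun v => mks ℓ v = z := by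
    intro x hx
    rw [Finset.mem_insert, Finset.mem_singleton] at hx
    rw [Finset.mem_filter]
    rcases hx with rfl | rfl
    · exact ⟨mem_univ _, h1⟩
    · exact ⟨mem_univ _, h2⟩
  have := Finset.card_le_card this
  rw [Finset.card_pair hab] at this
  omega

theorem t_GRAPH : S_GRAPH := by
  refine ⟨fun V A _ _ R ℓ => is3_GG R ℓ, fun V U A _ _ _ _ R ℓ χ => pull_GG R ℓ χ,
    fun L _ => ⟨sym3_rT L, sym3_rQ L, sym3_rR L⟩, ?_, ?_⟩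
  · intro L V _ _ ℓ h
    ext e
    rw [mem_GG, mem_GG]
    have key : ∀ a b c : V, a ≠ b → a ≠ c → b ≠ c → (rQ (ℓ a) (ℓ b) (ℓ c) ↔ rT (ℓ a) (ℓ b) (ℓ c)) := by
      intro a b c hab hac hbc
      have h1 := nm_le 1 ℓ h a b hab
      have h2 := nm_le 1 ℓ h a c hac
      have h3 := nm_le 1 ℓ h b c hbc
      unfold rQ
      constructor
      · rintro (⟨g1, g2, -⟩ | ⟨g1, g2, -⟩ | ⟨g1, g2, -⟩ | ⟨-, -, -, g⟩)
        · exact absurd ⟨g1, g2⟩ h1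
        · exact absurd ⟨g1, g2⟩ h2
        · exact absurd ⟨g1, g2⟩ h3
        · exact g
      · intro g
        exact Or.inr (Or.inr (Or.inr ⟨h1, h2, h3, g⟩))
    constructor
    · rintro ⟨a, b, c, hab, hac, hbc, he, hR⟩
      exact ⟨a, b, c, hab, hac, hbc, he, (key a b c hab hac hbc).1 hR⟩
    · rintro ⟨a, b, c, hab, hac, hbc, he, hR⟩
      exact ⟨a, b, c, hab, hac, hbc, he, (key a b c hab hac hbc).2 hR⟩
  · intro L V _ _ ℓ h
    ext e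
    rw [mem_GG, mem_GG]
    constructor
    · rintro ⟨a, b, c, hab, hac, hbc, he, hR⟩
      exact ⟨a, b, c, hab, hac, hbc, he, hR, nm_le 2 ℓ h a b hab, nm_le 2 ℓ h a c hac,
        nm_le 2 ℓ h b c hbc⟩
    · rintro ⟨a, b, c, hab, hac, hbc, he, hR, -⟩
      exact ⟨a, b, c, hab, hac, hbc, he, hR⟩

end Pool.Agent.T3h36.PP
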