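import Pool.Agent.T3h36.PP.Stm

set_option autoImplicit false
open Finset Polynomial

namespace Pool.Agent.T3h36.PP
namespace LAG

/-- coefficientwise domination -/
def Dom (P Q : ℝ[X]) : Prop := ∀ x, |P.coeff x| ≤ Q.coeff x

theorem dom_mul {P₁ P₂ Q₁ Q₂ : ℝ[X]} (h₁ : Dom P₁ Q₁) (h₂ : Dom P₂ Q₂) : Dom (P₁ * P₂) (Q₁ * Q₂) := by
  intro x
  rw [coeff_mul, coeff_mul]
  refine (Finset.abs_sum_le_sum_abs _ _).trans (Finset.sum_le_sum fun p _ => ?_)
  rw [abs_mul]
  exact mul_le_mul (h₁ _) (h₂ _) (abs_nonneg _) ((abs_nonneg _).trans (h₁ _))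

theorem dom_prod {ι : Type} (s : Finset ι) (P Q : ι → ℝ[X]) (h : ∀ i ∈ s, Dom (P i) (Q i)) :
    Dom (∏ i ∈ s, P i) (∏ i ∈ s, Q i) := by
  classical
  induction s using Finset.induction_on with
  | empty =>
    intro x
    rw [Finset.prod_empty, Finset.prod_empty, coeff_one]
    split_ifs <;> simp
  | insert a s ha ih =>
    rw [Finset.prod_insert ha, Finset.prod_insert ha]
    exact dom_mul (h a (Finset.mem_insert_self _ _))
      (ih fun i hi => h i (Finset.mem_insert_of_mem hi))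

theorem dom_eval {P Q : ℝ[X]} (h : Dom P Q) (u : ℝ) (hu : 0 ≤ u) (x : ℕ) :
    |P.coeff x| * u ^ x ≤ Q.eval u := by
  have h0 : ∀ y, 0 ≤ Q.coeff y := fun y => (abs_nonneg _).trans (h y)
  rw [eval_eq_sum_range]
  by_cases hx : x ≤ Q.natDegree
  · refine (mul_le_mul_of_nonneg_right (h x) (pow_nonneg hu x)).trans ?_
    exact Finset.single_le_sum (f := fun i => Q.coeff i * u ^ i)
      (fun i _ => mul_nonneg (h0 i) (pow_nonneg hu i)) (Finset.mem_range.mpr (by omega))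
  · have h1 : Q.coeff x = 0 := coeff_eq_zero_of_natDegree_lt (by omega)
    have h2 : |P.coeff x| = 0 := le_antisymm (by rw [← h1]; exact h x) (abs_nonneg _)
    rw [h2, zero_mul]
    exact Finset.sum_nonneg fun i _ => mul_nonneg (h0 i) (pow_nonneg hu i)

theorem sum_inv_sq (n : ℕ) : ∑ k ∈ range (n + 1), 1 / ((k : ℝ) + 1) ^ 2 ≤ 2 - 1 / ((n : ℝ) + 1) := by
  induction n with
  | zero => simp; norm_num
  | succ n ih =>
    rw [Finset.sum_range_succ]
    have h1 : 1 / ((((n + 1 : ℕ)) : ℝ) + 1) ^ 2 ≤ 1 / ((n : ℝ) + 1) - 1 / ((((n + 1 : ℕ)) : ℝ) + 1) := by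
      push_cast
      rw [div_sub_div _ _ (by positivity) (by positivity), div_le_div_iff₀ (by positivity)
        (by positivity)]
      have hn : (0 : ℝ) ≤ n := Nat.cast_nonneg n
      nlinarith [sq_nonneg ((n : ℝ) + 1), mul_nonneg hn hn]
    linarith

theorem nodes_abs (m : ℕ) (δ : ℝ) (hδ : 0 < δ) (i k : ℕ) :
    |δ * ((i : ℝ) + 1) ^ 2 - δ * ((k : ℝ) + 1) ^ 2| =
      δ * |(((k + 1 : ℕ)) : ℝ) ^ 2 - (((i + 1 : ℕ)) : ℝ) ^ 2| := by
  rw [← mul_sub, abs_mul, abs_of_pos hδ, abs_sub_comm]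
  push_cast
  rfl

theorem prod1 (hL : S_LAG1) (m : ℕ) (δ : ℝ) (hδ : 0 < δ) (i : ℕ) (hi : i ∈ range (m + 1)) :
    ∏ k ∈ (range (m + 1)).erase i, (δ * ((k : ℝ) + 1) ^ 2 /
      |δ * ((i : ℝ) + 1) ^ 2 - δ * ((k : ℝ) + 1) ^ 2|) ≤ 2 := by
  have hi' := Finset.mem_range.mp hi
  have h := hL (m + 1) (i + 1) (by omega) (by omega)
  refine le_of_eq_of_le ?_ h
  refine Finset.prod_bij (fun k _ => k + 1) ?_ ?_ ?_ ?_
  · intro k hk
    simp only [mem_erase, mem_range, mem_Icc] at hk ⊢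
    omega
  · intro a _ b _ hab
    omega
  · intro b hb
    simp only [mem_erase, mem_Icc] at hb
    refine ⟨b - 1, ?_, by omega⟩
    simp only [mem_erase, mem_range]
    omega
  · intro k hk
    rw [nodes_abs m δ hδ, mul_div_mul_left _ _ hδ.ne']
    push_cast
    rfl

theorem prod2 (m : ℕ) (δ : ℝ) (hδ : 0 < δ) (i : ℕ) :
    ∏ k ∈ (range (m + 1)).erase i, (1 + δ / 2 / (δ * ((k : ℝ) + 1) ^ 2)) ≤ Real.exp 1 := by
  have h1 : ∀ k ∈ (range (m + 1)).erase i, (1 + δ / 2 / (δ * ((k : ℝ) + 1) ^ 2)) ≤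
      Real.exp (1 / 2 * (1 / ((k : ℝ) + 1) ^ 2)) := by
    intro k _
    have e : δ / 2 / (δ * ((k : ℝ) + 1) ^ 2) = 1 / 2 * (1 / ((k : ℝ) + 1) ^ 2) := by
      field_simp
    rw [e, add_comm]
    exact Real.add_one_le_exp _
  refine (Finset.prod_le_prod (fun k _ => by positivity) h1).trans ?_
  rw [← Real.exp_sum]
  apply Real.exp_le_exp.mpr
  rw [← Finset.mul_sum]
  have h2 : ∑ k ∈ (range (m + 1)).erase i, 1 / ((k : ℝ) + 1) ^ 2 ≤
      ∑ k ∈ range (m + 1), 1 / ((k : ℝ) + 1) ^ 2 :=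
    Finset.sum_le_sum_of_subset_of_nonneg (Finset.erase_subset _ _) fun k _ _ => by positivity
  have h3 := sum_inv_sq m
  have h4 : (0 : ℝ) < 1 / ((m : ℝ) + 1) := by positivity
  linarith

/-- the node -/
noncomputable def nd (δ : ℝ) (i : ℕ) : ℝ := δ * ((i : ℝ) + 1) ^ 2

theorem nd_inj (δ : ℝ) (hδ : 0 < δ) : Function.Injective (nd δ) := by
  intro a b h
  unfold nd at h
  have h1 := mul_left_cancel₀ hδ.ne' h
  have h2 : (a : ℝ) + 1 = (b : ℝ) + 1 := by
    have ha : (0 : ℝ) ≤ (a : ℝ) + 1 := by positivity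
    have hb : (0 : ℝ) ≤ (b : ℝ) + 1 := by positivity
    exact (pow_left_inj₀ ha hb two_ne_zero).mp h1
  exact_mod_cast add_right_cancel h2

theorem bound (hL : S_LAG1) (m : ℕ) (δ : ℝ) (hδ : 0 < δ) (i : ℕ) (hi : i ∈ range (m + 1)) (x : ℕ) :
    |(Lagrange.basis (range (m + 1)) (nd δ) i).coeff x| ≤ 6 * (2 / δ) ^ x := by
  set u := δ / 2 with hu
  have hu0 : 0 < u := by positivity
  have hd : Dom (Lagrange.basis (range (m + 1)) (nd δ) i)
      (∏ k ∈ (range (m + 1)).erase i, (C (|nd δ i - nd δ k|⁻¹) * (X + C (nd δ k)))) := by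
    unfold Lagrange.basis
    apply dom_prod
    intro k _ y
    unfold Lagrange.basisDivisor
    rw [coeff_C_mul, coeff_C_mul, abs_mul, abs_inv]
    refine mul_le_mul_of_nonneg_left ?_ (by positivity)
    have hk : 0 ≤ nd δ k := by unfold nd; positivity
    rcases y with _ | _ | y
    · simp [abs_of_nonneg hk]
    · simp
    · simp [coeff_X, coeff_C]
  have h1 := dom_eval hd u hu0.le x
  rw [eval_prod] at h1
  have h2 : ∏ k ∈ (range (m + 1)).erase i, eval u (C (|nd δ i - nd δ k|⁻¹) * (X + C (nd δ k))) =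
      (∏ k ∈ (range (m + 1)).erase i, (nd δ k / |nd δ i - nd δ k|)) *
      ∏ k ∈ (range (m + 1)).erase i, (1 + u / nd δ k) := by
    rw [← Finset.prod_mul_distrib]
    apply Finset.prod_congr rfl
    intro k _
    have hk : nd δ k ≠ 0 := by unfold nd; positivity
    simp only [eval_mul, eval_C, eval_add, eval_X]
    field_simp
    ring
  have h3 : (∏ k ∈ (range (m + 1)).erase i, (nd δ k / |nd δ i - nd δ k|)) ≤ 2 :=
    prod1 hL m δ hδ i hi
  have h4 : ∏ k ∈ (range (m + 1)).erase i, (1 + u / nd δ k) ≤ Real.exp 1 := prod2 m δ hδ i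
  have h5 : 0 ≤ ∏ k ∈ (range (m + 1)).erase i, (1 + u / nd δ k) :=
    Finset.prod_nonneg fun k _ => by
      have hk : 0 < nd δ k := by unfold nd; positivity
      positivity
  have h6 : |(Lagrange.basis (range (m + 1)) (nd δ) i).coeff x| * u ^ x ≤ 6 := by
    refine h1.trans ?_
    rw [h2]
    have := mul_le_mul h3 h4 h5 (by norm_num : (0 : ℝ) ≤ 2)
    have he := Real.exp_one_lt_d9
    linarith
  have h7 : (2 / δ) ^ x = (u ^ x)⁻¹ := by
    rw [← inv_pow]
    congr 1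
    rw [hu, inv_div]
  rw [h7, ← div_eq_mul_inv, le_div_iff₀ (pow_pos hu0 x)]
  exact h6

end LAG

theorem t_LAG (hL : S_LAG1) : S_LAG := by
  intro m δ hδ
  refine ⟨fun x i => (Lagrange.basis (range (m + 1)) (LAG.nd δ) i).coeff x, ?_, ?_⟩
  · intro x _
    have : ∑ i ∈ range (m + 1), |(Lagrange.basis (range (m + 1)) (LAG.nd δ) i).coeff x| ≤
        ∑ _i ∈ range (m + 1), 6 * (2 / δ) ^ x :=
      Finset.sum_le_sum fun i hi => LAG.bound hL m δ hδ i hi x
    refine this.trans (le_of_eq ?_)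
    rw [Finset.sum_const, Finset.card_range, nsmul_eq_mul]
    push_cast
    ring
  · intro x hx c
    set G : ℝ[X] := ∑ z ∈ range (m + 1), C (c z) * X ^ z with hG
    have hdeg : G.degree < ((range (m + 1)).card : WithBot ℕ) := by
      rw [Finset.card_range]
      refine (degree_sum_le _ _).trans_lt ?_
      rw [Finset.sup_lt_iff (WithBot.bot_lt_coe _)]
      intro z hz
      refine (degree_C_mul_X_pow_le z (c z)).trans_lt ?_
      exact_mod_cast Finset.mem_range.mp hz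
    have hev : ∀ i, G.eval (LAG.nd δ i) =
        ∑ z ∈ range (m + 1), c z * (δ * ((i : ℝ) + 1) ^ 2) ^ z := by
      intro i
      rw [hG, eval_finset_sum]
      apply Finset.sum_congr rfl
      intro z _
      simp [LAG.nd]
    have hint := Lagrange.eq_interpolate (s := range (m + 1)) (v := LAG.nd δ)
      ((LAG.nd_inj δ hδ).injOn) hdeg
    have hcx : G.coeff x = c x := by
      rw [hG, finset_sum_coeff]
      simp only [coeff_C_mul, coeff_X_pow]
      rw [Finset.sum_eq_single x]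
      · simp
      · intro b _ hb
        simp [hb.symm]
      · intro h
        exact absurd (Finset.mem_range.mpr (by omega)) h
    rw [← hcx]
    conv_lhs => rw [hint]
    rw [Lagrange.interpolate_apply, finset_sum_coeff]
    apply Finset.sum_congr rfl
    intro i _
    rw [coeff_C_mul, hev i]
    ring

end Pool.Agent.T3h36.PP
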