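import Pool.Agent.T3h36.PP.Stm

/-!
# Task LBP
-/

set_option autoImplicit false
open Finset
open Pool.Agent.T2h36 Pool.Agent.T2h36.Uni

namespace Pool.Agent.T3h36.PP

namespace LBP

theorem finSq_congr {k m : ℕ} {V : Type} [Fintype V] [DecidableEq V]
    {f g : Finset (Finset (Fin k ⊕ Fin m)) → ℝ} (H : Finset (Finset V))
    (h : ∀ η : Fin k ↪ V, ext f H η = ext g H η) : finSq f H = finSq g H := by
  unfold finSq
  exact Finset.sum_congr rfl fun η _ => by rw [h]

/-- the local form of the square -/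
noncomputable def Lc {k m : ℕ} (c : Finset (Fin m) → ℝ)
    (f : Finset (Finset (Fin k ⊕ Fin m)) → ℝ) (G : Finset (Finset (Fin k ⊕ (Fin m ⊕ Fin m)))) : ℝ :=
  ∑ J, c J * (f (pull (left k m) G) * f (pull (aJ k m J) G))

end LBP

open LBP in
theorem t_LBP (hs : S_SYM) (hl : S_LOCJ) (hu : S_UNQK) (hg : S_GAP) : S_LBP := by
  intro κ hκ k m hm hN V _ _ r f M hn1 hM
  obtain ⟨N, hNd⟩ : ∃ N, N = k + 2 * m := ⟨_, rfl⟩
  have hn0 : 3 ≤ Fintype.card V := hN.trans hn1
  obtain ⟨c, hc⟩ : ∃ c : ℝ, c = (((Fintype.card V).choose 3 : ℕ) : ℝ) := ⟨_, rfl⟩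
  have hc0 : 0 < c := by
    rw [hc]
    exact_mod_cast Nat.choose_pos hn0
  rw [← hc]
  -- symmetrisation
  choose fs hfs1 hfs2 using fun j => hs k m (f j)
  have hM' : ∀ H : Finset (Finset V), Is3 H → CliqueFree3 κ H →
      (H.card : ℝ) + ∑ j : Fin r, finSq (fs j) H = M := by
    intro H h3 h4
    rw [← hM H h3 h4]
    congr 1
    exact Finset.sum_congr rfl fun j _ => finSq_congr H fun η => hfs2 j V H η
  obtain ⟨cJ, hcJ0, hcJ⟩ := hl k m V hn1
  have hcJ' : ∀ (j : Fin r) (H : Finset (Finset V)), finSq (fs j) H = avg (Lc cJ (fs j)) H :=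
    fun j H => hcJ (fs j) (hfs1 j) H
  rw [← hNd] at hn1 hN
  have hA : Fintype.card (Fin k ⊕ (Fin m ⊕ Fin m)) = N := by
    simp only [Fintype.card_sum, Fintype.card_fin]
    omega
  -- the local function
  obtain ⟨Φ, hΦ⟩ : ∃ Φ : Finset (Finset (Fin N)) → ℝ, Φ = fun G => (c * avg psi3 G +
      ∑ j : Fin r, avg (Lc cJ (fs j)) G) + (-M) := ⟨_, rfl⟩
  have havg : ∀ (W : Type) [Fintype W] [DecidableEq W] (H : Finset (Finset W)), N ≤ Fintype.card W →
      avg Φ H = (c * avg psi3 H + ∑ j : Fin r, avg (Lc cJ (fs j)) H) + (-M) := by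
    intro W _ _ H hW
    have hcN : Fintype.card (Fin N) ≤ Fintype.card W := by simpa using hW
    rw [hΦ, avg_add, avg_add, avg_smul, avg_const _ _ hcN, avg_sum]
    congr 2
    · rw [avg_avg psi3 H (by simpa using hN) hcN]
    · refine Finset.sum_congr rfl fun j _ => ?_
      rw [avg_avg (Lc cJ (fs j)) H (by rw [hA]; simp) hcN]
  have hz : ∀ H : Finset (Finset V), Is3 H → CliqueFree3 κ H → avg Φ H = 0 := by
    intro H h3 h4
    rw [havg V H hn1]
    have h5 := hM' H h3 h4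
    have h6 : (H.card : ℝ) = c * avg psi3 H := by
      rw [← edgeDens_eq H h3 hn0]
      unfold edgeDens
      rw [← hc, mul_div_cancel₀ _ hc0.ne']
    rw [h6, Finset.sum_congr rfl fun j _ => hcJ' j H] at h5
    linarith
  have hu' := hu κ (by omega) N V hn1 Φ hz
  -- the rescaled certificate
  have hfin : ∀ G : Finset (Finset (Fin (k + 2 * m))), Is3 G → CliqueFree3 κ G →
      edgeDens G + ∑ j : Fin r, avg (fun G' : Finset (Finset (Fin k ⊕ (Fin m ⊕ Fin m))) =>
        ∑ J, cJ J / c * (fs j (pull (left k m) G') * fs j (pull (aJ k m J) G'))) G ≤ M / c := by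
    rw [← hNd]
    intro G h3 h4
    have h5 := hu' G h3 h4
    rw [havg (Fin N) G (by simp)] at h5
    have h6 : ∀ j : Fin r, avg (fun G' : Finset (Finset (Fin k ⊕ (Fin m ⊕ Fin m))) =>
        ∑ J, cJ J / c * (fs j (pull (left k m) G') * fs j (pull (aJ k m J) G'))) G =
        1 / c * avg (Lc cJ (fs j)) G := by
      intro j
      rw [← avg_smul]
      congr 1
      funext G'
      unfold Lc
      rw [Finset.mul_sum]
      exact Finset.sum_congr rfl fun J _ => by ring
    rw [Finset.sum_congr rfl fun j _ => h6 j, edgeDens_eq G h3 (by simpa using hN),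
      le_div_iff₀ hc0, add_mul, Finset.sum_mul]
    have h8 : ∀ j : Fin r, 1 / c * avg (Lc cJ (fs j)) G * c = avg (Lc cJ (fs j)) G := by
      intro j
      field_simp
    rw [Finset.sum_congr rfl fun j _ => h8 j]
    linarith
  have hbd := hg κ hκ k m hm (by rw [← hNd]; exact hN) r fs hfs1 (fun J => cJ J / c)
    (fun J => div_nonneg (hcJ0 J) hc0.le) (M / c) hfin
  have h11 := mul_le_mul_of_nonneg_right hbd hc0.le
  rwa [div_mul_cancel₀ _ hc0.ne'] at h11

end Pool.Agent.T3h36.PP
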