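import Pool.Agent.T3h36.PP.Stm

set_option autoImplicit false
open Finset
open Pool.Agent.T2h36 Pool.Agent.T2h36.Uni

namespace Pool.Agent.T3h36.PP

namespace LOCJ

theorem aJ_empty (k m : ℕ) : aJ k m ∅ = right k m := by
  ext x
  rcases x with x | x
  · rfl
  · simp only [aJ, right, Function.Embedding.coeFn_mk, Sum.elim_inr, notMem_empty, if_false,
      Function.Embedding.coe_sumMap, Sum.map_inr, Function.Embedding.inr_apply]

theorem square_eq {k m : ℕ} (f : Finset (Finset (Fin k ⊕ Fin m)) → ℝ)
    (G : Finset (Finset (Fin k ⊕ (Fin m ⊕ Fin m)))) :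
    square f G = f (pull (left k m) G) * f (pull (aJ k m ∅) G) := by
  rw [aJ_empty]
  rfl

end LOCJ

open Classical in
theorem t_LOCJ (hl : S_LOCR) (hc : S_CAN) : S_LOCJ := by
  intro k m V _ _ hV
  obtain ⟨w, hw0, hwr, hw⟩ := hl k m V hV
  set D : ℝ := ((Fintype.card V).descFactorial (k + 2 * m) : ℝ) with hD
  have hD0 : 0 ≤ D := Nat.cast_nonneg _
  let Jf : (Fin k ⊕ Fin m ↪ Fin k ⊕ (Fin m ⊕ Fin m)) → Finset (Fin m) := fun a =>
    if h : ∀ i, a (Sum.inl i) = Sum.inl i then (hc k m a h).choose else ∅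
  have hJf : ∀ a, (∀ i, a (Sum.inl i) = Sum.inl i) →
      ∀ (f : Finset (Finset (Fin k ⊕ Fin m)) → ℝ), IsSym f →
      ∀ (H : Finset (Finset V)),
      avg (fun G : Finset (Finset (Fin k ⊕ (Fin m ⊕ Fin m))) => f (pull (left k m) G) * f (pull a G)) H =
      avg (fun G : Finset (Finset (Fin k ⊕ (Fin m ⊕ Fin m))) =>
        f (pull (left k m) G) * f (pull (aJ k m (Jf a)) G)) H := by
    intro a h f hf H
    have h1 : Jf a = (hc k m a h).choose := dif_pos h
    rw [h1]
    exact (hc k m a h).choose_spec f hf V H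
  refine ⟨fun J => D * ((if J = ∅ then 1 else 0) + ∑ a, if Jf a = J then w a else 0), ?_, ?_⟩
  · intro J
    refine mul_nonneg hD0 (add_nonneg ?_ (Finset.sum_nonneg fun a _ => ?_))
    · split_ifs <;> norm_num
    · split_ifs
      · exact hw0 a
      · exact le_rfl
  · intro f hf H
    rw [hw f hf H]
    set A : Finset (Fin m) → ℝ := fun J => avg (fun G : Finset (Finset (Fin k ⊕ (Fin m ⊕ Fin m))) =>
      f (pull (left k m) G) * f (pull (aJ k m J) G)) H with hA
    have h1 : avg (fun G : Finset (Finset (Fin k ⊕ (Fin m ⊕ Fin m))) =>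
        square f G + ∑ a, w a * (f (pull (left k m) G) * f (pull a G))) H =
        A ∅ + ∑ a, w a * A (Jf a) := by
      rw [avg_add, avg_sum]
      have h0 : avg (fun G : Finset (Finset (Fin k ⊕ (Fin m ⊕ Fin m))) => square f G) H = A ∅ := by
        have h00 : (fun G : Finset (Finset (Fin k ⊕ (Fin m ⊕ Fin m))) => square f G) = fun G =>
            f (pull (left k m) G) * f (pull (aJ k m ∅) G) := funext fun G => LOCJ.square_eq f G
        rw [h00]
      have h0' : avg (square f) H = A ∅ := h0
      rw [h0']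
      congr 1
      · refine Finset.sum_congr rfl fun a _ => ?_
        rw [avg_smul]
        by_cases h : w a = 0
        · rw [h, zero_mul, zero_mul]
        · rw [hJf a (hwr a h) f hf H]
    have h2 : avg (fun G : Finset (Finset (Fin k ⊕ (Fin m ⊕ Fin m))) =>
        ∑ J, (D * ((if J = ∅ then 1 else 0) + ∑ a, if Jf a = J then w a else 0)) *
          (f (pull (left k m) G) * f (pull (aJ k m J) G))) H =
        ∑ J, (D * ((if J = ∅ then 1 else 0) + ∑ a, if Jf a = J then w a else 0)) * A J := by
      rw [avg_sum]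
      refine Finset.sum_congr rfl fun J _ => ?_
      rw [avg_smul]
    rw [h1, h2]
    have h3 : ∀ J, (D * ((if J = ∅ then 1 else 0) + ∑ a, if Jf a = J then w a else 0)) * A J =
        D * ((if J = ∅ then A J else 0) + ∑ a, if Jf a = J then w a * A J else 0) := by
      intro J
      rw [mul_assoc, add_mul, Finset.sum_mul]
      congr 2
      · split_ifs <;> simp
      · refine Finset.sum_congr rfl fun a _ => ?_
        split_ifs <;> simp
    simp_rw [h3]
    rw [← Finset.mul_sum, Finset.sum_add_distrib, Finset.sum_comm]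
    congr 2
    · simp
    · refine Finset.sum_congr rfl fun a _ => ?_
      simp

end Pool.Agent.T3h36.PP
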