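import Pool.Agent.T3h36.PP.Stm
import Pool.Agent.T3h36.T_LOC

/-!
# LOCR: the square at finite `n` in local form, with fixed roots
-/

set_option autoImplicit false
open Finset
open Pool.Agent.T2h36 Pool.Agent.T2h36.Uni

namespace Pool.Agent.T3h36.PP

open Pool.Agent.T3h36.Loc

theorem t_LOCR (hE : S_EXT) (hM : S_EMB) : S_LOCR := by
  classical
  intro k m V _ _ hV
  obtain ⟨w0, h0, h1, h2⟩ := hE (Fin k ⊕ Fin m) (Q k m) (Fin k ⊕ Fin m) V (left k m)
    (by simp only [Fintype.card_sum, Fintype.card_fin]; omega)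
  refine ⟨fun τ => if Rt τ ∧ ¬ Dj τ then w0 τ else 0, ?_, ?_, ?_⟩
  · intro τ
    simp only
    split_ifs
    · exact h0 τ
    · exact le_refl _
  · intro τ hτ
    simp only at hτ
    by_contra hr
    exact hτ (if_neg fun h => hr h.1)
  · intro f hf H
    have hcardN : Fintype.card (Q k m ↪ V) = (Fintype.card V).descFactorial (k + 2 * m) := by
      rw [Fintype.card_embedding_eq]
      congr 1
      simp only [Fintype.card_sum, Fintype.card_fin]
      ring
    have hpos : (0 : ℝ) < ((Fintype.card V).descFactorial (k + 2 * m) : ℝ) := by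
      have : 0 < (Fintype.card V).descFactorial (k + 2 * m) := Nat.descFactorial_pos.mpr hV
      exact_mod_cast this
    have hR : ((Fintype.card V).descFactorial (k + 2 * m) : ℝ) *
        avg (fun G : Finset (Finset (Q k m)) =>
          square f G + ∑ a, (if Rt a ∧ ¬ Dj a then w0 a else 0) * (f (pull (left k m) G) * f (pull a G))) H =
        ∑ Ξ : Q k m ↪ V, (square f (pull Ξ H) + ∑ a, (if Rt a ∧ ¬ Dj a then w0 a else 0) *
          (f (pull (left k m) (pull Ξ H)) * f (pull a (pull Ξ H)))) := by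
      unfold avg
      rw [hcardN]
      field_simp
    rw [hR, step1]
    -- the inner sum by the extension lemma
    have hin : ∀ χ : Fin k ⊕ Fin m ↪ V,
        (∑ θ : Fin k ⊕ Fin m ↪ V, if ∀ i, θ (Sum.inl i) = χ (Sum.inl i) then f (pull θ H) else 0) =
        ∑ Ξ ∈ univ.filter (fun Ξ : Q k m ↪ V => ∀ a, Ξ (left k m a) = χ a),
          ∑ τ : Fin k ⊕ Fin m ↪ Q k m, w0 τ *
            (if ∀ i, (τ.trans Ξ) (Sum.inl i) = χ (Sum.inl i) then f (pull (τ.trans Ξ) H) else 0) := by
      intro χ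
      rw [h2 χ (fun θ => if ∀ i, θ (Sum.inl i) = χ (Sum.inl i) then f (pull θ H) else 0)]
      symm
      apply Finset.sum_subset (filter_subset _ _)
      intro θ _ hθ
      rw [if_neg]
      intro hroot
      apply hθ
      rw [mem_filter]
      refine ⟨mem_univ _, ?_⟩
      refine hM _ _ _ _ (left k m) χ θ (by simp only [Fintype.card_sum, Fintype.card_fin]; omega) ?_
      have hsub : (univ.filter fun b : Fin k ⊕ Fin m => ∀ a, χ a ≠ θ b) ⊆
          (univ : Finset (Fin m)).map ⟨Sum.inr, Sum.inr_injective⟩ := by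
        intro b hb
        rw [mem_filter] at hb
        rcases b with i | x
        · exact absurd (hroot i).symm (hb.2 (Sum.inl i))
        · simp
      have := Finset.card_le_card hsub
      rw [card_map, card_univ, Fintype.card_fin] at this
      simp only [Fintype.card_sum, Fintype.card_fin]
      omega
    have hstep : (∑ χ : Fin k ⊕ Fin m ↪ V, f (pull χ H) *
        ∑ θ : Fin k ⊕ Fin m ↪ V, if ∀ i, θ (Sum.inl i) = χ (Sum.inl i) then f (pull θ H) else 0) =
        ∑ χ : Fin k ⊕ Fin m ↪ V, ∑ Ξ ∈ univ.filter (fun Ξ : Q k m ↪ V => ∀ a, Ξ (left k m a) = χ a),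
          f (pull χ H) * ∑ τ : Fin k ⊕ Fin m ↪ Q k m, w0 τ *
            (if ∀ i, (τ.trans Ξ) (Sum.inl i) = χ (Sum.inl i) then f (pull (τ.trans Ξ) H) else 0) := by
      refine Finset.sum_congr rfl fun χ _ => ?_
      rw [hin χ, Finset.mul_sum]
    rw [hstep, sum_fib (fun χ Ξ => f (pull χ H) * ∑ τ : Fin k ⊕ Fin m ↪ Q k m, w0 τ *
            (if ∀ i, (τ.trans Ξ) (Sum.inl i) = χ (Sum.inl i) then f (pull (τ.trans Ξ) H) else 0))]
    refine Finset.sum_congr rfl fun Ξ _ => ?_
    have hone := sum_one hV w0 h2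
    -- split
    have hroot : ∀ τ : Fin k ⊕ Fin m ↪ Q k m,
        (∀ i, (τ.trans Ξ) (Sum.inl i) = ((left k m).trans Ξ) (Sum.inl i)) ↔ Rt τ := by
      intro τ
      constructor
      · intro h i
        exact Ξ.injective (h i)
      · intro h i
        show Ξ (τ (Sum.inl i)) = Ξ (Sum.inl i)
        rw [h i]
    have e1 : (∑ τ : Fin k ⊕ Fin m ↪ Q k m, w0 τ *
        (if ∀ i, (τ.trans Ξ) (Sum.inl i) = ((left k m).trans Ξ) (Sum.inl i) then
          f (pull (τ.trans Ξ) H) else 0)) =
        (∑ τ ∈ univ.filter (fun τ : Fin k ⊕ Fin m ↪ Q k m => Rt τ ∧ Dj τ), w0 τ) *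
          f (pull (right k m) (pull Ξ H)) +
        ∑ τ : Fin k ⊕ Fin m ↪ Q k m, (if Rt τ ∧ ¬ Dj τ then w0 τ else 0) * f (pull τ (pull Ξ H)) := by
      rw [Finset.sum_filter, Finset.sum_mul, ← Finset.sum_add_distrib]
      refine Finset.sum_congr rfl fun τ _ => ?_
      by_cases hr : Rt τ
      · rw [if_pos ((hroot τ).mpr hr), ← pull_pull]
        by_cases hd : Dj τ
        · rw [if_pos ⟨hr, hd⟩, if_neg (fun h => h.2 hd), sym_val f hf τ hr hd]
          ring
        · rw [if_neg (fun h => hd h.2), if_pos ⟨hr, hd⟩]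
          ring
      · rw [if_neg (fun h => hr ((hroot τ).mp h)), if_neg (fun h => hr h.1), if_neg (fun h => hr h.1)]
        ring
    rw [e1, hone, one_mul, ← pull_pull, mul_add, Finset.mul_sum]
    unfold square
    congr 1
    refine Finset.sum_congr rfl fun τ _ => ?_
    ring

end Pool.Agent.T3h36.PP
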