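import Pool.Agent.T3h36.PP.Stm
import Pool.Agent.T3h36.T_MAINK

/-!
# MAINP
-/

set_option autoImplicit false
open Finset
open Pool.Agent.T2h36 Pool.Agent.T2h36.Uni

namespace Pool.Agent.T3h36.PP

open MAINK in
theorem t_MAINP (ha : S_AVG) (hl : S_LBP) : S_MAINP := by
  intro κ hκ d hd V _ _ r q M hV hM
  have hV2 : 2 * d ≤ Fintype.card V := by omega
  obtain ⟨r', f, hf⟩ := ha d V hV2 r q
  have h1 : ∀ H : Finset (Finset V), Is3 H → CliqueFree3 κ H →
      (H.card : ℝ) + ∑ j : Fin r', finSq (f j) H = M := by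
    intro H h3 h4
    have hn0 : (Fintype.card (Equiv.Perm V) : ℝ) ≠ 0 := Nat.cast_ne_zero.2 Fintype.card_ne_zero
    have h5 : ∀ π : Equiv.Perm V,
        ∑ i : Fin r, (∑ θ : Fin d ↪ V, q i θ (pull θ (pull π.toEmbedding H))) ^ 2 = M - H.card := by
      intro π
      have := hM (pull π.toEmbedding H) (is3_pull _ h3) (free_perm π h4)
      rw [card_perm] at this
      linarith
    rw [← hf H, Finset.sum_congr rfl fun π _ => h5 π, Finset.sum_const, Finset.card_univ, nsmul_eq_mul,
      mul_div_cancel_left₀ _ hn0]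
    ring
  have h2 := hl κ hκ d d hd (by omega) V r' f M (by omega) h1
  have e1 : 2 * ((d + 2 * d : ℕ) : ℝ) = 6 * (d : ℝ) := by
    push_cast
    ring
  rw [e1] at h2
  exact h2

end Pool.Agent.T3h36.PP
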