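import Pool.Agent.T3h36.PP.Stm

set_option autoImplicit false
open Finset
open Pool.Agent.T2h36 Pool.Agent.T2h36.Uni

namespace Pool.Agent.T3h36.PP

namespace PAIR

set_option linter.unusedSectionVars false

theorem sum_two {A A' X : Type} [Fintype A] [DecidableEq A] [Fintype A'] [DecidableEq A'] [Fintype X]
    (H : (A ⊕ A' → X) → ℝ) : ∑ f : A ⊕ A' → X, H f = ∑ a : A → X, ∑ a' : A' → X, H (Sum.elim a a') := by
  rw [← (Equiv.sumArrowEquivProdArrow A A' X).symm.sum_comp, Fintype.sum_prod_type]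
  rfl

theorem sum_arrow {P V X : Type} [Fintype P] [DecidableEq P] [Fintype V] [DecidableEq V] [Fintype X]
    (e : P ≃ V) (G : (V → X) → ℝ) : ∑ ℓ : V → X, G ℓ = ∑ f : P → X, G (f ∘ e.symm) := by
  rw [← (Equiv.arrowCongr e (Equiv.refl X)).sum_comp]
  rfl

theorem prod_arrow {P V : Type} [Fintype P] [Fintype V] (e : P ≃ V) (g : P → ℝ) :
    ∏ v, g (e.symm v) = ∏ p, g p := e.symm.prod_comp g

theorem nm_comp {P V : Type} [Fintype P] [Fintype V] (e : P ≃ V) (z : Fin 3) (μ : P → Fin 3) :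
    nm z (μ ∘ e.symm) = nm z μ := by
  unfold nm
  refine Finset.card_bij (fun v _ => e.symm v) ?_ ?_ ?_
  · intro v hv
    rw [mem_filter] at hv ⊢
    exact ⟨mem_univ _, hv.2⟩
  · intro v _ v' _ h
    exact e.symm.injective h
  · intro p hp
    rw [mem_filter] at hp
    refine ⟨e p, ?_, e.symm_apply_apply p⟩
    rw [mem_filter]
    refine ⟨mem_univ _, ?_⟩
    show μ (e.symm (e p)) = z
    rw [e.symm_apply_apply]
    exact hp.2

theorem Good_comp {P V : Type} [Fintype P] [Fintype V] (e : P ≃ V) (μ : P → Fin 3) :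
    Good (μ ∘ e.symm) ↔ Good μ := by
  unfold Good
  rw [nm_comp, nm_comp]

theorem bads_comp {P V : Type} [Fintype P] [DecidableEq P] [Fintype V] [DecidableEq V] (e : P ≃ V) (S T : ℝ) :
    bads V S T = bads P S T := by
  unfold bads
  rw [sum_arrow e]
  refine Finset.sum_congr rfl fun μ _ => ?_
  by_cases h : Good μ
  · rw [if_pos ((Good_comp e μ).2 h), if_pos h]
  · rw [if_neg (fun h' => h ((Good_comp e μ).1 h')), if_neg h]
    unfold MW
    exact prod_arrow e fun p => mk S T (μ p)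

section
variable {C R B : Type} [Fintype C] [DecidableEq C] [Fintype R] [DecidableEq R] [Fintype B]

theorem W_four {n : ℕ} (s t : ℝ) (β : B → ℝ) (c : C → Fin 3 × B) (r r' : R → Fin 3 × B)
    (o : Fin n → Fin 3 × B) :
    W s t β (Sum.elim c (Sum.elim r (Sum.elim r' o))) = W s t β c * W s t β r * W s t β r' * W s t β o := by
  unfold W
  rw [Fintype.prod_sum_type, Fintype.prod_sum_type, Fintype.prod_sum_type]
  simp only [Sum.elim_inl, Sum.elim_inr]
  ring

theorem W_nonneg {P : Type} [Fintype P] {s t : ℝ} (hs : 0 ≤ s) (ht : 0 ≤ t) {β : B → ℝ} (hβ : ∀ p, 0 ≤ β p)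
    (ℓ : P → Fin 3 × B) : 0 ≤ W s t β ℓ := by
  unfold W
  refine Finset.prod_nonneg fun v _ => mul_nonneg ?_ (hβ _)
  unfold mk
  split_ifs
  · exact zero_le_one
  · exact hs
  · exact ht

theorem sum_W (n : ℕ) (s t : ℝ) (β : B → ℝ) (hβ : ∑ p, β p = 1) :
    ∑ o : Fin n → Fin 3 × B, W s t β o = (1 + s + t) ^ n := by
  unfold W
  refine (Fintype.sum_pow (fun x : Fin 3 × B => mk s t x.1 * β x.2) n).symm.trans ?_
  congr 1
  rw [Fintype.sum_prod_type]
  simp only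
  have : ∀ z : Fin 3, ∑ b : B, mk s t z * β b = mk s t z := by
    intro z
    rw [← Finset.mul_sum, hβ, mul_one]
  rw [Finset.sum_congr rfl fun z _ => this z, Fin.sum_univ_three]
  simp [mk]

theorem fact {R' O : Type} [Fintype R'] [Fintype O] (w : ℝ) (A : R' → ℝ) (u : O → ℝ) :
    ∑ r, ∑ r', ∑ o, (w * A r * A r') * u o = w * (∑ r, A r) ^ 2 * ∑ o, u o := by
  have h1 : ∀ r r', ∑ o, (w * A r * A r') * u o = (w * A r * A r') * ∑ o, u o :=
    fun r r' => (Finset.mul_sum _ _ _).symm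
  simp only [h1]
  have h2 : ∀ r, ∑ r', (w * A r * A r') * (∑ o, u o) = w * A r * (∑ r', A r') * ∑ o, u o := by
    intro r
    rw [← Finset.sum_mul, ← Finset.mul_sum]
  simp only [h2]
  rw [← Finset.sum_mul, ← Finset.sum_mul, ← Finset.mul_sum]
  ring

theorem main (V : Type) [Fintype V] [DecidableEq V]
    (n : ℕ) (e : (C ⊕ (R ⊕ (R ⊕ Fin n))) ≃ V) (G : (V → Fin 3 × B) → ℝ) :
    ∑ ℓ : V → Fin 3 × B, G ℓ = ∑ c : C → Fin 3 × B, ∑ r : R → Fin 3 × B, ∑ r' : R → Fin 3 × B,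
      ∑ o : Fin n → Fin 3 × B, G (Sum.elim c (Sum.elim r (Sum.elim r' o)) ∘ e.symm) := by
  rw [sum_arrow e, sum_two]
  refine Finset.sum_congr rfl fun c _ => ?_
  rw [sum_two]
  refine Finset.sum_congr rfl fun r _ => ?_
  rw [sum_two]

theorem comp₁ (V : Type) [Fintype V] [DecidableEq V] (a₁ : C ⊕ R ↪ V)
    (n : ℕ) (e : (C ⊕ (R ⊕ (R ⊕ Fin n))) ≃ V)
    (h1 : ∀ c, e (Sum.inl c) = a₁ (Sum.inl c)) (h2 : ∀ x, e (Sum.inr (Sum.inl x)) = a₁ (Sum.inr x))
    (c : C → Fin 3 × B) (r r' : R → Fin 3 × B) (o : Fin n → Fin 3 × B) :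
    (Sum.elim c (Sum.elim r (Sum.elim r' o)) ∘ e.symm) ∘ a₁ = Sum.elim c r := by
  funext v
  rcases v with v | v
  · show Sum.elim c (Sum.elim r (Sum.elim r' o)) (e.symm (a₁ (Sum.inl v))) = c v
    rw [← h1, e.symm_apply_apply]
    rfl
  · show Sum.elim c (Sum.elim r (Sum.elim r' o)) (e.symm (a₁ (Sum.inr v))) = r v
    rw [← h2, e.symm_apply_apply]
    rfl

theorem comp₂ (V : Type) [Fintype V] [DecidableEq V] (a₂ : C ⊕ R ↪ V)
    (n : ℕ) (e : (C ⊕ (R ⊕ (R ⊕ Fin n))) ≃ V)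
    (h1 : ∀ c, e (Sum.inl c) = a₂ (Sum.inl c))
    (h3 : ∀ x, e (Sum.inr (Sum.inr (Sum.inl x))) = a₂ (Sum.inr x))
    (c : C → Fin 3 × B) (r r' : R → Fin 3 × B) (o : Fin n → Fin 3 × B) :
    (Sum.elim c (Sum.elim r (Sum.elim r' o)) ∘ e.symm) ∘ a₂ = Sum.elim c r' := by
  funext v
  rcases v with v | v
  · show Sum.elim c (Sum.elim r (Sum.elim r' o)) (e.symm (a₂ (Sum.inl v))) = c v
    rw [← h1, e.symm_apply_apply]
    rfl
  · show Sum.elim c (Sum.elim r (Sum.elim r' o)) (e.symm (a₂ (Sum.inr v))) = r' v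
    rw [← h3, e.symm_apply_apply]
    rfl

theorem W_comp (V : Type) [Fintype V] [DecidableEq V] {P : Type} [Fintype P] (e : P ≃ V) (s t : ℝ)
    (β : B → ℝ) (ℓ : P → Fin 3 × B) : W s t β (ℓ ∘ e.symm) = W s t β ℓ := by
  unfold W
  exact prod_arrow e fun p => mk s t (ℓ p).1 * β (ℓ p).2

end

end PAIR

open PAIR in
theorem t_PAIR (hs : S_SPLIT) (hc : S_CROSS) : S_PAIR := by
  intro V C R B _ _ _ _ _ _ _ a₁ a₂ h0 hdis β hβ hβ1 s t hs0 ht0
  obtain ⟨n, e, h1, h2, h3⟩ := hs V C R a₁ a₂ h0 hdis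
  have h1' : ∀ c, e (Sum.inl c) = a₂ (Sum.inl c) := fun c => (h1 c).trans (h0 c)
  refine ⟨?_, ?_⟩
  · intro F
    rw [main V n e]
    have hterm : ∀ (c : C → Fin 3 × B) (r r' : R → Fin 3 × B) (o : Fin n → Fin 3 × B),
        W s t β (Sum.elim c (Sum.elim r (Sum.elim r' o)) ∘ e.symm) *
          (F ((Sum.elim c (Sum.elim r (Sum.elim r' o)) ∘ e.symm) ∘ a₁) *
            F ((Sum.elim c (Sum.elim r (Sum.elim r' o)) ∘ e.symm) ∘ a₂)) =
        (W s t β c * (W s t β r * F (Sum.elim c r)) * (W s t β r' * F (Sum.elim c r'))) * W s t β o := by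
      intro c r r' o
      rw [comp₁ V a₁ n e h1 h2, comp₂ V a₂ n e h1' h3, W_comp V e, W_four]
      ring
    simp only [hterm]
    have hone : 1 ≤ ∑ o : Fin n → Fin 3 × B, W s t β o := by
      rw [sum_W n s t β hβ1]
      exact one_le_pow₀ (by linarith)
    have hSS : 0 ≤ SS β F s t := by
      unfold SS
      exact Finset.sum_nonneg fun c _ => mul_nonneg (W_nonneg hs0 ht0 hβ c) (sq_nonneg _)
    have hval : (∑ c : C → Fin 3 × B, ∑ r : R → Fin 3 × B, ∑ r' : R → Fin 3 × B,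
        ∑ o : Fin n → Fin 3 × B, (W s t β c * (W s t β r * F (Sum.elim c r)) *
          (W s t β r' * F (Sum.elim c r'))) * W s t β o) =
        SS β F s t * ∑ o : Fin n → Fin 3 × B, W s t β o := by
      unfold SS
      rw [Finset.sum_mul]
      refine Finset.sum_congr rfl fun c _ => ?_
      exact fact (W s t β c) (fun r => W s t β r * F (Sum.elim c r)) _
    rw [hval]
    nlinarith
  · intro m hm δ hδ hδ1 FT FR hT hR
    have h := hc C R B n β hβ hβ1 m hm δ hδ hδ1 FT FR hT hR s t hs0 ht0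
    rw [main V n e, bads_comp e]
    refine le_trans h (le_of_eq ?_)
    refine Finset.sum_congr rfl fun c _ => Finset.sum_congr rfl fun r _ =>
      Finset.sum_congr rfl fun r' _ => Finset.sum_congr rfl fun o _ => ?_
    have hg : Good (mks (Sum.elim c (Sum.elim r (Sum.elim r' o)) ∘ e.symm)) ↔
        Good (mks (Sum.elim c (Sum.elim r (Sum.elim r' o)))) :=
      Good_comp e (mks (Sum.elim c (Sum.elim r (Sum.elim r' o))))
    by_cases hgood : Good (mks (Sum.elim c (Sum.elim r (Sum.elim r' o))))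
    · rw [if_pos hgood, if_pos (hg.2 hgood), comp₁ V a₁ n e h1 h2, comp₂ V a₂ n e h1' h3, W_comp V e,
        W_four]
    · rw [if_neg hgood, if_neg (fun h' => hgood (hg.1 h'))]

end Pool.Agent.T3h36.PP
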