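import Pool.Agent.T3h36.PP.Stm

set_option autoImplicit false
open Finset
open Pool.Agent.T2h36 Pool.Agent.T2h36.Uni

namespace Pool.Agent.T3h36.PP

theorem t_SAMP (hg : S_GRAPH) : S_SAMP := by
  intro V U B _ _ _ _ _ R β s t ψ hψ g χ
  obtain ⟨-, hpull, -⟩ := hg
  have hcard : (Fintype.card (U ↪ V) : ℝ) ≠ 0 := by
    have : 0 < Fintype.card (U ↪ V) := Fintype.card_pos_iff.mpr ⟨χ⟩
    positivity
  have hW : ∀ (π : Equiv.Perm V) (ℓ : V → Fin 3 × B), W s t β (ℓ ∘ π) = W s t β ℓ := by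
    intro π ℓ
    unfold W
    exact Equiv.prod_comp π (fun v => mk s t (ℓ v).1 * β (ℓ v).2)
  have hθ : ∀ θ : U ↪ V,
      ∑ ℓ : V → Fin 3 × B, W s t β ℓ * (ψ ℓ * g (pull θ (GG R ℓ))) =
      ∑ ℓ : V → Fin 3 × B, W s t β ℓ * (ψ ℓ * g (GG R (ℓ ∘ χ))) := by
    intro θ
    obtain ⟨π, hπ⟩ := exists_perm χ θ
    rw [← Equiv.sum_comp (Equiv.arrowCongr π.symm (Equiv.refl (Fin 3 × B)))
      (fun ℓ => W s t β ℓ * (ψ ℓ * g (GG R (ℓ ∘ χ))))]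
    refine Finset.sum_congr rfl fun ℓ _ => ?_
    have h1 : (Equiv.arrowCongr π.symm (Equiv.refl (Fin 3 × B))) ℓ = ℓ ∘ π := by
      funext v
      simp [Equiv.arrowCongr]
    rw [h1, hW, hψ, hpull]
    have h2 : (ℓ ∘ π) ∘ χ = ℓ ∘ θ := by
      funext u
      simp [hπ]
    rw [h2]
  have h1 : ∀ ℓ : V → Fin 3 × B, W s t β ℓ * (ψ ℓ * avg g (GG R ℓ)) =
      (∑ θ : U ↪ V, W s t β ℓ * (ψ ℓ * g (pull θ (GG R ℓ)))) / (Fintype.card (U ↪ V) : ℝ) := by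
    intro ℓ
    unfold avg
    rw [← Finset.mul_sum, ← Finset.mul_sum]
    ring
  simp_rw [h1]
  rw [← Finset.sum_div, Finset.sum_comm, Finset.sum_congr rfl (fun θ _ => hθ θ), Finset.sum_const,
    nsmul_eq_mul, Finset.card_univ]
  field_simp

end Pool.Agent.T3h36.PP
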