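import Pool.Agent.T3h36.PP.Stm

set_option autoImplicit false
open Finset
open Pool.Agent.T2h36 Pool.Agent.T2h36.Uni

namespace Pool.Agent.T3h36.PP

theorem t_SPLIT : S_SPLIT := by
  classical
  intro V C R _ _ _ _ _ _ a₁ a₂ hc hr
  let O := {v : V // (∀ x, a₁ x ≠ v) ∧ ∀ x, a₂ x ≠ v}
  let eO : Fin (Fintype.card O) ≃ O := (Fintype.equivFin O).symm
  let f : (C ⊕ (R ⊕ (R ⊕ Fin (Fintype.card O)))) → V :=
    Sum.elim (fun c => a₁ (Sum.inl c)) (Sum.elim (fun x => a₁ (Sum.inr x))
      (Sum.elim (fun x => a₂ (Sum.inr x)) (fun i => (eO i : V))))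
  have h1 : ∀ c x, a₁ (Sum.inl c) ≠ a₂ (Sum.inr x) := by
    intro c x h
    rw [hc] at h
    simpa using a₂.injective h
  have h2 : ∀ x i, a₁ x ≠ (eO i : V) := fun x i => (eO i).2.1 x
  have h3 : ∀ x i, a₂ x ≠ (eO i : V) := fun x i => (eO i).2.2 x
  have hinj : Function.Injective f := by
    intro u v h
    rcases u with c | x | x | i <;> rcases v with c' | x' | x' | i' <;>
      simp only [f, Sum.elim_inl, Sum.elim_inr] at h
    · simpa using a₁.injective h
    · simpa using a₁.injective h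
    · exact absurd h (h1 _ _)
    · exact absurd h (h2 _ _)
    · simpa using a₁.injective h
    · simpa using a₁.injective h
    · exact absurd h (hr _ _)
    · exact absurd h (h2 _ _)
    · exact absurd h.symm (h1 _ _)
    · exact absurd h.symm (hr _ _)
    · simpa using a₂.injective h
    · exact absurd h (h3 _ _)
    · exact absurd h.symm (h2 _ _)
    · exact absurd h.symm (h2 _ _)
    · exact absurd h.symm (h3 _ _)
    · have h4 := eO.injective (Subtype.ext h)
      rw [h4]
  have hsurj : Function.Surjective f := by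
    intro v
    by_cases hv : (∀ x, a₁ x ≠ v) ∧ ∀ x, a₂ x ≠ v
    · refine ⟨Sum.inr (Sum.inr (Sum.inr (eO.symm ⟨v, hv⟩))), ?_⟩
      simp only [f, Sum.elim_inr, Equiv.apply_symm_apply]
    · rw [not_and_or] at hv
      rcases hv with hv | hv
      · push Not at hv
        obtain ⟨x, hx⟩ := hv
        rcases x with c | x
        · exact ⟨Sum.inl c, hx⟩
        · exact ⟨Sum.inr (Sum.inl x), hx⟩
      · push Not at hv
        obtain ⟨x, hx⟩ := hv
        rcases x with c | x
        · exact ⟨Sum.inl c, by rw [← hx, ← hc]; rfl⟩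
        · exact ⟨Sum.inr (Sum.inr (Sum.inl x)), hx⟩
  exact ⟨_, Equiv.ofBijective f ⟨hinj, hsurj⟩, fun _ => rfl, fun _ => rfl, fun _ => rfl⟩

end Pool.Agent.T3h36.PP
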