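import Pool.Agent.T3h36.PP.T_LAG1
import Pool.Agent.T3h36.PP.T_LAG
import Pool.Agent.T3h36.PP.T_EXTR
import Pool.Agent.T3h36.PP.T_CROSS
import Pool.Agent.T3h36.PP.T_BADS
import Pool.Agent.T3h36.PP.T_SPLIT
import Pool.Agent.T3h36.PP.T_PAIR
import Pool.Agent.T3h36.PP.T_GRAPH
import Pool.Agent.T3h36.PP.T_CLIQ
import Pool.Agent.T3h36.PP.T_DENS
import Pool.Agent.T3h36.PP.T_SAMP
import Pool.Agent.T3h36.PP.T_EDGE
import Pool.Agent.T3h36.PP.T_GRP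
import Pool.Agent.T3h36.PP.T_GAP
import Pool.Agent.T3h36.PP.T_LOCR
import Pool.Agent.T3h36.PP.T_CAN
import Pool.Agent.T3h36.PP.T_LOCJ
import Pool.Agent.T3h36.PP.T_LBP
import Pool.Agent.T3h36.PP.T_MAINP
import Pool.Agent.T3h36.T_AVG
import Pool.Agent.T3h36.T_SQRT
import Pool.Agent.T3h36.T_REL
import Pool.Agent.T3h36.T_EXT
import Pool.Agent.T3h36.T_EMB
import Pool.Agent.T3h36.T_SYM
import Pool.Agent.T3h36.T_UNQK
import Pool.Agent.T3h36.T_ISO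

/-! # Assembly of the polynomial gap -/

set_option autoImplicit false
open Pool.Agent.T3h36

namespace Pool.Agent.T3h36.PP

theorem pair_all : S_PAIR := t_PAIR t_SPLIT (t_CROSS (t_EXTR (t_LAG t_LAG1)))

theorem gap_all : S_GAP :=
  t_GAP (GRP.t_GRP pair_all t_GRAPH (t_SAMP t_GRAPH)) (t_CLIQ t_GRAPH) t_DENS
    (t_EDGE t_GRAPH (t_SAMP t_GRAPH)) t_BADS t_GRAPH

theorem main_all : S_MAINP :=
  t_MAINP (t_AVG t_SQRT (t_REL t_EXT t_EMB))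
    (t_LBP t_SYM (t_LOCJ (t_LOCR t_EXT t_EMB) t_CAN) (t_UNQK t_ISO) gap_all)

end Pool.Agent.T3h36.PP
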