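import Pool.Agent.T3h36.StmK

/-!
# Project PP: polynomial gap (sum-of-squares order `n^c`)

Labels. A vertex gets a label `(z, p)`: a mark `z : Fin 3` (`0` none, `1` special `X`, `2` special `Y`)
and a base part `p : B` (of importance only if `z = 0`). The weight of a label is `mk s t z * β p`,
`∑ β = 1`. Given labels on `V` a rule `R` on triples of labels gives a 3-graph `GG R ℓ` on `V`.
Three rules (parts `ZMod L`, `L = κ - 1`): `rQ` has more than `1 - 4/L²` edge density, and is `K_κ^3`-free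
if at most one vertex is marked `1` or at most one is marked `2` (`Good`); `rT` and `rR` are always
`K_κ^3`-free, and agree with `rQ` if at most one vertex is marked `1`, resp. `2`.

The idea of the gap theorem: evaluate a certificate on `rQ`-graphs with *good* labels only. The full
sum over all labels of the squares is nonnegative; the sum over bad labels is small: by the
extraction lemma (EXTR) every value of the (averaged) flag functions at a mark pattern `ν` is bounded by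
`q^|ν|` times the sums of squares for the rules `rT`, `rR`, which are at most `1` since these graphs are
`K_κ^3`-free, and `q s` is small.
-/

set_option autoImplicit false
open Finset
open Pool.Agent.T2h36 Pool.Agent.T2h36.Uni

namespace Pool.Agent.T3h36.PP

/-! ### weights and marks -/

/-- the weight of a mark -/
def mk (s t : ℝ) (z : Fin 3) : ℝ := if z = 0 then 1 else if z = 1 then s else t

/-- the weight of a family of marks -/
def MW {P : Type} [Fintype P] (s t : ℝ) (μ : P → Fin 3) : ℝ := ∏ v, mk s t (μ v)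

/-- the weight of a family of base parts -/
def BW {P B : Type} [Fintype P] (β : B → ℝ) (b : P → B) : ℝ := ∏ v, β (b v)

/-- the weight of a family of labels -/
def W {P B : Type} [Fintype P] (s t : ℝ) (β : B → ℝ) (ℓ : P → Fin 3 × B) : ℝ :=
  ∏ v, (mk s t (ℓ v).1 * β (ℓ v).2)

/-- the marks of a family of labels -/
def mks {P B : Type} (ℓ : P → Fin 3 × B) : P → Fin 3 := fun v => (ℓ v).1

/-- the number of positions with mark `z` -/
def nm {P : Type} [Fintype P] (z : Fin 3) (μ : P → Fin 3) : ℕ := (univ.filter fun v => μ v = z).card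

/-- the number of marked positions -/
def nz {P : Type} [Fintype P] (μ : P → Fin 3) : ℕ := (univ.filter fun v => μ v ≠ 0).card

/-- at most one mark `1` or at most one mark `2` -/
def Good {P : Type} [Fintype P] (μ : P → Fin 3) : Prop := nm 1 μ ≤ 1 ∨ nm 2 μ ≤ 1
instance {P : Type} [Fintype P] (μ : P → Fin 3) : Decidable (Good μ) := by unfold Good; infer_instance

/-- the total weight of the bad mark patterns -/
def bads (P : Type) [Fintype P] [DecidableEq P] (S T : ℝ) : ℝ :=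
  ∑ μ : P → Fin 3, if Good μ then 0 else MW S T μ

/-- `F` does not depend on the order of the positions of the second group -/
def RSym {C R B : Type} (F : (C ⊕ R → Fin 3 × B) → ℝ) : Prop :=
  ∀ (σ : Equiv.Perm R) (ℓ : C ⊕ R → Fin 3 × B), F (fun v => ℓ (Sum.map id σ v)) = F ℓ

section
variable {C R B : Type} [Fintype C] [DecidableEq C] [Fintype R] [DecidableEq R] [Fintype B]

/-- the weighted sum of squares: common positions `C`, further positions `R` -/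
def SS (β : B → ℝ) (F : (C ⊕ R → Fin 3 × B) → ℝ) (s t : ℝ) : ℝ :=
  ∑ c : C → Fin 3 × B, W s t β c * (∑ r : R → Fin 3 × B, W s t β r * F (Sum.elim c r)) ^ 2

/-- the same for a fixed mark pattern `ν` -/
def DD (β : B → ℝ) (F : (C ⊕ R → Fin 3 × B) → ℝ) (ν : C ⊕ R → Fin 3) : ℝ :=
  ∑ b : C → B, BW β b * (∑ b' : R → B, BW β b' * F (fun v => (ν v, Sum.elim b b' v))) ^ 2

/-- `F` is `FT` if at most one position is marked `1`, otherwise `FR` if at most one position is marked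
`2`, and otherwise `0` -/
def hat (FT FR : (C ⊕ R → Fin 3 × B) → ℝ) (ℓ : C ⊕ R → Fin 3 × B) : ℝ :=
  if nm 1 (mks ℓ) ≤ 1 then FT ℓ else if nm 2 (mks ℓ) ≤ 1 then FR ℓ else 0

end

/-- the sum over the nodes `δ (i+1)²`, `i ≤ m` -/
noncomputable def nodes (m : ℕ) (δ : ℝ) (g : ℝ → ℝ → ℝ) : ℝ :=
  ∑ i ∈ range (m + 1), ∑ i' ∈ range (m + 1), g (δ * ((i : ℝ) + 1) ^ 2) (δ * ((i' : ℝ) + 1) ^ 2)

/-! ### analytic tasks -/

/-- (LAG1) with `M = m + 1`, `1 ≤ j ≤ M`: `∏_{i ≠ j, 1 ≤ i ≤ M} i² / |i² - j²| = 2 (M!)² / ((M-j)! (M+j)!) ≤ 2`.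
(`∏_{i≠j} i = M!/j`, `∏_{i≠j} |i-j| = (j-1)! (M-j)!`, `∏_{i≠j} (i+j) = (M+j)! / (j! 2j)`; prove
`P(M,j) (M-j)! (M+j)! = 2 (M!)²` by induction on `M ≥ j`; the case `M = j` by `∏_{i<j} (j-i) = (j-1)!`,
`∏_{i<j} (j+i) = (2j-1)!/j!`; and `(M!)² ≤ (M-j)! (M+j)!`.) -/
def S_LAG1 : Prop := ∀ (M j : ℕ), 1 ≤ j → j ≤ M →
  ∏ i ∈ (Icc 1 M).erase j, ((i : ℝ) ^ 2 / |(i : ℝ) ^ 2 - (j : ℝ) ^ 2|) ≤ 2

/-- (LAG) extraction of coefficients of a polynomial of degree at most `m` from its values at the nodes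
`s_i = δ (i+1)²`, `0 ≤ i ≤ m`. `lam x i` is the coefficient of `X^x` in the Lagrange basis polynomial `L_i`
(Mathlib: `Lagrange.basis`, `Lagrange.sum_basis`/`Lagrange.eq_interpolate_of_eval_eq`: `G = ∑ i, G(s_i) L_i`).
Bound: for a polynomial `P` let `‖P‖ = ∑_x |coeff_x P| u^x`, `u = δ/2`; it is submultiplicative, so
`‖L_i‖ ≤ ∏_{k≠i} (u + s_k)/|s_i - s_k| = ∏_{k≠i} s_k/|s_i-s_k| * ∏_{k≠i} (1 + u/s_k) ≤ 2 exp(∑ 1/(2(k+1)²)) ≤ 2e`,
by (LAG1) and `∑ 1/(k+1)² ≤ 2`; hence `|lam x i| ≤ 2e (2/δ)^x ≤ 6 (2/δ)^x`. -/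
def S_LAG : Prop := ∀ (m : ℕ) (δ : ℝ), 0 < δ → ∃ lam : ℕ → ℕ → ℝ,
  (∀ x, x ≤ m → ∑ i ∈ range (m + 1), |lam x i| ≤ 6 * ((m : ℝ) + 1) * (2 / δ) ^ x) ∧
  ∀ x, x ≤ m → ∀ c : ℕ → ℝ,
    c x = ∑ i ∈ range (m + 1), lam x i * ∑ z ∈ range (m + 1), c z * (δ * ((i : ℝ) + 1) ^ 2) ^ z

/-- (EXTR) extraction. Put `A ρ b = ∑ b' : R → B, BW β b' * F (marks (ν on C, ρ), parts (b, b'))` for
`ρ : R → Fin 3`, `b : C → B`, and `g s t b = ∑ ρ, MW s t ρ * A ρ b`.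
(1) `W` of `c = (marks, parts)` is `MW * BW`; `SS` is a sum over the marks `ν'` of `C` and the parts `b` of
nonnegative terms, so keeping only `ν' = ν ∘ inl`: `SS β F s t ≥ MW s t (ν ∘ inl) * ∑ b, BW β b * (g s t b)²`
for `s, t ≥ 0`. At a node `(s, t)`: `s, t ≥ δ`, `δ ≤ 1`, so `MW s t (ν ∘ inl) ≥ δ^(nz (ν ∘ inl))`.
(2) `g s t b = ∑_{x,y ≤ m} coef x y b * s^x * t^y`, `coef x y b = ∑_{ρ, nm 1 ρ = x, nm 2 ρ = y} A ρ b`. By
`RSym` and the invariance of `BW`, `A ρ b = A ρ' b` if `ρ' = ρ ∘ σ`, and `ρ, ρ'` with the same numbers of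
marks are related in this way; so for `ρ₀ = ν ∘ inr` with the counts `(x, y)`:
`coef x y b = n * A ρ₀ b` with `n ≥ 1`, `(A ρ₀ b)² ≤ (coef x y b)²`.
(3) By (LAG) twice `coef x y b = ∑_{i,i'} lam x i * lam y i' * g s_i s_i' b`, so
`(coef x y b)² ≤ (∑ |lam x i|)² (∑ |lam y i'|)² * ∑_{i,i'} (g s_i s_i' b)²`.
(4) Multiply by `BW β b`, sum over `b` (`DD β F ν = ∑ b, BW β b * (A ρ₀ b)²`), use (1) at the nodes and
`(6(m+1))^4 (2/δ)^(2x+2y) (1/δ)^(nz (ν ∘ inl)) ≤ (6(m+1))^4 (2/δ)^(2 nz (ν ∘ inr) + nz (ν ∘ inl))`. -/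
def S_EXTR : Prop := ∀ (C R B : Type) [Fintype C] [DecidableEq C] [Fintype R] [DecidableEq R] [Fintype B]
  (β : B → ℝ), (∀ p, 0 ≤ β p) → ∀ (m : ℕ), Fintype.card R ≤ m → ∀ (δ : ℝ), 0 < δ → δ ≤ 1 →
  ∀ F : (C ⊕ R → Fin 3 × B) → ℝ, RSym F → ∀ ν : C ⊕ R → Fin 3,
    DD β F ν ≤ (6 * ((m : ℝ) + 1)) ^ 4 * (2 / δ) ^ (2 * nz (ν ∘ Sum.inr) + nz (ν ∘ Sum.inl)) *
      nodes m δ (SS β F)

/-- (CROSS) the sum over the good labels of the product of the values at the two copies is almost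
nonnegative. All labels: `∑_{c,r,r',o} ... = (∑ W o) * SS β (hat FT FR) s t ≥ 0`. Bad labels: split labels
into marks and parts; for a bad mark pattern `μ = (μC, μr, μr', μo)` the sum over the parts is (for the
parts of `o`: `∑ BW = 1`) `MW s t μ * ∑ b, BW β b * A(μC, μr; b) * A(μC, μr'; b)`, where
`A(ν; b) = ∑ b', BW β b' * hat FT FR (ν, (b, b'))`, and with `Q = 2/δ ≥ 1`, `a = A(μC,μr;b)`, `a' = A(μC,μr';b)`:
`a a' = Q^(|μr|+|μr'|) (a/Q^|μr|) (a'/Q^|μr'|) ≤ Q^(|μr|+|μr'|) (a²/Q^(2|μr|) + a'²/Q^(2|μr'|)) / 2`. Now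
`∑ b, BW β b * A(ν;b)² = DD β (hat FT FR) ν ≤ DD β FT ν + DD β FR ν` (for fixed marks `ν` `hat` is `FT`, `FR` or
`0`), which is at most `(6(m+1))^4 Q^(2|ν_R|+|ν_C|) * nodes(..)` by (EXTR). So the term of `μ` is at most
`MW s t μ * Q^(|μC|+|μr|+|μr'|) * K ≤ MW (Q s) (Q t) μ * K`. -/
def S_CROSS : Prop := ∀ (C R B : Type) [Fintype C] [DecidableEq C] [Fintype R] [DecidableEq R]
  [Fintype B] (n : ℕ) (β : B → ℝ), (∀ p, 0 ≤ β p) → ∑ p, β p = 1 →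
  ∀ (m : ℕ), Fintype.card R ≤ m → ∀ (δ : ℝ), 0 < δ → δ ≤ 1 →
  ∀ FT FR : (C ⊕ R → Fin 3 × B) → ℝ, RSym FT → RSym FR → ∀ s t : ℝ, 0 ≤ s → 0 ≤ t →
    -((6 * ((m : ℝ) + 1)) ^ 4 * nodes m δ (fun s' t' => SS β FT s' t' + SS β FR s' t') *
      bads (C ⊕ (R ⊕ (R ⊕ Fin n))) (2 / δ * s) (2 / δ * t)) ≤
    ∑ c : C → Fin 3 × B, ∑ r : R → Fin 3 × B, ∑ r' : R → Fin 3 × B, ∑ o : Fin n → Fin 3 × B,
      if Good (mks (Sum.elim c (Sum.elim r (Sum.elim r' o)))) then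
        W s t β c * W s t β r * W s t β r' * W s t β o *
          (hat FT FR (Sum.elim c r) * hat FT FR (Sum.elim c r')) else 0

/-- (BADS) union bound: a bad pattern has two positions with mark `1` and two with mark `2` (four
different positions); the patterns with given such positions have weight `S² T² (1+S+T)^(|P|-4)`. -/
def S_BADS : Prop := ∀ (P : Type) [Fintype P] [DecidableEq P] (S T : ℝ), 0 ≤ S → 0 ≤ T →
  bads P S T ≤ (Fintype.card P : ℝ) ^ 4 * S ^ 2 * T ^ 2 * (1 + S + T) ^ Fintype.card P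

/-- (SPLIT) `O` is the complement of the ranges. -/
def S_SPLIT : Prop := ∀ (V C R : Type) [Fintype V] [DecidableEq V] [Fintype C] [DecidableEq C] [Fintype R]
  [DecidableEq R] (a₁ a₂ : C ⊕ R ↪ V), (∀ c, a₁ (Sum.inl c) = a₂ (Sum.inl c)) →
  (∀ x y, a₁ (Sum.inr x) ≠ a₂ (Sum.inr y)) →
  ∃ (n : ℕ) (e : (C ⊕ (R ⊕ (R ⊕ Fin n))) ≃ V), (∀ c, e (Sum.inl c) = a₁ (Sum.inl c)) ∧
    (∀ x, e (Sum.inr (Sum.inl x)) = a₁ (Sum.inr x)) ∧
    (∀ x, e (Sum.inr (Sum.inr (Sum.inl x))) = a₂ (Sum.inr x))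

/-- (PAIR) the two inequalities for labels on `V`. By (SPLIT) `ℓ ↦ ℓ ∘ e` is a bijection of the labels on
`V` with the `Sum.elim c (Sum.elim r (Sum.elim r' o))`; `W`, `nm`, `bads` do not change. The first: the sum is
`(1+s+t)^n * SS β F s t`; the second is (CROSS). -/
def S_PAIR : Prop := ∀ (V C R B : Type) [Fintype V] [DecidableEq V] [Fintype C] [DecidableEq C]
  [Fintype R] [DecidableEq R] [Fintype B] (a₁ a₂ : C ⊕ R ↪ V), (∀ c, a₁ (Sum.inl c) = a₂ (Sum.inl c)) →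
  (∀ x y, a₁ (Sum.inr x) ≠ a₂ (Sum.inr y)) → ∀ (β : B → ℝ), (∀ p, 0 ≤ β p) → ∑ p, β p = 1 →
  ∀ s t : ℝ, 0 ≤ s → 0 ≤ t →
  (∀ F : (C ⊕ R → Fin 3 × B) → ℝ,
    SS β F s t ≤ ∑ ℓ : V → Fin 3 × B, W s t β ℓ * (F (ℓ ∘ a₁) * F (ℓ ∘ a₂))) ∧
  ∀ (m : ℕ), Fintype.card R ≤ m → ∀ (δ : ℝ), 0 < δ → δ ≤ 1 →
  ∀ FT FR : (C ⊕ R → Fin 3 × B) → ℝ, RSym FT → RSym FR →
    -((6 * ((m : ℝ) + 1)) ^ 4 * nodes m δ (fun s' t' => SS β FT s' t' + SS β FR s' t') *
      bads V (2 / δ * s) (2 / δ * t)) ≤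
    ∑ ℓ : V → Fin 3 × B, if Good (mks ℓ) then
      W s t β ℓ * (hat FT FR (ℓ ∘ a₁) * hat FT FR (ℓ ∘ a₂)) else 0

/-! ### the three rules -/

section
variable {L : ℕ}

/-- the part of a label: marks `1` belong to part `0`, marks `2` to part `1` -/
def part (z : Fin 3 × ZMod L) : ZMod L := if z.1 = 0 then z.2 else if z.1 = 1 then 0 else 1

/-- the non-edges of the cyclic construction: within a part, or two in part `i` and one in part `i + 1` -/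
def non3 (p q r : ZMod L) : Prop :=
  (p = q ∧ q = r) ∨ (p = q ∧ r = p + 1) ∨ (p = r ∧ q = p + 1) ∨ (q = r ∧ p = q + 1)

/-- the cyclic construction -/
def rT (a b c : Fin 3 × ZMod L) : Prop := ¬ non3 (part a) (part b) (part c)

/-- the third vertices which form an edge with two vertices marked `1` -/
def thr (c : Fin 3 × ZMod L) : Prop := c.1 ≠ 1 ∧ part c ≠ 2 ∧ (part c = 1 → c.1 = 2)

/-- the modified construction -/
def rQ (a b c : Fin 3 × ZMod L) : Prop :=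
  (a.1 = 1 ∧ b.1 = 1 ∧ thr c) ∨ (a.1 = 1 ∧ c.1 = 1 ∧ thr b) ∨ (b.1 = 1 ∧ c.1 = 1 ∧ thr a) ∨
    (¬ (a.1 = 1 ∧ b.1 = 1) ∧ ¬ (a.1 = 1 ∧ c.1 = 1) ∧ ¬ (b.1 = 1 ∧ c.1 = 1) ∧ rT a b c)

/-- without the edges containing two vertices marked `2` -/
def rR (a b c : Fin 3 × ZMod L) : Prop :=
  rQ a b c ∧ ¬ (a.1 = 2 ∧ b.1 = 2) ∧ ¬ (a.1 = 2 ∧ c.1 = 2) ∧ ¬ (b.1 = 2 ∧ c.1 = 2)

end

open Classical in
/-- the 3-graph with the rule `R` and the labels `ℓ` -/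
noncomputable def GG {V A : Type} [Fintype V] [DecidableEq V] (R : A → A → A → Prop) (ℓ : V → A) :
    Finset (Finset V) :=
  univ.filter fun e => ∃ a b c : V, a ≠ b ∧ a ≠ c ∧ b ≠ c ∧ e = {a, b, c} ∧ R (ℓ a) (ℓ b) (ℓ c)

/-- `R` is symmetric -/
def Sym3 {A : Type} (R : A → A → A → Prop) : Prop :=
  ∀ a b c, (R a b c → R b a c) ∧ (R a b c → R a c b)

/-- (GRAPH) simple facts on `GG`. -/
def S_GRAPH : Prop :=
  (∀ (V A : Type) [Fintype V] [DecidableEq V] (R : A → A → A → Prop) (ℓ : V → A), Is3 (GG R ℓ)) ∧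
  (∀ (V U A : Type) [Fintype V] [DecidableEq V] [Fintype U] [DecidableEq U] (R : A → A → A → Prop)
    (ℓ : V → A) (χ : U ↪ V), pull χ (GG R ℓ) = GG R (ℓ ∘ χ)) ∧
  (∀ (L : ℕ), 3 ≤ L → Sym3 (@rT L) ∧ Sym3 (@rQ L) ∧ Sym3 (@rR L)) ∧
  (∀ (L : ℕ) (V : Type) [Fintype V] [DecidableEq V] (ℓ : V → Fin 3 × ZMod L),
    nm 1 (mks ℓ) ≤ 1 → GG rQ ℓ = GG rT ℓ) ∧
  (∀ (L : ℕ) (V : Type) [Fintype V] [DecidableEq V] (ℓ : V → Fin 3 × ZMod L),
    nm 2 (mks ℓ) ≤ 1 → GG rQ ℓ = GG rR ℓ)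

/-- (CLIQ) `rT` and `rR` are `K_(L+1)^3`-free. Let `S` be an `(L+1)`-set of vertices all whose triples are
edges, `n i` the number of its vertices in part `i`. Base rule: `n i ≤ 2`, and `n i = 2` implies
`n (i+1) = 0`, so `∑ n i ≤ L` (map the `i` with `n i = 2` to `i + 1`), contradiction. For `rR`: if at most one
vertex of `S` is marked `1` the edges are edges of `rT`. Otherwise two are marked `1` and no more (three
vertices marked `1` are no edge); then no vertex of part `2` (not `thr`), all vertices of part `1` are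
marked `2`, so `n 1 ≤ 1`, `n 2 = 0`; `n 0 ≤ 3`; if `n 0 = 3` (two marked `1` and an unmarked one: four
vertices in part `0` contain two unmarked ones and one marked `1`, a non-edge) then `n 1 = 0` too (marked `1`,
unmarked of part `0`, vertex of part `1` is a non-edge). For `i ≠ 0`: `n i ≤ 2`, and `n i = 2` implies
`n (i+1) = 0` (for `i = 1`: `n 1 ≤ 1`). So `∑ n i ≤ L`: `cyc` of `Pool/Agent/T2h36/CK/Clique.lean` may be adapted.
(`L ≥ 3`, so `0, 1, 2` are different parts.) -/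
def S_CLIQ : Prop := ∀ (L : ℕ), 3 ≤ L → ∀ (V : Type) [Fintype V] [DecidableEq V] (ℓ : V → Fin 3 × ZMod L),
  CliqueFree3 (L + 1) (GG rT ℓ) ∧ CliqueFree3 (L + 1) (GG rR ℓ)

/-- the weights of the base parts for which the parts (with their marked vertices) have equal weight -/
noncomputable def bet (L : ℕ) (s t : ℝ) (p : ZMod L) : ℝ :=
  (1 + s + t) / L - (if p = 0 then s else 0) - (if p = 1 then t else 0)

open Classical in
/-- (DENS) the weight of the edges. Non-edges of `rT` have weight `4 L ((1+s+t)/L)³` (part weights are all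
`(1+s+t)/L`: `L` for the triples within a part, `3L` for the others); `rQ` differs from `rT` only for
triples with exactly two marks `1` (three marks `1` are non-edges for both): the weight changes by
`3 s² (β₀ + t - β₂) = 3 s² (t - s)`: third vertex unmarked of part `0`: now an edge; marked `2`: now an
edge; part `2`: no longer an edge; part `1` unmarked: non-edge for both; other parts: edge for both. -/
def S_DENS : Prop := ∀ (L : ℕ) [NeZero L], 3 ≤ L → ∀ s t : ℝ, 0 ≤ s → 0 ≤ t → s ≤ 1 / L → t ≤ 1 / L →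
  (∀ p, 0 ≤ bet L s t p) ∧ ∑ p, bet L s t p = 1 ∧
  ∑ a : Fin 3 × ZMod L, ∑ b : Fin 3 × ZMod L, ∑ c : Fin 3 × ZMod L,
    (mk s t a.1 * bet L s t a.2) * (mk s t b.1 * bet L s t b.2) * (mk s t c.1 * bet L s t c.2) *
      (if rQ a b c then 1 else 0) =
    (1 - 4 / (L : ℝ) ^ 2) * (1 + s + t) ^ 3 + 3 * s ^ 2 * (t - s)

/-- (SAMP) exchangeability: `avg` over the samples of a labelled graph. For every `χ : U ↪ V`, `|U| = |V|`
(or smaller), `pull χ (GG R ℓ) = GG R (ℓ ∘ χ)`; for two embeddings `χ, χ'` there is a permutation `π` of `V`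
with `χ' = π ∘ χ` (`exists_perm`), and `ℓ ↦ ℓ ∘ π` preserves `W` and `ψ`. So all terms of the average over
`χ'` have the same sum over `ℓ`. -/
def S_SAMP : Prop := ∀ (V U B : Type) [Fintype V] [DecidableEq V] [Fintype U] [DecidableEq U] [Fintype B]
  (R : Fin 3 × B → Fin 3 × B → Fin 3 × B → Prop) (β : B → ℝ) (s t : ℝ)
  (ψ : (V → Fin 3 × B) → ℝ), (∀ (π : Equiv.Perm V) ℓ, ψ (ℓ ∘ π) = ψ ℓ) →
  ∀ (g : Finset (Finset U) → ℝ) (χ : U ↪ V),
    ∑ ℓ : V → Fin 3 × B, W s t β ℓ * (ψ ℓ * avg g (GG R ℓ)) =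
    ∑ ℓ : V → Fin 3 × B, W s t β ℓ * (ψ ℓ * g (GG R (ℓ ∘ χ)))

open Classical in
/-- (EDGE) edge densities: `edgeDens_eq`, (SAMP) with `ψ = 1` and a `χ : Fin 3 ↪ V`, and summation over the
labels outside the range of `χ` (`∑ (mk * β) = 1 + s + t`). -/
def S_EDGE : Prop := ∀ (V B : Type) [Fintype V] [DecidableEq V] [Fintype B]
  (R : Fin 3 × B → Fin 3 × B → Fin 3 × B → Prop) (β : B → ℝ) (s t : ℝ), ∑ p, β p = 1 → Sym3 R →
  3 ≤ Fintype.card V →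
    ∑ ℓ : V → Fin 3 × B, W s t β ℓ * edgeDens (GG R ℓ) =
    (1 + s + t) ^ (Fintype.card V - 3) * ∑ a : Fin 3 × B, ∑ b : Fin 3 × B, ∑ c : Fin 3 × B,
      (mk s t a.1 * β a.2) * (mk s t b.1 * β b.2) * (mk s t c.1 * β c.2) * (if R a b c then 1 else 0)

/-! ### the gap -/

/-- the second copy of a flag which shares the roots and the further vertices in `J` with the first -/
def aJ (k m : ℕ) (J : Finset (Fin m)) : Fin k ⊕ Fin m ↪ Fin k ⊕ (Fin m ⊕ Fin m) where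
  toFun := Sum.elim Sum.inl fun i => if i ∈ J then Sum.inr (Sum.inl i) else Sum.inr (Sum.inr i)
  inj' := by
    intro a b h
    rcases a with a | a <;> rcases b with b | b <;> simp only [Sum.elim_inl, Sum.elim_inr] at h
    · rw [Sum.inl.inj h]
    · split_ifs at h
    · split_ifs at h
    · split_ifs at h <;> simp_all

/-- (GRP) consequences for a certificate in which every square comes with nonnegative weights `c J` for
the overlaps `J`. For one `f = f j` and one `J`: `C = Fin k ⊕ {i // i ∈ J}`, `R = {i // i ∉ J}`,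
`ε : C ⊕ R ≃ Fin k ⊕ Fin m` the obvious bijection, `a₁ = ε.trans left`, `a₂ = ε.trans (aJ J)` followed by a
bijection `Fin k ⊕ (Fin m ⊕ Fin m) ≃ Fin N`, `F_X ℓ = f (GG X (ℓ ∘ ε.symm))` for `X = rT, rR` (`RSym` by `IsSym`,
`pull_GG`). `f (pull left (GG X (ℓ ∘ χ))) = F_X (ℓ ∘ a₁)` by (GRAPH), and
`f (pull left (GG rQ (ℓ ∘ χ))) = hat F_T F_R (ℓ ∘ a₁)` for good `ℓ` (the marks of `ℓ ∘ a₁` are good).
So for `X = rT, rR` there is a number `Sg = ∑_j ∑_J c J * SS β F_X s' t'` (`Sg ≥ 0`) with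
 (1) `Sg_X(s',t') ≤ ∑ ℓ, W s' t' β ℓ * (∑ j, avg (∑ J ...) (GG X ℓ))` for all `s', t' ≥ 0` [(SAMP) with `ψ = 1`, (PAIR) first part],
 (2) `-( (6(m+1))^4 nodes(Sg_T + Sg_R) * bads (Fin N) .. ) ≤ ∑ ℓ good, W s t β ℓ * (∑ j, avg (∑ J ...) (GG rQ ℓ))` [(SAMP)
 with `ψ = 1_good`, (PAIR) second part]. -/
def S_GRP : Prop := ∀ (L : ℕ) [NeZero L], 3 ≤ L → ∀ (k m r : ℕ)
  (f : Fin r → Finset (Finset (Fin k ⊕ Fin m)) → ℝ), (∀ j, IsSym (f j)) →
  ∀ (c : Finset (Fin m) → ℝ), (∀ J, 0 ≤ c J) → ∀ (β : ZMod L → ℝ), (∀ p, 0 ≤ β p) → ∑ p, β p = 1 →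
  ∃ ST SR : ℝ → ℝ → ℝ,
    (∀ s' t', 0 ≤ s' → 0 ≤ t' →
      ST s' t' ≤ ∑ ℓ : Fin (k + 2 * m) → Fin 3 × ZMod L, W s' t' β ℓ *
        ∑ j : Fin r, avg (fun G' : Finset (Finset (Fin k ⊕ (Fin m ⊕ Fin m))) =>
          ∑ J, c J * (f j (pull (left k m) G') * f j (pull (aJ k m J) G'))) (GG rT ℓ)) ∧
    (∀ s' t', 0 ≤ s' → 0 ≤ t' →
      SR s' t' ≤ ∑ ℓ : Fin (k + 2 * m) → Fin 3 × ZMod L, W s' t' β ℓ *
        ∑ j : Fin r, avg (fun G' : Finset (Finset (Fin k ⊕ (Fin m ⊕ Fin m))) =>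
          ∑ J, c J * (f j (pull (left k m) G') * f j (pull (aJ k m J) G'))) (GG rR ℓ)) ∧
    ∀ (δ s t : ℝ), 0 < δ → δ ≤ 1 → 0 ≤ s → 0 ≤ t →
      -((6 * ((m : ℝ) + 1)) ^ 4 * nodes m δ (fun s' t' => ST s' t' + SR s' t') *
        bads (Fin (k + 2 * m)) (2 / δ * s) (2 / δ * t)) ≤
      ∑ ℓ : Fin (k + 2 * m) → Fin 3 × ZMod L, if Good (mks ℓ) then W s t β ℓ *
        ∑ j : Fin r, avg (fun G' : Finset (Finset (Fin k ⊕ (Fin m ⊕ Fin m))) =>
          ∑ J, c J * (f j (pull (left k m) G') * f j (pull (aJ k m J) G'))) (GG rQ ℓ) else 0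

/-- (GAP) the polynomial gap. `N = k + 2m`, `L = κ - 1`. If `L > N` every 3-graph on `N` vertices is
`K_κ^3`-free, in particular the complete one, for which the hypothesis gives `1 ≤ lam`
(`pull` of the complete 3-graph is complete, so each term is `c J * f j (complete)² ≥ 0`), and
`4/L² ≥ 1/(L² (2N)^71)`. Also if `lam > 1` nothing is to show. Let `L ≤ N` (so `N ≥ 3`), `lam ≤ 1`. Put
`τ = 1/(2N)^23`, `t = τ`, `s = τ/2`, `β = bet L s t`, `δ = 1/(2N³)`, `Φ G = edgeDens G + ∑ j, avg ..`.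
For `X = rT, rR`: `GG X ℓ` is `K_κ^3`-free, so at the nodes (`s', t' ≤ δ N² = 1/(2N)`, as `m + 1 ≤ N`)
`ST s' t' ≤ ∑ ℓ, W * (lam - edgeDens) ≤ (1+s'+t')^N ≤ (1 + 1/N)^N ≤ 3`; so `nodes(ST + SR) ≤ 6 N²`.
`bads (Fin N) (2/δ s) (2/δ t) ≤ N^4 (4N³)^4 s² t² (1+4N³(s+t))^N ≤ 3 · 256 N^16 s² t²`, together
`≤ (6N)^4 · 6N² · 768 N^16 s² t² ≤ 2 (2N)^22 s² t²` (`1296·6·768 = 5971968 ≤ 2·2^22`).
For good `ℓ` `GG rQ ℓ` is `K_κ^3`-free (= `GG rT ℓ` or `GG rR ℓ`), so `∑_{good} W Φ(GG rQ ℓ) ≤ lam ∑_{good} W ≤ lam (1+s+t)^N`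
(`lam ≥ 0` by the complement: `lam ≥` the value at the empty graph). And
`∑_{good} W edgeDens ≥ ∑_{all} W edgeDens - bads s t ≥ (1+s+t)^(N-3) ((1-4/L²)(1+s+t)³ + (3/8) τ³) - 3 N^4 s² t²`
by (EDGE), (DENS), (BADS). So `(lam - (1 - 4/L²)) (1+s+t)^N ≥ (3/8) τ³ - (3N^4 + 2(2N)^22) τ⁴/4 ≥ (3/8) τ³ - (2N)^22 τ⁴ ≥ (1/5) τ³`,
`(1+s+t)^N ≤ 3`, and `τ³/15 = 1/(15 (2N)^69) ≥ 1/(2N)^71 ≥ 1/(L² (2N)^71)`. -/
def S_GAP : Prop := ∀ (κ : ℕ), 4 ≤ κ → ∀ (k m : ℕ), 1 ≤ m → 3 ≤ k + 2 * m → ∀ (r : ℕ)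
  (f : Fin r → Finset (Finset (Fin k ⊕ Fin m)) → ℝ), (∀ j, IsSym (f j)) →
  ∀ (c : Finset (Fin m) → ℝ), (∀ J, 0 ≤ c J) → ∀ (lam : ℝ),
  (∀ G : Finset (Finset (Fin (k + 2 * m))), Is3 G → CliqueFree3 κ G →
    edgeDens G + ∑ j : Fin r, avg (fun G' : Finset (Finset (Fin k ⊕ (Fin m ⊕ Fin m))) =>
      ∑ J, c J * (f j (pull (left k m) G') * f j (pull (aJ k m J) G'))) G ≤ lam) →
  1 - 4 / ((κ : ℝ) - 1) ^ 2 +
    1 / (((κ : ℝ) - 1) ^ 2 * (2 * ((k + 2 * m : ℕ) : ℝ)) ^ 71) ≤ lam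

/-! ### from `n` vertices to samples -/

/-- (LOCR) as `S_LOC`, with the additional information that the weights vanish unless the roots are
fixed (the weights of the proof in `T_LOC.lean` have this property). -/
def S_LOCR : Prop := ∀ (k m : ℕ) (V : Type) [Fintype V] [DecidableEq V],
  k + 2 * m ≤ Fintype.card V →
  ∃ w : (Fin k ⊕ Fin m ↪ Fin k ⊕ (Fin m ⊕ Fin m)) → ℝ, (∀ a, 0 ≤ w a) ∧
    (∀ a, w a ≠ 0 → ∀ i, a (Sum.inl i) = Sum.inl i) ∧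
    ∀ (f : Finset (Finset (Fin k ⊕ Fin m)) → ℝ), IsSym f → ∀ H : Finset (Finset V),
      finSq f H = ((Fintype.card V).descFactorial (k + 2 * m) : ℝ) *
        avg (fun G : Finset (Finset (Fin k ⊕ (Fin m ⊕ Fin m))) =>
          square f G + ∑ a, w a * (f (pull (left k m) G) * f (pull a G))) H

/-- (CAN) canonical form of an overlap. For `a` fixing the roots let `J` be the set of the `i` such that
`inr (inl i)` is in the range of `a`. There are a permutation `σ` of `Fin m` and a permutation `π` of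
`Fin k ⊕ (Fin m ⊕ Fin m)` which fixes the range of `left` pointwise, with
`(freePerm k σ).trans a = (aJ k m J).trans π` (`σ` maps `i ∈ J` to the `i'` with `a (inr i') = inr (inl i)`; extend by
`Equiv.extendSubtype`). So `f (pull left G) * f (pull a G) = g (pull π G)` with
`g G = f (pull left G) * f (pull (aJ k m J) G)`, and `avg (fun G => g (pull π G)) H = avg g H`
(`pull_pull`, `χ ↦ π.toEmbedding.trans χ` is a bijection). -/
def S_CAN : Prop := ∀ (k m : ℕ) (a : Fin k ⊕ Fin m ↪ Fin k ⊕ (Fin m ⊕ Fin m)),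
  (∀ i, a (Sum.inl i) = Sum.inl i) → ∃ J : Finset (Fin m),
    ∀ (f : Finset (Finset (Fin k ⊕ Fin m)) → ℝ), IsSym f →
    ∀ (V : Type) [Fintype V] [DecidableEq V] (H : Finset (Finset V)),
      avg (fun G : Finset (Finset (Fin k ⊕ (Fin m ⊕ Fin m))) => f (pull (left k m) G) * f (pull a G)) H =
      avg (fun G : Finset (Finset (Fin k ⊕ (Fin m ⊕ Fin m))) =>
        f (pull (left k m) G) * f (pull (aJ k m J) G)) H

/-- (LOCJ) from (LOCR) and (CAN): `c J = [J = ∅] + ∑_{a ↦ J} w a` (`aJ k m ∅ = right k m`), multiplied by the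
falling factorial. -/
def S_LOCJ : Prop := ∀ (k m : ℕ) (V : Type) [Fintype V] [DecidableEq V],
  k + 2 * m ≤ Fintype.card V →
  ∃ c : Finset (Fin m) → ℝ, (∀ J, 0 ≤ c J) ∧
    ∀ (f : Finset (Finset (Fin k ⊕ Fin m)) → ℝ), IsSym f → ∀ H : Finset (Finset V),
      finSq f H = avg (fun G : Finset (Finset (Fin k ⊕ (Fin m ⊕ Fin m))) =>
        ∑ J, c J * (f (pull (left k m) G) * f (pull (aJ k m J) G))) H

/-- (LBP) as the proof of `S_LBK` (file `T_LBK.lean`), with (LOCJ) instead of (LOC) and (GAP) instead of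
(BNDK); no condition on `|V|` but `k + 2m ≤ |V|`. (Divide the identity by `C(n,3)`: `c' J = c J / C(n,3)`.) -/
def S_LBP : Prop := ∀ (κ : ℕ), 4 ≤ κ → ∀ (k m : ℕ), 1 ≤ m → 3 ≤ k + 2 * m →
  ∀ (V : Type) [Fintype V] [DecidableEq V] (r : ℕ) (f : Fin r → Finset (Finset (Fin k ⊕ Fin m)) → ℝ) (M : ℝ),
  k + 2 * m ≤ Fintype.card V →
  (∀ H : Finset (Finset V), Is3 H → CliqueFree3 κ H → (H.card : ℝ) + ∑ j : Fin r, finSq (f j) H = M) →
  (1 - 4 / ((κ : ℝ) - 1) ^ 2 +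
    1 / (((κ : ℝ) - 1) ^ 2 * (2 * ((k + 2 * m : ℕ) : ℝ)) ^ 71)) *
    (((Fintype.card V).choose 3 : ℕ) : ℝ) ≤ M

/-- (MAINP) as the proof of `S_MAINK` (file `T_MAINK.lean`). -/
def S_MAINP : Prop := ∀ (κ : ℕ), 4 ≤ κ → ∀ (d : ℕ), 1 ≤ d → ∀ (V : Type) [Fintype V] [DecidableEq V] (r : ℕ)
  (q : Fin r → (Fin d ↪ V) → Finset (Finset (Fin d)) → ℝ) (M : ℝ), 3 * d ≤ Fintype.card V →
  (∀ H : Finset (Finset V), Is3 H → CliqueFree3 κ H →
    (H.card : ℝ) + ∑ i : Fin r, (∑ θ : Fin d ↪ V, q i θ (pull θ H)) ^ 2 = M) →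
  (1 - 4 / ((κ : ℝ) - 1) ^ 2 + 1 / (((κ : ℝ) - 1) ^ 2 * (6 * (d : ℝ)) ^ 71)) *
    (((Fintype.card V).choose 3 : ℕ) : ℝ) ≤ M

/-- (NUMP) numerical end (as `T_NUM.lean`): `b ≤ (4/9 - 1/(9X)) C(n,3)`, `X = (6d)^71`, `n ≥ (6d)^73 ≥ 36 X`;
`f(n) ≥ (2n³ - 9n²)/27`, `(4/9) C(n,3) ≤ (2/27)(n³ - 3n² + 2n)`, `C(n,3) ≥ n³/7`. -/
def S_NUMP : Prop := ∀ (d n : ℕ), 1 ≤ d → (6 * d) ^ 73 ≤ n → ∀ b : ℝ,
  (5 / 9 + 1 / (9 * (6 * (d : ℝ)) ^ 71)) * ((n.choose 3 : ℕ) : ℝ) ≤ ((n.choose 3 : ℕ) : ℝ) - b →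
  b ≤ (turanNumber n : ℝ) - (n : ℝ) ^ 3 / (6 * (d : ℝ)) ^ 75

/-- (UGP) the polynomial uniform gap for flag algebra certificates with arbitrarily many kinds of
squares. As (GAP); for every pair `(a, b) ∈ pairs N` and every `j < r` first replace `f a b j` by its
symmetrisation (`avg (square f) G` does not change when `f` is replaced by `(1/b!) ∑ σ, f (pull (freePerm a σ) ·)`),
`C = Fin a`, `R = Fin b`, `V = Fin N`, and add up the inequalities of (PAIR) over all pairs and `j`, with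
`m = N` (so `card R ≤ N`, `(6(N+1))^4`, nodes `δ (i+1)²`, `i ≤ N`): one gets the exponent `80` easily. -/
def S_UGP : Prop := ∀ (κ : ℕ), 4 ≤ κ → ∀ (N : ℕ), 3 ≤ N → ∀ (r : ℕ)
  (f : ∀ k m : ℕ, Fin r → Finset (Finset (Fin k ⊕ Fin m)) → ℝ) (lam : ℝ),
  (∀ G : Finset (Finset (Fin N)), Is3 G → CliqueFree3 κ G → edgeDens G + sos N r f G ≤ lam) →
  1 - 4 / ((κ : ℝ) - 1) ^ 2 + 1 / (((κ : ℝ) - 1) ^ 2 * (2 * (N : ℝ)) ^ 80) ≤ lam

end Pool.Agent.T3h36.PP
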