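import Pool.Agent.T3h36.PP.Stm

/-! (GRP) -/

set_option autoImplicit false
open Finset
open Pool.Agent.T2h36 Pool.Agent.T2h36.Uni

namespace Pool.Agent.T3h36.PP.GRP

open Pool.Agent.T3h36

/-- the common positions -/
abbrev CC (k : ℕ) {m : ℕ} (J : Finset (Fin m)) : Type := Fin k ⊕ {i : Fin m // i ∈ J}

/-- the further positions -/
abbrev RR {m : ℕ} (J : Finset (Fin m)) : Type := {i : Fin m // ¬ i ∈ J}

/-- the obvious bijection -/
def eps (k : ℕ) {m : ℕ} (J : Finset (Fin m)) : CC k J ⊕ RR J ≃ Fin k ⊕ Fin m :=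
  (Equiv.sumAssoc _ _ _).trans (Equiv.sumCongr (Equiv.refl _) (Equiv.sumCompl (fun i => i ∈ J)))

theorem eps_ll {k m : ℕ} (J : Finset (Fin m)) (x : Fin k) :
    eps k J (Sum.inl (Sum.inl x)) = Sum.inl x := rfl

theorem eps_lr {k m : ℕ} (J : Finset (Fin m)) (i : {i : Fin m // i ∈ J}) :
    eps k J (Sum.inl (Sum.inr i)) = Sum.inr i.1 := rfl

theorem eps_r {k m : ℕ} (J : Finset (Fin m)) (i : RR J) :
    eps k J (Sum.inr i) = Sum.inr i.1 := rfl

/-- the function of the labels -/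
noncomputable def FF {k m L : ℕ} (X : Fin 3 × ZMod L → Fin 3 × ZMod L → Fin 3 × ZMod L → Prop)
    (f : Finset (Finset (Fin k ⊕ Fin m)) → ℝ) (J : Finset (Fin m))
    (ℓ : CC k J ⊕ RR J → Fin 3 × ZMod L) : ℝ := f (GG X (ℓ ∘ (eps k J).symm))

theorem FF_rsym (hg : S_GRAPH) {k m L : ℕ}
    (X : Fin 3 × ZMod L → Fin 3 × ZMod L → Fin 3 × ZMod L → Prop)
    (f : Finset (Finset (Fin k ⊕ Fin m)) → ℝ) (hf : IsSym f) (J : Finset (Fin m)) :
    RSym (FF X f J) := by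
  intro σ ℓ
  have h1 : (fun v => ℓ (Sum.map id σ v)) ∘ (eps k J).symm = (ℓ ∘ (eps k J).symm) ∘
      (freePerm k ((Equiv.sumCompl (fun i => i ∈ J)).symm.trans
        ((Equiv.sumCongr (Equiv.refl _) σ).trans (Equiv.sumCompl (fun i => i ∈ J))))) := by
    funext u
    obtain ⟨v, rfl⟩ := (eps k J).surjective u
    simp only [Function.comp_apply, Equiv.symm_apply_apply]
    congr 1
    rw [Equiv.eq_symm_apply]
    rcases v with (x | i) | i
    · rfl
    · show Sum.inr i.1 = Sum.inr _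
      congr 1
      simp
    · show Sum.inr (σ i).1 = Sum.inr _
      congr 1
      simp
  unfold FF
  rw [h1, ← hg.2.1, hf]

/-- the bijection of the vertices -/
noncomputable def chi (k m : ℕ) : (Fin k ⊕ (Fin m ⊕ Fin m)) ≃ Fin (k + 2 * m) :=
  Fintype.equivOfCardEq (by simp; ring)

/-- the first copy -/
noncomputable def a1 (k : ℕ) {m : ℕ} (J : Finset (Fin m)) : CC k J ⊕ RR J ↪ Fin (k + 2 * m) :=
  (eps k J).toEmbedding.trans ((left k m).trans (chi k m).toEmbedding)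

/-- the second copy -/
noncomputable def a2 (k : ℕ) {m : ℕ} (J : Finset (Fin m)) : CC k J ⊕ RR J ↪ Fin (k + 2 * m) :=
  (eps k J).toEmbedding.trans ((aJ k m J).trans (chi k m).toEmbedding)

theorem aJ_l {k m : ℕ} (J : Finset (Fin m)) (x : Fin k) : aJ k m J (Sum.inl x) = Sum.inl x := rfl

theorem aJ_r {k m : ℕ} (J : Finset (Fin m)) (i : Fin m) : aJ k m J (Sum.inr i) =
    if i ∈ J then Sum.inr (Sum.inl i) else Sum.inr (Sum.inr i) := rfl

theorem left_r {k m : ℕ} (i : Fin m) : left k m (Sum.inr i) = Sum.inr (Sum.inl i) := rfl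

theorem a12 {k m : ℕ} (J : Finset (Fin m)) (c : CC k J) :
    a1 k J (Sum.inl c) = a2 k J (Sum.inl c) := by
  unfold a1 a2
  simp only [Function.Embedding.trans_apply, Equiv.coe_toEmbedding]
  congr 1
  rcases c with x | i
  · rfl
  · rw [eps_lr, aJ_r, left_r, if_pos i.2]

theorem a1ne {k m : ℕ} (J : Finset (Fin m)) (x y : RR J) :
    a1 k J (Sum.inr x) ≠ a2 k J (Sum.inr y) := by
  unfold a1 a2
  simp only [Function.Embedding.trans_apply, Equiv.coe_toEmbedding]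
  intro h
  have h1 := (chi k m).injective h
  rw [eps_r, eps_r, aJ_r, left_r, if_neg y.2] at h1
  simp at h1

theorem FF_a1 {k m L : ℕ} (X : Fin 3 × ZMod L → Fin 3 × ZMod L → Fin 3 × ZMod L → Prop)
    (f : Finset (Finset (Fin k ⊕ Fin m)) → ℝ) (J : Finset (Fin m))
    (ℓ : Fin (k + 2 * m) → Fin 3 × ZMod L) :
    FF X f J (ℓ ∘ a1 k J) = f (GG X ((ℓ ∘ chi k m) ∘ left k m)) := by
  unfold FF
  congr 2
  funext u
  simp [a1]

theorem FF_a2 {k m L : ℕ} (X : Fin 3 × ZMod L → Fin 3 × ZMod L → Fin 3 × ZMod L → Prop)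
    (f : Finset (Finset (Fin k ⊕ Fin m)) → ℝ) (J : Finset (Fin m))
    (ℓ : Fin (k + 2 * m) → Fin 3 × ZMod L) :
    FF X f J (ℓ ∘ a2 k J) = f (GG X ((ℓ ∘ chi k m) ∘ aJ k m J)) := by
  unfold FF
  congr 2
  funext u
  simp [a2]

theorem key (hg : S_GRAPH) (hs : S_SAMP) {k m L : ℕ} [NeZero L]
    (X : Fin 3 × ZMod L → Fin 3 × ZMod L → Fin 3 × ZMod L → Prop)
    (ψ : (Fin (k + 2 * m) → Fin 3 × ZMod L) → ℝ)
    (hψ : ∀ (π : Equiv.Perm (Fin (k + 2 * m))) ℓ, ψ (ℓ ∘ π) = ψ ℓ)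
    (f : Finset (Finset (Fin k ⊕ Fin m)) → ℝ) (c : Finset (Fin m) → ℝ) (β : ZMod L → ℝ) (s t : ℝ) :
    ∑ ℓ : Fin (k + 2 * m) → Fin 3 × ZMod L, W s t β ℓ * (ψ ℓ *
      avg (fun G' : Finset (Finset (Fin k ⊕ (Fin m ⊕ Fin m))) =>
        ∑ J, c J * (f (pull (left k m) G') * f (pull (aJ k m J) G'))) (GG X ℓ)) =
    ∑ J, c J * ∑ ℓ : Fin (k + 2 * m) → Fin 3 × ZMod L, W s t β ℓ * (ψ ℓ *
      (FF X f J (ℓ ∘ a1 k J) * FF X f J (ℓ ∘ a2 k J))) := by
  rw [hs (Fin (k + 2 * m)) (Fin k ⊕ (Fin m ⊕ Fin m)) (ZMod L) X β s t ψ hψ _ (chi k m).toEmbedding]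
  simp only [Finset.mul_sum]
  rw [Finset.sum_comm]
  refine Finset.sum_congr rfl fun J _ => Finset.sum_congr rfl fun ℓ _ => ?_
  rw [FF_a1, FF_a2, hg.2.1, hg.2.1]
  simp only [Equiv.coe_toEmbedding]
  ring

theorem nm_comp {P Q : Type} [Fintype P] [Fintype Q] (z : Fin 3) (μ : P → Fin 3) (e : Q ↪ P) :
    nm z (μ ∘ e) ≤ nm z μ := by
  classical
  unfold nm
  rw [← Finset.card_map e]
  refine Finset.card_le_card fun x hx => ?_
  rw [Finset.mem_map] at hx
  obtain ⟨y, hy, rfl⟩ := hx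
  simpa using hy

theorem nm_equiv {P Q : Type} [Fintype P] [Fintype Q] (z : Fin 3) (μ : P → Fin 3) (e : Q ≃ P) :
    nm z (μ ∘ e) = nm z μ := by
  refine le_antisymm (nm_comp z μ e.toEmbedding) ?_
  have h := nm_comp z (μ ∘ e) e.symm.toEmbedding
  have h2 : (μ ∘ e) ∘ e.symm.toEmbedding = μ := by
    funext x
    simp
  rw [h2] at h
  exact h

theorem good_comp {P Q : Type} [Fintype P] [Fintype Q] (μ : P → Fin 3) (e : Q ↪ P) (h : Good μ) :
    Good (μ ∘ e) := by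
  rcases h with h | h
  · exact Or.inl ((nm_comp 1 μ e).trans h)
  · exact Or.inr ((nm_comp 2 μ e).trans h)

theorem FF_hat (hg : S_GRAPH) {k m L : ℕ} [NeZero L] (f : Finset (Finset (Fin k ⊕ Fin m)) → ℝ)
    (J : Finset (Fin m)) (ℓ : CC k J ⊕ RR J → Fin 3 × ZMod L) (h : Good (mks ℓ)) :
    FF rQ f J ℓ = hat (FF rT f J) (FF rR f J) ℓ := by
  unfold hat FF
  have e1 : ∀ z : Fin 3, nm z (mks (ℓ ∘ (eps k J).symm)) = nm z (mks ℓ) := fun z =>
    nm_equiv z (mks ℓ) (eps k J).symm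
  split_ifs with h1 h2
  · rw [hg.2.2.2.1 L _ _ (by rw [e1]; exact h1)]
  · rw [hg.2.2.2.2 L _ _ (by rw [e1]; exact h2)]
  · rcases h with h | h
    · exact absurd h h1
    · exact absurd h h2

theorem nodes_sum {ι : Type} (S : Finset ι) (m : ℕ) (δ : ℝ) (g : ι → ℝ → ℝ → ℝ) :
    nodes m δ (fun s t => ∑ p ∈ S, g p s t) = ∑ p ∈ S, nodes m δ (g p) := by
  unfold nodes
  rw [Finset.sum_comm (s := S)]
  refine Finset.sum_congr rfl fun i _ => ?_
  rw [Finset.sum_comm]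

theorem nodes_mul (m : ℕ) (δ a : ℝ) (g : ℝ → ℝ → ℝ) :
    nodes m δ (fun s t => a * g s t) = a * nodes m δ g := by
  unfold nodes
  simp only [Finset.mul_sum]

theorem partA (hp : S_PAIR) (hg : S_GRAPH) (hs : S_SAMP) {k m r L : ℕ} [NeZero L]
    (X : Fin 3 × ZMod L → Fin 3 × ZMod L → Fin 3 × ZMod L → Prop)
    (f : Fin r → Finset (Finset (Fin k ⊕ Fin m)) → ℝ) (c : Finset (Fin m) → ℝ)
    (hc : ∀ J, 0 ≤ c J) (β : ZMod L → ℝ) (hβ : ∀ p, 0 ≤ β p) (hβ1 : ∑ p, β p = 1) (s t : ℝ)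
    (h0 : 0 ≤ s) (h0' : 0 ≤ t) :
    ∑ j : Fin r, ∑ J : Finset (Fin m), c J * SS β (FF X (f j) J) s t ≤
      ∑ ℓ : Fin (k + 2 * m) → Fin 3 × ZMod L, W s t β ℓ *
        ∑ j : Fin r, avg (fun G' : Finset (Finset (Fin k ⊕ (Fin m ⊕ Fin m))) =>
          ∑ J, c J * (f j (pull (left k m) G') * f j (pull (aJ k m J) G'))) (GG X ℓ) := by
  simp only [Finset.mul_sum]
  rw [Finset.sum_comm (s := (univ : Finset (Fin (k + 2 * m) → Fin 3 × ZMod L)))]
  refine Finset.sum_le_sum fun j _ => ?_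
  have h1 := key hg hs X (fun _ => 1) (fun _ _ => rfl) (f j) c β s t
  simp only [one_mul] at h1
  rw [h1]
  refine Finset.sum_le_sum fun J _ => mul_le_mul_of_nonneg_left ?_ (hc J)
  exact (hp (Fin (k + 2 * m)) (CC k J) (RR J) (ZMod L) (a1 k J) (a2 k J) (a12 J) (a1ne J) β hβ hβ1
    s t h0 h0').1 (FF X (f j) J)

theorem t_GRP (hp : S_PAIR) (hg : S_GRAPH) (hs : S_SAMP) : S_GRP := by
  intro L _ hL k m r f hf c hc β hβ hβ1
  refine ⟨fun s t => ∑ j : Fin r, ∑ J : Finset (Fin m), c J * SS β (FF rT (f j) J) s t,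
    fun s t => ∑ j : Fin r, ∑ J : Finset (Fin m), c J * SS β (FF rR (f j) J) s t,
    fun s' t' h h' => partA hp hg hs rT f c hc β hβ hβ1 s' t' h h',
    fun s' t' h h' => partA hp hg hs rR f c hc β hβ hβ1 s' t' h h', ?_⟩
  intro δ s t hδ hδ1 h0 h0'
  have e1 : nodes m δ (fun s' t' => (∑ j : Fin r, ∑ J : Finset (Fin m), c J * SS β (FF rT (f j) J) s' t') +
      ∑ j : Fin r, ∑ J : Finset (Fin m), c J * SS β (FF rR (f j) J) s' t') =
      ∑ j : Fin r, ∑ J : Finset (Fin m), c J * nodes m δ (fun s' t' =>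
        SS β (FF rT (f j) J) s' t' + SS β (FF rR (f j) J) s' t') := by
    have e0 : (fun s' t' => (∑ j : Fin r, ∑ J : Finset (Fin m), c J * SS β (FF rT (f j) J) s' t') +
        ∑ j : Fin r, ∑ J : Finset (Fin m), c J * SS β (FF rR (f j) J) s' t') =
        fun s' t' => ∑ j : Fin r, ∑ J : Finset (Fin m), c J *
          (SS β (FF rT (f j) J) s' t' + SS β (FF rR (f j) J) s' t') := by
      funext s' t'
      simp only [mul_add, Finset.sum_add_distrib]
    rw [e0, nodes_sum]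
    refine Finset.sum_congr rfl fun j _ => ?_
    rw [nodes_sum]
    refine Finset.sum_congr rfl fun J _ => ?_
    rw [nodes_mul]
  have e2 : ∑ ℓ : Fin (k + 2 * m) → Fin 3 × ZMod L, (if Good (mks ℓ) then W s t β ℓ *
        ∑ j : Fin r, avg (fun G' : Finset (Finset (Fin k ⊕ (Fin m ⊕ Fin m))) =>
          ∑ J, c J * (f j (pull (left k m) G') * f j (pull (aJ k m J) G'))) (GG rQ ℓ) else 0) =
      ∑ j : Fin r, ∑ J : Finset (Fin m), c J * ∑ ℓ : Fin (k + 2 * m) → Fin 3 × ZMod L,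
        if Good (mks ℓ) then W s t β ℓ * (hat (FF rT (f j) J) (FF rR (f j) J) (ℓ ∘ a1 k J) *
          hat (FF rT (f j) J) (FF rR (f j) J) (ℓ ∘ a2 k J)) else 0 := by
    have h1 : ∀ ℓ : Fin (k + 2 * m) → Fin 3 × ZMod L, (if Good (mks ℓ) then W s t β ℓ *
        ∑ j : Fin r, avg (fun G' : Finset (Finset (Fin k ⊕ (Fin m ⊕ Fin m))) =>
          ∑ J, c J * (f j (pull (left k m) G') * f j (pull (aJ k m J) G'))) (GG rQ ℓ) else 0) =
        ∑ j : Fin r, W s t β ℓ * ((if Good (mks ℓ) then 1 else 0) *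
          avg (fun G' : Finset (Finset (Fin k ⊕ (Fin m ⊕ Fin m))) =>
          ∑ J, c J * (f j (pull (left k m) G') * f j (pull (aJ k m J) G'))) (GG rQ ℓ)) := by
      intro ℓ
      split_ifs
      · rw [Finset.mul_sum]
        simp only [one_mul]
      · simp
    simp only [h1]
    rw [Finset.sum_comm]
    refine Finset.sum_congr rfl fun j _ => ?_
    rw [key hg hs rQ (fun ℓ => if Good (mks ℓ) then 1 else 0) (fun π ℓ => ?_) (f j) c β s t]
    · refine Finset.sum_congr rfl fun J _ => ?_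
      congr 1
      refine Finset.sum_congr rfl fun ℓ _ => ?_
      split_ifs with hgd
      · rw [FF_hat hg (f j) J (ℓ ∘ a1 k J) (good_comp _ (a1 k J) hgd),
          FF_hat hg (f j) J (ℓ ∘ a2 k J) (good_comp _ (a2 k J) hgd), one_mul]
      · ring
    · have h2 : Good (mks (ℓ ∘ π)) ↔ Good (mks ℓ) := by
        constructor
        · intro h
          have := good_comp _ π.symm.toEmbedding h
          convert this using 1
          funext x
          simp [mks]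
        · intro h
          exact good_comp _ π.toEmbedding h
      simp only [h2]
  rw [e1, e2, Finset.mul_sum, Finset.sum_mul, ← Finset.sum_neg_distrib]
  refine Finset.sum_le_sum fun j _ => ?_
  rw [Finset.mul_sum, Finset.sum_mul, ← Finset.sum_neg_distrib]
  refine Finset.sum_le_sum fun J _ => ?_
  have h3 := (hp (Fin (k + 2 * m)) (CC k J) (RR J) (ZMod L) (a1 k J) (a2 k J) (a12 J) (a1ne J) β hβ
    hβ1 s t h0 h0').2 m (by
      refine (Fintype.card_subtype_le _).trans ?_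
      simp) δ hδ hδ1 (FF rT (f j) J) (FF rR (f j) J) (FF_rsym hg rT (f j) (hf j) J)
      (FF_rsym hg rR (f j) (hf j) J)
  have h4 := mul_le_mul_of_nonneg_left h3 (hc J)
  refine le_trans (le_of_eq ?_) h4
  ring

end Pool.Agent.T3h36.PP.GRP
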