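import Pool.Agent.T3h36.PP.Stm

set_option autoImplicit false
open Finset
open scoped Nat

namespace Pool.Agent.T3h36.PP
namespace LAG1

theorem refl (t : ℕ) : ∏ i ∈ range t, ((t : ℝ) - i) = (t ! : ℝ) := by
  rw [← Finset.prod_range_add_one_eq_factorial, Nat.cast_prod,
    ← Finset.prod_range_reflect (fun i => (((i + 1 : ℕ) : ℝ))) t]
  apply Finset.prod_congr rfl
  intro i hi
  have h := Finset.mem_range.mp hi
  have : t - 1 - i + 1 = t - i := by omega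
  rw [this, Nat.cast_sub h.le]

theorem base (t : ℕ) : (∏ i ∈ (Icc 1 (t + 1)).erase (t + 1),
    ((i : ℝ) ^ 2 / |(i : ℝ) ^ 2 - ((t + 1 : ℕ) : ℝ) ^ 2|)) *
      ((((t + 1 - (t + 1)) ! : ℕ) : ℝ) * (((t + 1 + (t + 1)) ! : ℕ) : ℝ)) =
    2 * (((t + 1) ! : ℕ) : ℝ) ^ 2 := by
  have e0 : (Icc 1 (t + 1)).erase (t + 1) = Ico 1 (t + 1) := by
    ext i
    simp only [mem_erase, mem_Icc, mem_Ico]
    omega
  rw [e0, Finset.prod_Ico_eq_prod_range, Nat.add_sub_cancel]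
  have e1 : ∏ i ∈ range t, ((((1 + i : ℕ) : ℝ)) ^ 2 / |(((1 + i : ℕ) : ℝ)) ^ 2 - ((t + 1 : ℕ) : ℝ) ^ 2|) =
      ((t ! : ℕ) : ℝ) ^ 2 / (((t ! : ℕ) : ℝ) * ∏ i ∈ range t, (((t + 2 + i : ℕ)) : ℝ)) := by
    rw [← refl t, ← Finset.prod_mul_distrib]
    rw [refl t, ← Finset.prod_range_add_one_eq_factorial, Nat.cast_prod, ← Finset.prod_pow,
      ← Finset.prod_div_distrib]
    apply Finset.prod_congr rfl
    intro i hi
    have h := Finset.mem_range.mp hi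
    have h' : (i : ℝ) + 1 ≤ t := by exact_mod_cast h
    have e2 : |(((1 + i : ℕ) : ℝ)) ^ 2 - ((t + 1 : ℕ) : ℝ) ^ 2| =
        ((t : ℝ) - i) * (((t + 2 + i : ℕ)) : ℝ) := by
      have : (((1 + i : ℕ) : ℝ)) ^ 2 - ((t + 1 : ℕ) : ℝ) ^ 2 =
          -(((t : ℝ) - i) * (((t + 2 + i : ℕ)) : ℝ)) := by
        push_cast; ring
      rw [this, abs_neg, abs_of_nonneg]
      apply mul_nonneg
      · linarith
      · positivity
    rw [e2]
    congr 1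
    push_cast
    ring
  have e3 : (((t + 1) ! : ℕ) : ℝ) * ∏ i ∈ range t, (((t + 2 + i : ℕ)) : ℝ) =
      (((t + 1 + t) ! : ℕ) : ℝ) := by
    rw [← Nat.cast_prod, ← Nat.cast_mul, ← Nat.ascFactorial_eq_prod_range]
    congr 1
    exact Nat.factorial_mul_ascFactorial (t + 1) t
  rw [e1, Nat.sub_self, Nat.factorial_zero, Nat.cast_one, one_mul]
  have e4 : (((t + 1 + (t + 1)) ! : ℕ) : ℝ) = (2 * (t + 1)) * (((t + 1 + t) ! : ℕ) : ℝ) := by
    rw [show t + 1 + (t + 1) = (t + 1 + t) + 1 by ring, Nat.factorial_succ, Nat.cast_mul]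
    congr 1
    push_cast; ring
  rw [e4, ← e3]
  have p1 : ∏ i ∈ range t, (((t + 2 + i : ℕ)) : ℝ) ≠ 0 := by
    apply Finset.prod_ne_zero_iff.mpr
    intro i _
    positivity
  have p2 : ((t ! : ℕ) : ℝ) ≠ 0 := by positivity
  rw [Nat.factorial_succ, Nat.cast_mul]
  field_simp
  push_cast
  ring

theorem key (j : ℕ) (hj : 1 ≤ j) : ∀ M, j ≤ M →
    (∏ i ∈ (Icc 1 M).erase j, ((i : ℝ) ^ 2 / |(i : ℝ) ^ 2 - (j : ℝ) ^ 2|)) *
      ((((M - j) ! : ℕ) : ℝ) * (((M + j) ! : ℕ) : ℝ)) = 2 * ((M ! : ℕ) : ℝ) ^ 2 := by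
  apply Nat.le_induction
  · obtain ⟨t, rfl⟩ : ∃ t, j = t + 1 := ⟨j - 1, by omega⟩
    exact base t
  · intro M hM ih
    have e0 : (Icc 1 (M + 1)).erase j = insert (M + 1) ((Icc 1 M).erase j) := by
      ext i
      simp only [mem_erase, mem_Icc, mem_insert]
      omega
    rw [e0, Finset.prod_insert (by simp)]
    have hM' : (j : ℝ) ≤ M := by exact_mod_cast hM
    have e1 : M + 1 - j = (M - j) + 1 := by omega
    have e2 : M + 1 + j = (M + j) + 1 := by ring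
    rw [e1, e2, Nat.factorial_succ, Nat.factorial_succ, Nat.factorial_succ, Nat.cast_mul,
      Nat.cast_mul, Nat.cast_mul]
    have e3 : |(((M + 1 : ℕ)) : ℝ) ^ 2 - (j : ℝ) ^ 2| =
        (((M - j + 1 : ℕ)) : ℝ) * (((M + j + 1 : ℕ)) : ℝ) := by
      rw [abs_of_nonneg]
      · rw [Nat.cast_add (M - j), Nat.cast_sub hM]
        push_cast
        ring
      · push_cast
        nlinarith
    rw [e3]
    have p1 : (((M - j + 1 : ℕ)) : ℝ) ≠ 0 := by positivity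
    have p2 : (((M + j + 1 : ℕ)) : ℝ) ≠ 0 := by positivity
    set P := ∏ i ∈ (Icc 1 M).erase j, ((i : ℝ) ^ 2 / |(i : ℝ) ^ 2 - (j : ℝ) ^ 2|) with hP
    calc (((M + 1 : ℕ)) : ℝ) ^ 2 / ((((M - j + 1 : ℕ)) : ℝ) * (((M + j + 1 : ℕ)) : ℝ)) * P *
          ((((M - j + 1 : ℕ)) : ℝ) * (((M - j) ! : ℕ) : ℝ) *
            ((((M + j + 1 : ℕ)) : ℝ) * (((M + j) ! : ℕ) : ℝ)))
        = (((M + 1 : ℕ)) : ℝ) ^ 2 *
            (P * ((((M - j) ! : ℕ) : ℝ) * (((M + j) ! : ℕ) : ℝ))) := by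
          field_simp
      _ = 2 * ((((M + 1 : ℕ)) : ℝ) * ((M ! : ℕ) : ℝ)) ^ 2 := by
          rw [ih]; ring

theorem fac (M j : ℕ) (h : j ≤ M) : M ! * M ! ≤ (M - j) ! * (M + j) ! := by
  have h1 := Nat.factorial_mul_descFactorial h
  have h2 := Nat.descFactorial_le_pow M j
  have h3 : M ! * (M + 1) ^ j ≤ (M + j) ! := Nat.factorial_mul_pow_le_factorial
  have h4 : M ^ j ≤ (M + 1) ^ j := Nat.pow_le_pow_left (Nat.le_succ M) j
  calc M ! * M ! = ((M - j) ! * M.descFactorial j) * M ! := by rw [h1]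
    _ = (M - j) ! * (M ! * M.descFactorial j) := by ring
    _ ≤ (M - j) ! * (M ! * (M + 1) ^ j) :=
        Nat.mul_le_mul_left _ (Nat.mul_le_mul_left _ (h2.trans h4))
    _ ≤ (M - j) ! * (M + j) ! := Nat.mul_le_mul_left _ h3

end LAG1

theorem t_LAG1 : S_LAG1 := by
  intro M j hj hM
  have h1 := LAG1.key j hj M hM
  have h2 : ((M ! : ℕ) : ℝ) ^ 2 ≤ (((M - j) ! : ℕ) : ℝ) * (((M + j) ! : ℕ) : ℝ) := by
    have := LAG1.fac M j hM
    rw [sq]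
    exact_mod_cast this
  set P := ∏ i ∈ (Icc 1 M).erase j, ((i : ℝ) ^ 2 / |(i : ℝ) ^ 2 - (j : ℝ) ^ 2|) with hP
  have h3 : (0 : ℝ) < (((M - j) ! : ℕ) : ℝ) * (((M + j) ! : ℕ) : ℝ) := by positivity
  by_contra hc
  have hc' : 2 < P := not_le.mp hc
  have := mul_lt_mul_of_pos_right hc' h3
  linarith

end Pool.Agent.T3h36.PP
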