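import Pool.Agent.T3h36.PP.Stm

set_option autoImplicit false
open Finset
open Pool.Agent.T2h36 Pool.Agent.T2h36.Uni

namespace Pool.Agent.T3h36.PP.UGP

/-! ### symmetrisation -/

section sym
variable {k m : ℕ}

/-- the symmetrisation of `f` -/
noncomputable def fs (f : Finset (Finset (Fin k ⊕ Fin m)) → ℝ) (F : Finset (Finset (Fin k ⊕ Fin m))) : ℝ :=
  (m.factorial : ℝ)⁻¹ * ∑ σ : Equiv.Perm (Fin m), f (pull (freePerm k σ) F)

theorem freePerm_mul (σ τ : Equiv.Perm (Fin m)) :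
    (freePerm k τ).trans (freePerm k σ) = freePerm k (σ * τ) := by
  ext x
  rcases x with x | x <;> rfl

theorem fs_sym (f : Finset (Finset (Fin k ⊕ Fin m)) → ℝ) : IsSym (fs f) := by
  intro σ F
  unfold fs
  congr 1
  refine Fintype.sum_equiv (Equiv.mulLeft σ) _ _ fun τ => ?_
  rw [pull_pull, freePerm_mul]
  rfl

/-- the permutation of the two groups of further vertices -/
def two (k : ℕ) {m : ℕ} (σ τ : Equiv.Perm (Fin m)) : Fin k ⊕ (Fin m ⊕ Fin m) ↪ Fin k ⊕ (Fin m ⊕ Fin m) :=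
  Function.Embedding.sumMap (Function.Embedding.refl _)
    (Function.Embedding.sumMap σ.toEmbedding τ.toEmbedding)

theorem two_left (σ τ : Equiv.Perm (Fin m)) :
    (left k m).trans (two k σ τ) = (freePerm k σ).trans (left k m) := by
  ext x
  rcases x with x | x <;> rfl

theorem two_right (σ τ : Equiv.Perm (Fin m)) :
    (right k m).trans (two k σ τ) = (freePerm k τ).trans (right k m) := by
  ext x
  rcases x with x | x <;> rfl

theorem mul_sums {ι : Type} [Fintype ι] (c : ℝ) (A B : ι → ℝ) :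
    (c * ∑ σ, A σ) * (c * ∑ τ, B τ) = (c * c) * ∑ σ, ∑ τ, A σ * B τ := by
  rw [mul_mul_mul_comm, Finset.sum_mul_sum]

theorem square_two (f : Finset (Finset (Fin k ⊕ Fin m)) → ℝ) (G : Finset (Finset (Fin k ⊕ (Fin m ⊕ Fin m))))
    (σ τ : Equiv.Perm (Fin m)) :
    f (pull (freePerm k σ) (pull (left k m) G)) * f (pull (freePerm k τ) (pull (right k m) G)) =
      square f (pull (two k σ τ) G) := by
  have hl : pull (freePerm k σ) (pull (left k m) G) =
      pull (left k m) (pull (two k σ τ) G) := by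
    rw [pull_pull (freePerm k σ) (left k m) G, pull_pull (left k m) (two k σ τ) G, two_left]
  have hr : pull (freePerm k τ) (pull (right k m) G) =
      pull (right k m) (pull (two k σ τ) G) := by
    rw [pull_pull (freePerm k τ) (right k m) G, pull_pull (right k m) (two k σ τ) G, two_right]
  rw [hl, hr]
  unfold square
  rfl

theorem square_fs (f : Finset (Finset (Fin k ⊕ Fin m)) → ℝ) (G : Finset (Finset (Fin k ⊕ (Fin m ⊕ Fin m)))) :
    square (fs f) G = ((m.factorial : ℝ)⁻¹ * (m.factorial : ℝ)⁻¹) *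
      ∑ σ : Equiv.Perm (Fin m), ∑ τ : Equiv.Perm (Fin m), square f (pull (two k σ τ) G) := by
  have h1 := mul_sums (m.factorial : ℝ)⁻¹
    (fun σ : Equiv.Perm (Fin m) => f (pull (freePerm k σ) (pull (left k m) G)))
    (fun τ : Equiv.Perm (Fin m) => f (pull (freePerm k τ) (pull (right k m) G)))
  unfold square
  unfold fs
  rw [h1]
  congr 1
  refine Finset.sum_congr rfl fun σ _ => Finset.sum_congr rfl fun τ _ => ?_
  exact square_two f G σ τ

theorem avg_square_fs (f : Finset (Finset (Fin k ⊕ Fin m)) → ℝ) {V : Type} [Fintype V] [DecidableEq V]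
    (hV : k + 2 * m ≤ Fintype.card V) (H : Finset (Finset V)) :
    avg (square (fs f)) H = avg (square f) H := by
  have h1 : (square (fs f)) = fun G => ((m.factorial : ℝ)⁻¹ * (m.factorial : ℝ)⁻¹) *
      ∑ σ : Equiv.Perm (Fin m), ∑ τ : Equiv.Perm (Fin m), square f (pull (two k σ τ) G) := by
    funext G; exact square_fs f G
  have hc : Fintype.card (Fin k ⊕ (Fin m ⊕ Fin m)) ≤ Fintype.card V := by
    simp only [Fintype.card_sum, Fintype.card_fin]; omega
  have h2 : ∀ σ τ : Equiv.Perm (Fin m),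
      avg (fun G : Finset (Finset (Fin k ⊕ (Fin m ⊕ Fin m))) => square f (pull (two k σ τ) G)) H =
        avg (square f) H := fun σ τ => avg_comp (two k σ τ) hc (square f) H
  rw [h1, avg_smul, avg_sum, Finset.sum_congr rfl fun σ _ => avg_sum univ _ H]
  simp_rw [h2]
  rw [Finset.sum_const, Finset.sum_const, Finset.card_univ, Fintype.card_perm, Fintype.card_fin,
    nsmul_eq_mul, nsmul_eq_mul]
  have : (m.factorial : ℝ) ≠ 0 := by exact_mod_cast m.factorial_ne_zero
  field_simp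

end sym

/-! ### the inequalities for one functional -/

/-- the conclusion of `S_GRP` for a functional `Q` on the 3-graphs on `Fin N` -/
def Cert (L N : ℕ) [NeZero L] (β : ZMod L → ℝ) (Q : Finset (Finset (Fin N)) → ℝ) : Prop :=
  ∃ ST SR : ℝ → ℝ → ℝ,
    (∀ s' t', 0 ≤ s' → 0 ≤ t' →
      ST s' t' ≤ ∑ ℓ : Fin N → Fin 3 × ZMod L, W s' t' β ℓ * Q (GG rT ℓ)) ∧
    (∀ s' t', 0 ≤ s' → 0 ≤ t' →
      SR s' t' ≤ ∑ ℓ : Fin N → Fin 3 × ZMod L, W s' t' β ℓ * Q (GG rR ℓ)) ∧
    ∀ (δ s t : ℝ), 0 < δ → δ ≤ 1 → 0 ≤ s → 0 ≤ t →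
      -((6 * ((N : ℝ) + 1)) ^ 4 * nodes N δ (fun s' t' => ST s' t' + SR s' t') *
        bads (Fin N) (2 / δ * s) (2 / δ * t)) ≤
      ∑ ℓ : Fin N → Fin 3 × ZMod L, if Good (mks ℓ) then W s t β ℓ * Q (GG rQ ℓ) else 0

theorem nodes_add (m : ℕ) (δ : ℝ) (g h : ℝ → ℝ → ℝ) :
    nodes m δ (fun s t => g s t + h s t) = nodes m δ g + nodes m δ h := by
  unfold nodes
  simp only [Finset.sum_add_distrib]

theorem cert_zero (L N : ℕ) [NeZero L] (β : ZMod L → ℝ) : Cert L N β (fun _ => 0) := by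
  refine ⟨fun _ _ => 0, fun _ _ => 0, fun s t _ _ => by simp, fun s t _ _ => by simp, ?_⟩
  intro δ s t _ _ _ _
  simp [nodes]

theorem cert_add (L N : ℕ) [NeZero L] (β : ZMod L → ℝ) (Q Q' : Finset (Finset (Fin N)) → ℝ)
    (h : Cert L N β Q) (h' : Cert L N β Q') : Cert L N β (fun G => Q G + Q' G) := by
  obtain ⟨ST, SR, h1, h2, h3⟩ := h
  obtain ⟨ST', SR', h1', h2', h3'⟩ := h'
  refine ⟨fun s t => ST s t + ST' s t, fun s t => SR s t + SR' s t, ?_, ?_, ?_⟩
  · intro s t hs ht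
    simp only [mul_add, Finset.sum_add_distrib]
    exact add_le_add (h1 s t hs ht) (h1' s t hs ht)
  · intro s t hs ht
    simp only [mul_add, Finset.sum_add_distrib]
    exact add_le_add (h2 s t hs ht) (h2' s t hs ht)
  · intro δ s t hδ hδ1 hs ht
    have e1 := h3 δ s t hδ hδ1 hs ht
    have e2 := h3' δ s t hδ hδ1 hs ht
    have e3 : nodes N δ (fun s' t' => (ST s' t' + ST' s' t') + (SR s' t' + SR' s' t')) =
        nodes N δ (fun s' t' => ST s' t' + SR s' t') + nodes N δ (fun s' t' => ST' s' t' + SR' s' t') := by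
      rw [← nodes_add]
      congr 1
      funext s' t'
      ring
    have e4 : (∑ ℓ : Fin N → Fin 3 × ZMod L,
        if Good (mks ℓ) then W s t β ℓ * (Q (GG rQ ℓ) + Q' (GG rQ ℓ)) else 0) =
        (∑ ℓ : Fin N → Fin 3 × ZMod L, if Good (mks ℓ) then W s t β ℓ * Q (GG rQ ℓ) else 0) +
        ∑ ℓ : Fin N → Fin 3 × ZMod L, if Good (mks ℓ) then W s t β ℓ * Q' (GG rQ ℓ) else 0 := by
      rw [← Finset.sum_add_distrib]
      refine Finset.sum_congr rfl fun ℓ _ => ?_
      split_ifs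
      · ring
      · ring
    rw [e3, e4]
    have e5 : -((6 * ((N : ℝ) + 1)) ^ 4 * (nodes N δ (fun s' t' => ST s' t' + SR s' t') +
        nodes N δ (fun s' t' => ST' s' t' + SR' s' t')) * bads (Fin N) (2 / δ * s) (2 / δ * t)) =
        -((6 * ((N : ℝ) + 1)) ^ 4 * nodes N δ (fun s' t' => ST s' t' + SR s' t') *
        bads (Fin N) (2 / δ * s) (2 / δ * t)) +
        -((6 * ((N : ℝ) + 1)) ^ 4 * nodes N δ (fun s' t' => ST' s' t' + SR' s' t') *
        bads (Fin N) (2 / δ * s) (2 / δ * t)) := by ring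
    rw [e5]
    exact add_le_add e1 e2

theorem cert_sum {ι : Type} (L N : ℕ) [NeZero L] (β : ZMod L → ℝ) (S : Finset ι)
    (Q : ι → Finset (Finset (Fin N)) → ℝ) (h : ∀ i ∈ S, Cert L N β (Q i)) :
    Cert L N β (fun G => ∑ i ∈ S, Q i G) := by
  classical
  induction S using Finset.induction_on with
  | empty => simpa using cert_zero L N β
  | insert a S ha ih =>
    have h1 := cert_add L N β (Q a) (fun G => ∑ i ∈ S, Q i G) (h a (Finset.mem_insert_self a S))
      (ih fun i hi => h i (Finset.mem_insert_of_mem hi))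
    have e : (fun G => ∑ i ∈ insert a S, Q i G) = fun G => Q a G + ∑ i ∈ S, Q i G := by
      funext G
      rw [Finset.sum_insert ha]
    rw [e]
    exact h1

theorem nm_comp {P U : Type} [Fintype P] [Fintype U] (χ : U ↪ P) (z : Fin 3) (μ : P → Fin 3) :
    nm z (fun u => μ (χ u)) ≤ nm z μ := by
  classical
  unfold nm
  refine Finset.card_le_card_of_injOn χ ?_ χ.injective.injOn
  intro u hu
  simp only [coe_filter, mem_univ, true_and, Set.mem_ofPred_eq] at hu ⊢
  exact hu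

theorem one (hp : S_PAIR) (hg : S_GRAPH) (hs : S_SAMP) {L : ℕ} [NeZero L] (N a b : ℕ)
    (hab : a + 2 * b ≤ N) (g : Finset (Finset (Fin a ⊕ Fin b)) → ℝ) (hgs : IsSym g)
    (β : ZMod L → ℝ) (hβ : ∀ p, 0 ≤ β p) (hβ1 : ∑ p, β p = 1) :
    Cert L N β (fun G => avg (square g) G) := by
  obtain ⟨-, hpull, -, hrT, hrR⟩ := hg
  -- an embedding
  have hc : Fintype.card (Fin a ⊕ (Fin b ⊕ Fin b)) ≤ Fintype.card (Fin N) := by
    simp only [Fintype.card_sum, Fintype.card_fin]; omega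
  obtain ⟨χ⟩ : Nonempty (Fin a ⊕ (Fin b ⊕ Fin b) ↪ Fin N) := Function.Embedding.nonempty_of_card_le hc
  set a₁ : Fin a ⊕ Fin b ↪ Fin N := (left a b).trans χ with ha₁
  set a₂ : Fin a ⊕ Fin b ↪ Fin N := (right a b).trans χ with ha₂
  have h12 : ∀ c, a₁ (Sum.inl c) = a₂ (Sum.inl c) := fun c => rfl
  have h12' : ∀ x y, a₁ (Sum.inr x) ≠ a₂ (Sum.inr y) := by
    intro x y h
    have := χ.injective h
    simp [left, right] at this
  -- the functions
  let F : (Fin 3 × ZMod L → Fin 3 × ZMod L → Fin 3 × ZMod L → Prop) → (Fin a ⊕ Fin b → Fin 3 × ZMod L) → ℝ :=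
    fun R ℓ => g (GG R ℓ)
  have hFs : ∀ R, RSym (F R) := by
    intro R σ ℓ
    show g (GG R (fun v => ℓ (Sum.map id σ v))) = g (GG R ℓ)
    have : GG R (fun v => ℓ (Sum.map id σ v)) = pull (freePerm a σ) (GG R ℓ) := by
      rw [hpull]
      congr 1
    rw [this, hgs]
  have hsq : ∀ (R : Fin 3 × ZMod L → Fin 3 × ZMod L → Fin 3 × ZMod L → Prop) (ℓ : Fin N → Fin 3 × ZMod L),
      square g (GG R (ℓ ∘ χ)) = F R (ℓ ∘ a₁) * F R (ℓ ∘ a₂) := by
    intro R ℓ
    unfold square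
    rw [hpull, hpull]
    rfl
  have hone : ∀ (R : Fin 3 × ZMod L → Fin 3 × ZMod L → Fin 3 × ZMod L → Prop) (s t : ℝ),
      ∑ ℓ : Fin N → Fin 3 × ZMod L, W s t β ℓ * avg (square g) (GG R ℓ) =
      ∑ ℓ : Fin N → Fin 3 × ZMod L, W s t β ℓ * (F R (ℓ ∘ a₁) * F R (ℓ ∘ a₂)) := by
    intro R s t
    have := hs (Fin N) (Fin a ⊕ (Fin b ⊕ Fin b)) (ZMod L) R β s t (fun _ => 1) (fun _ _ => rfl) (square g) χ
    simp only [one_mul] at this
    rw [this]
    refine Finset.sum_congr rfl fun ℓ _ => ?_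
    rw [hsq]
  refine ⟨SS β (F rT), SS β (F rR), ?_, ?_, ?_⟩
  · intro s t hs0 ht0
    rw [hone]
    exact (hp (Fin N) (Fin a) (Fin b) (ZMod L) a₁ a₂ h12 h12' β hβ hβ1 s t hs0 ht0).1 (F rT)
  · intro s t hs0 ht0
    rw [hone]
    exact (hp (Fin N) (Fin a) (Fin b) (ZMod L) a₁ a₂ h12 h12' β hβ hβ1 s t hs0 ht0).1 (F rR)
  · intro δ s t hδ hδ1 hs0 ht0
    have h3 := (hp (Fin N) (Fin a) (Fin b) (ZMod L) a₁ a₂ h12 h12' β hβ hβ1 s t hs0 ht0).2 N
      (by rw [Fintype.card_fin]; omega) δ hδ hδ1 (F rT) (F rR) (hFs _) (hFs _)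
    refine h3.trans (le_of_eq ?_)
    have hsam := hs (Fin N) (Fin a ⊕ (Fin b ⊕ Fin b)) (ZMod L) rQ β s t
      (fun ℓ => if Good (mks ℓ) then 1 else 0) (by
        intro π ℓ
        have hnm : ∀ z, nm z (mks (ℓ ∘ π)) = nm z (mks ℓ) := by
          intro z
          apply le_antisymm
          · exact nm_comp π.toEmbedding z (mks ℓ)
          · have h4 := nm_comp π.symm.toEmbedding z (mks (ℓ ∘ π))
            have h5 : (fun u => mks (ℓ ∘ π) (π.symm.toEmbedding u)) = mks ℓ := by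
              funext u
              simp [mks]
            rw [h5] at h4
            exact h4
        have : Good (mks (ℓ ∘ π)) ↔ Good (mks ℓ) := by
          unfold Good
          rw [hnm, hnm]
        simp only [this]) (square g) χ
    have hl : ∑ ℓ : Fin N → Fin 3 × ZMod L, (if Good (mks ℓ) then W s t β ℓ * avg (square g) (GG rQ ℓ) else 0) =
        ∑ ℓ : Fin N → Fin 3 × ZMod L, W s t β ℓ * ((if Good (mks ℓ) then 1 else 0) * avg (square g) (GG rQ ℓ)) := by
      refine Finset.sum_congr rfl fun ℓ _ => ?_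
      split_ifs <;> ring
    rw [hl, hsam]
    refine Finset.sum_congr rfl fun ℓ _ => ?_
    by_cases hG : Good (mks ℓ)
    · rw [if_pos hG, if_pos hG, one_mul, hsq]
      have hhat : ∀ α : Fin a ⊕ Fin b ↪ Fin N, hat (F rT) (F rR) (ℓ ∘ α) = F rQ (ℓ ∘ α) := by
        intro α
        have hn : ∀ z, nm z (mks (ℓ ∘ α)) ≤ nm z (mks ℓ) := fun z => nm_comp α z (mks ℓ)
        unfold hat
        by_cases h1 : nm 1 (mks (ℓ ∘ α)) ≤ 1
        · rw [if_pos h1]
          show g (GG rT (ℓ ∘ α)) = g (GG rQ (ℓ ∘ α))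
          rw [hrT L _ _ h1]
        · have h2 : nm 2 (mks (ℓ ∘ α)) ≤ 1 := by
            rcases hG with h | h
            · exact absurd ((hn 1).trans h) h1
            · exact (hn 2).trans h
          rw [if_neg h1, if_pos h2]
          show g (GG rR (ℓ ∘ α)) = g (GG rQ (ℓ ∘ α))
          rw [hrR L _ _ h2]
      rw [hhat, hhat]
    · rw [if_neg hG, if_neg hG]
      ring

/-- the conclusion of `S_GRP` for the sum of squares of all kinds -/
theorem cert_sos (hp : S_PAIR) (hg : S_GRAPH) (hs : S_SAMP) {L : ℕ} [NeZero L] (N r : ℕ)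
    (f : ∀ k m : ℕ, Fin r → Finset (Finset (Fin k ⊕ Fin m)) → ℝ)
    (β : ZMod L → ℝ) (hβ : ∀ p, 0 ≤ β p) (hβ1 : ∑ p, β p = 1) :
    Cert L N β (sos N r f) := by
  have h : Cert L N β (fun G => ∑ p ∈ pairs N, ∑ j : Fin r, avg (square (fs (f p.1 p.2 j))) G) := by
    refine cert_sum L N β (pairs N) _ fun p hpN => ?_
    refine cert_sum L N β univ _ fun j _ => ?_
    have : p.1 + 2 * p.2 ≤ N := by
      have := hpN
      unfold pairs at this
      rw [Finset.mem_filter] at this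
      exact this.2.2
    exact one hp hg hs N p.1 p.2 this _ (fs_sym _) β hβ hβ1
  have e : sos N r f = fun G => ∑ p ∈ pairs N, ∑ j : Fin r, avg (square (fs (f p.1 p.2 j))) G := by
    funext G
    unfold sos
    refine Finset.sum_congr rfl fun p hpN => Finset.sum_congr rfl fun j _ => ?_
    have : p.1 + 2 * p.2 ≤ N := by
      have := hpN
      unfold pairs at this
      rw [Finset.mem_filter] at this
      exact this.2.2
    rw [avg_square_fs _ (by rw [Fintype.card_fin]; exact this)]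
  rw [e]
  exact h

/-- a sum of squares is nonnegative at a 3-graph all whose samples of the same kind are equal -/
theorem sos_nonneg (N r : ℕ) (f : ∀ k m : ℕ, Fin r → Finset (Finset (Fin k ⊕ Fin m)) → ℝ)
    (G : Finset (Finset (Fin N))) (hG : ∀ (A : Type) [Fintype A] (θ θ' : A ↪ Fin N), pull θ G = pull θ' G) :
    0 ≤ sos N r f G := by
  unfold sos
  refine Finset.sum_nonneg fun p _ => Finset.sum_nonneg fun j _ => ?_
  unfold avg
  refine div_nonneg (Finset.sum_nonneg fun θ _ => ?_) (Nat.cast_nonneg _)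
  unfold square
  rw [pull_pull, pull_pull, hG _ ((left p.1 p.2).trans θ) ((right p.1 p.2).trans θ)]
  exact mul_self_nonneg _

end Pool.Agent.T3h36.PP.UGP
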