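import Pool.Agent.T3h36.PP.T_UGP0

set_option autoImplicit false
open Finset
open Pool.Agent.T2h36 Pool.Agent.T2h36.Uni

namespace Pool.Agent.T3h36.PP.UGP

theorem sos_empty (N r : ℕ) (f : ∀ k m : ℕ, Fin r → Finset (Finset (Fin k ⊕ Fin m)) → ℝ) :
    0 ≤ sos N r f (∅ : Finset (Finset (Fin N))) := by
  refine sos_nonneg N r f ∅ fun A _ θ θ' => ?_
  ext e
  simp [mem_pull]

/-- the complete 3-graph -/
def comp (N : ℕ) : Finset (Finset (Fin N)) := univ.filter fun e => e.card = 3

theorem sos_comp (N r : ℕ) (f : ∀ k m : ℕ, Fin r → Finset (Finset (Fin k ⊕ Fin m)) → ℝ) :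
    0 ≤ sos N r f (comp N) := by
  refine sos_nonneg N r f _ fun A _ θ θ' => ?_
  ext e
  simp [mem_pull, comp]

theorem edgeDens_comp (N : ℕ) (hN : 3 ≤ N) : edgeDens (comp N) = 1 := by
  unfold edgeDens comp
  have h : (univ.filter fun e : Finset (Fin N) => e.card = 3).card = (Fintype.card (Fin N)).choose 3 := by
    rw [← Finset.card_univ, ← Finset.card_powersetCard 3 (univ : Finset (Fin N)),
      Finset.powersetCard_eq_filter, Finset.powerset_univ]
  rw [h]
  apply div_self
  have : 0 < (Fintype.card (Fin N)).choose 3 := Nat.choose_pos (by rw [Fintype.card_fin]; exact hN)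
  exact_mod_cast this.ne'

theorem big (N r : ℕ) (hN : 3 ≤ N) (κ : ℕ) (hκ : N < κ)
    (f : ∀ k m : ℕ, Fin r → Finset (Finset (Fin k ⊕ Fin m)) → ℝ) (lam : ℝ)
    (H : ∀ G : Finset (Finset (Fin N)), Is3 G → CliqueFree3 κ G → edgeDens G + sos N r f G ≤ lam) :
    1 ≤ lam := by
  have h1 := H (comp N) (by
    intro e he
    unfold comp at he
    rw [Finset.mem_filter] at he
    exact he.2) (by
    intro S hS
    have := Finset.card_le_univ S
    rw [hS, Fintype.card_fin] at this
    omega)
  rw [edgeDens_comp N hN] at h1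
  have := sos_comp N r f
  linarith

end Pool.Agent.T3h36.PP.UGP
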